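import Pool.Agent.W487.T.Stm
import Pool.Agent.W417.TT.Gal

/-! Artin-Schreier extensions with regular right hand side are tame. -/

set_option autoImplicit false

open Polynomial Pool.Agent.W417.TT

namespace W487T

theorem asx : StmAS := by
  intro K _ _ v c h g hh hc
  have h2 : (2 : K) = 0 := CharTwo.two_eq_zero
  let p : K[X] := X ^ 2 + X + C c
  have hp : p = X ^ 2 + X + C c := rfl
  have hsep : p.Separable := by
    rw [Polynomial.Separable, hp]
    have hd : derivative (X ^ 2 + X + C c : K[X]) = 1 := by
      rw [derivative_add, derivative_add, derivative_X_pow, derivative_X, derivative_C]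
      norm_num
      exact h2
    rw [hd]
    exact isCoprime_one_right
  have hne : p.degree ≠ 0 := by
    rw [hp, show (X ^ 2 + X + C c : K[X]) = C 1 * X ^ 2 + C 1 * X + C c by simp,
      degree_quadratic one_ne_zero]
    norm_num
  let N := p.SplittingField
  have hgal : IsGalois K N := IsGalois.of_separable_splitting_field hsep
  have hfd : FiniteDimensional K N := inferInstance
  have h2N : (2 : N) = 0 := by
    have := congrArg (algebraMap K N) h2
    rwa [map_ofNat, map_zero] at this
  have hroot : ∀ r : N, aeval r p = 0 ↔ r ^ 2 + r = algebraMap K N c := by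
    intro r
    change aeval r (X ^ 2 + X + C c : K[X]) = 0 ↔ r ^ 2 + r = algebraMap K N c
    simp only [map_add, map_pow, aeval_X, aeval_C]
    constructor
    · intro h
      linear_combination h - algebraMap K N c * h2N
    · intro h
      linear_combination h + algebraMap K N c * h2N
  obtain ⟨s, hs⟩ : ∃ s : N, aeval s p = 0 := by
    have hs := SplittingField.splits p
    obtain ⟨s, hs⟩ := hs.exists_eval_eq_zero (by rwa [degree_map])
    exact ⟨s, by rwa [aeval_def, ← eval_map]⟩
  have hs2 := (hroot s).1 hs
  refine ⟨N, inferInstance, inferInstance, s, hfd, hgal, hs2, exists_ext _ v, ?_⟩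
  intro O hO σ hσ
  have hfix : ∀ r : N, aeval r p = 0 → σ r = r := by
    intro r hr
    have hr2 := (hroot r).1 hr
    let t : N := r + algebraMap K N g
    have ht2 : t ^ 2 + t = algebraMap K N h := by
      have : algebraMap K N c = algebraMap K N h + algebraMap K N g ^ 2 + algebraMap K N g := by
        rw [hc]
        simp
      change (r + algebraMap K N g) ^ 2 + (r + algebraMap K N g) = algebraMap K N h
      linear_combination hr2 + this + (algebraMap K N g ^ 2 + algebraMap K N g +
        r * algebraMap K N g) * h2N
    have hO' : algebraMap K N h ∈ O := by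
      rw [← hO] at hh
      exact hh
    have htO : t ∈ O := by
      by_contra hn
      have h1 : 1 < O.valuation t := by
        rw [← O.valuation_le_one_iff, not_le] at hn
        exact hn
      have h3 : O.valuation (t ^ 2 + t) = O.valuation t ^ 2 := by
        rw [← map_pow]
        apply Valuation.map_add_eq_of_lt_left
        rw [map_pow, pow_two]
        exact lt_mul_of_one_lt_left (zero_lt_one.trans h1) h1
      rw [ht2] at h3
      have h4 := (O.valuation_le_one_iff _).2 hO'
      rw [h3] at h4
      exact absurd (one_lt_pow₀ h1 two_ne_zero) (not_lt.2 h4)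
    have hst : σ t = t ∨ σ t = t + 1 := by
      have h5 : (σ t) ^ 2 + σ t = algebraMap K N h := by
        rw [← map_pow, ← map_add, ht2, σ.commutes]
      have h6 : (σ t - t) * (σ t - (t + 1)) = 0 := by
        linear_combination h5 - ht2 + (t ^ 2 + t - σ t * t - σ t) * h2N
      rcases mul_eq_zero.1 h6 with h | h
      · exact Or.inl (sub_eq_zero.1 h)
      · exact Or.inr (sub_eq_zero.1 h)
    have hfixt : σ t = t := by
      rcases hst with h | h
      · exact h
      · exfalso
        have ht0 : t ≠ 0 := by
          intro h0
          rw [h0, map_zero, zero_add] at h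
          exact zero_ne_one h
        have h7 := hσ t ht0
        rw [h, add_div, div_self ht0, add_sub_cancel_left, one_div, map_inv₀] at h7
        have h8 := (O.valuation_le_one_iff _).2 htO
        have h9 : O.valuation t ≠ 0 := (Valuation.ne_zero_iff _).2 ht0
        exact absurd h7 (not_lt.2 ((one_le_inv₀ (zero_lt_iff.2 h9)).2 h8))
    have h10 : σ (r + algebraMap K N g) = r + algebraMap K N g := hfixt
    rw [map_add, σ.commutes] at h10
    exact add_right_cancel h10
  have hAdj : Algebra.adjoin K (p.rootSet N) = ⊤ := Polynomial.IsSplittingField.adjoin_rootSet N p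
  have hEq : (σ : N →ₐ[K] N) = AlgHom.id K N := by
    refine AlgHom.ext_of_adjoin_eq_top hAdj ?_
    intro r hr
    exact hfix r (mem_rootSet.1 hr).2
  intro y
  exact DFunLike.congr_fun hEq y

end W487T
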