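import Mathlib
import Pool.Agent.W487.Basic

open CategoryTheory Limits AlgebraicGeometry Opposite

noncomputable section

namespace W487T

/-- The presheaf of abelian groups `T ↦ Γ(T, O_T)` on the category of schemes. -/
def gaPre : Scheme.{0}ᵒᵖ ⥤ AddCommGrpCat.{1} :=
  Scheme.Γ ⋙ forget₂ CommRingCat RingCat ⋙ forget₂ RingCat AddCommGrpCat ⋙
    AddCommGrpCat.uliftFunctor.{1, 0}

def polyEquiv (A : Type) [CommRing A] : (Polynomial ℤ →+* A) ≃ A where
  toFun φ := φ Polynomial.X
  invFun a := Polynomial.eval₂RingHom (Int.castRingHom A) a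
  left_inv φ := by
    apply Polynomial.ringHom_ext
    · intro a; simp
    · simp
  right_inv a := by simp

def toFn (X : Scheme.{0}) (f : X ⟶ Spec (.of (Polynomial ℤ))) : Γ(X, ⊤) :=
  polyEquiv _ ((Scheme.ΓSpecIso (.of (Polynomial ℤ))).inv ≫ f.appTop).hom

lemma toFn_bijective (X : Scheme.{0}) : Function.Bijective (toFn X) := by
  constructor
  · intro f g h
    apply ext_to_Spec
    have := (polyEquiv _).injective h
    ext1
    exact this
  · intro u
    refine ⟨X.toSpecΓ ≫ Spec.map (CommRingCat.ofHom ((polyEquiv _).symm u)), ?_⟩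
    rw [toFn, ← Equiv.eq_symm_apply]
    have : (Scheme.ΓSpecIso (.of (Polynomial ℤ))).inv ≫
      (X.toSpecΓ ≫ Spec.map (CommRingCat.ofHom ((polyEquiv _).symm u))).appTop =
        CommRingCat.ofHom ((polyEquiv _).symm u) := by
      rw [Scheme.Hom.comp_appTop, Scheme.toSpecΓ_appTop, Iso.inv_comp_eq]
      exact Scheme.ΓSpecIso_naturality _
    rw [this]
    rfl

def gaRepr : (gaPre ⋙ forget AddCommGrpCat.{1}).RepresentableBy
    (Spec (.of (Polynomial ℤ))) where
  homEquiv {X} := (Equiv.ofBijective _ (toFn_bijective X)).trans Equiv.ulift.symm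
  homEquiv_comp {X X'} f g := by
    apply ULift.ext
    change toFn X (f ≫ g) = f.appTop.hom (toFn X' g)
    simp [toFn, polyEquiv, Scheme.Hom.appTop]

instance : (gaPre ⋙ forget AddCommGrpCat.{1}).IsRepresentable := gaRepr.isRepresentable

lemma isSheaf_ga : Presheaf.IsSheaf Scheme.etaleTopology gaPre := by
  apply Presheaf.isSheaf_of_isSheaf_comp _ _ (forget AddCommGrpCat)
  rw [isSheaf_iff_isSheaf_of_type]
  have : Presieve.IsSheaf Scheme.fpqcTopology (gaPre ⋙ forget AddCommGrpCat.{1}) :=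
    GrothendieckTopology.Subcanonical.isSheaf_of_isRepresentable _
  exact Presieve.isSheaf_of_le _ (Scheme.etaleTopology_le_proetaleTopology.trans
    Scheme.proetaleTopology_le_fpqcTopology) this

variable (Y : Scheme.{0})

set_option backward.isDefEq.respectTransparency.types false in
lemma coverPreserving_forget : CoverPreserving Y.smallEtaleTopology
    (Scheme.etaleTopology.over Y) (Scheme.Etale.forget Y) := by
  have := Scheme.locallyCoverDense_of_le (P := @Etale) (Q := @Etale) Y le_rfl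
  exact (MorphismProperty.Over.forget @Etale ⊤ Y).coverPreserving_restrictedTopology
    (Scheme.overGrothendieckTopology @Etale Y)

instance : (Scheme.Etale.forget Y).IsContinuous Y.smallEtaleTopology
    (Scheme.etaleTopology.over Y) :=
  have : RepresentablyFlat (Scheme.Etale.forget Y) := flat_of_preservesFiniteLimits _
  Functor.isContinuous_of_coverPreserving (compatiblePreservingOfFlat _ _)
    (coverPreserving_forget Y)

/-- The presheaf `U ↦ Γ(U, O_U)` on the small etale site of `Y`. -/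
def gaEt : Y.Etaleᵒᵖ ⥤ AddCommGrpCat.{1} :=
  (Scheme.Etale.forget Y ⋙ Over.forget Y).op ⋙ gaPre

lemma isSheaf_gaEt : Presheaf.IsSheaf Y.smallEtaleTopology (gaEt Y) := by
  have h : (Scheme.Etale.forget Y ⋙ Over.forget Y).IsContinuous Y.smallEtaleTopology
    Scheme.etaleTopology := Functor.isContinuous_comp _ _ _ (Scheme.etaleTopology.over Y) _
  exact (Scheme.Etale.forget Y ⋙ Over.forget Y).op_comp_isSheaf _ _ ⟨gaPre, isSheaf_ga⟩

variable {Y}

/-- the structure sheaf as a sheaf of abelian groups for a topology coarser than the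
etale topology -/
def Gs (J : GrothendieckTopology Y.Etale) (hJ : J ≤ Y.smallEtaleTopology) :
    Sheaf J AddCommGrpCat.{1} :=
  ⟨gaEt Y, fun E => Presieve.isSheaf_of_le _ hJ (isSheaf_gaEt Y E)⟩

/-- the function of a section -/
def dn {U : Y.Etale} (a : (gaEt Y).obj (op U)) : Γ(U.left, ⊤) := ULift.down a

/-- the section of a function -/
def up {U : Y.Etale} (a : Γ(U.left, ⊤)) : (gaEt Y).obj (op U) := ULift.up a

@[simp] lemma dn_up {U : Y.Etale} (a : Γ(U.left, ⊤)) : dn (up a) = a := rfl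

@[simp] lemma up_dn {U : Y.Etale} (a : (gaEt Y).obj (op U)) : up (dn a) = a := rfl

lemma dn_add {U : Y.Etale} (a b : (gaEt Y).obj (op U)) : dn (a + b) = dn a + dn b := rfl

lemma dn_zero {U : Y.Etale} : dn (0 : (gaEt Y).obj (op U)) = 0 := rfl

lemma dn_sub {U : Y.Etale} (a b : (gaEt Y).obj (op U)) : dn (a - b) = dn a - dn b := rfl

lemma dn_map {U V : Y.Etale} (f : V ⟶ U) (a : (gaEt Y).obj (op U)) :
    dn ((gaEt Y).map f.op a) = f.left.appTop.hom (dn a) := rfl

lemma dn_inj {U : Y.Etale} {a b : (gaEt Y).obj (op U)} (h : dn a = dn b) : a = b :=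
  ULift.ext _ _ h

lemma two_zero (h2 : (2 : Γ(Y, ⊤)) = 0) (U : Y.Etale) : (2 : Γ(U.left, ⊤)) = 0 := by
  have h3 : (U.hom.appTop).hom (2 : Γ(Y, ⊤)) = 2 := map_ofNat _ 2
  exact h3.symm.trans ((congrArg (U.hom.appTop).hom h2).trans (map_zero _))

lemma sq_add_two {R : Type} [CommRing R] (h : (2 : R) = 0) (a b : R) :
    (a + b) ^ 2 = a ^ 2 + b ^ 2 := by
  linear_combination a * b * h

/-- Frobenius on the structure presheaf, in characteristic two -/
def frobHom (h2 : (2 : Γ(Y, ⊤)) = 0) (U : Y.Etale) :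
    (gaEt Y).obj (op U) →+ (gaEt Y).obj (op U) where
  toFun a := up (dn a ^ 2)
  map_zero' := by
    apply dn_inj
    change (0 : Γ(U.left, ⊤)) ^ 2 = 0
    rw [zero_pow two_ne_zero]
  map_add' a b := by
    apply dn_inj
    exact sq_add_two (two_zero h2 U) (dn a) (dn b)

/-- Frobenius on the structure presheaf, in characteristic two -/
def frobEt (h2 : (2 : Γ(Y, ⊤)) = 0) : gaEt Y ⟶ gaEt Y where
  app U := AddCommGrpCat.ofHom (frobHom h2 U.unop)
  naturality U V f := by
    ext a
    apply dn_inj (U := V.unop)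
    change (f.unop.left.appTop.hom (dn (U := U.unop) a)) ^ 2 =
      f.unop.left.appTop.hom (dn (U := U.unop) a ^ 2)
    rw [map_pow]

/-- Frobenius as an endomorphism of the structure sheaf -/
def frobS (J : GrothendieckTopology Y.Etale) (hJ : J ≤ Y.smallEtaleTopology)
    (h2 : (2 : Γ(Y, ⊤)) = 0) : Gs J hJ ⟶ Gs J hJ := ⟨frobEt h2⟩

/-- `a ↦ a ^ 2 + a` as an endomorphism of the structure sheaf -/
def wpS (J : GrothendieckTopology Y.Etale) (hJ : J ≤ Y.smallEtaleTopology)
    (h2 : (2 : Γ(Y, ⊤)) = 0) : Gs J hJ ⟶ Gs J hJ := frobS J hJ h2 + 𝟙 _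

lemma dn_frob (h2 : (2 : Γ(Y, ⊤)) = 0) {U : Y.Etale} (a : (gaEt Y).obj (op U)) :
    dn ((frobEt h2).app (op U) a) = dn a ^ 2 := rfl

end W487T
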