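import Mathlib

/-!
Statements (as propositions) of the independent lemmas of project TT (tame topology,
problem MP_54f350_ag).  All of them are plain algebra over Mathlib.
-/

namespace W487T

open Polynomial TensorProduct

/-- `w` a valuation ring of `L`, `i : K → L` a homomorphism of fields.  The extension of valued
fields `(L, w) / (K, w ∩ K)` is tamely ramified: for some finite Galois extension `N / K`
containing `L` and every valuation ring `v` of `N` above `w`, the ramification group
`{σ | σ x / x - 1 ∈ m_v for all x ≠ 0}` of `v` over `K` fixes `L`. -/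
def IsTame {K L : Type} [Field K] [Field L] (i : K →+* L) (w : ValuationSubring L) : Prop :=
  ∃ (N : Type) (_ : Field N) (_ : Algebra K N) (j : L →+* N),
    FiniteDimensional K N ∧ IsGalois K N ∧ (∀ x, j (i x) = algebraMap K N x) ∧
    ∀ v : ValuationSubring N, v.comap j = w →
      ∀ σ : N ≃ₐ[K] N, (∀ x : N, x ≠ 0 → v.valuation (σ x / x - 1) < 1) → ∀ y : L, σ (j y) = j y

/-- a valuation ring that is a discrete valuation ring with perfect residue field of
characteristic two (every residue class is a square) -/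
def Good {K : Type} [Field K] (v : ValuationSubring K) : Prop :=
  IsDiscreteValuationRing v ∧ ∀ a : v, ∃ b : v, a - b ^ 2 ∈ IsLocalRing.maximalIdeal v

/-- base change of tame extensions -/
def StmBC : Prop := ∀ (K L K' L' : Type) [Field K] [Field L] [Field K'] [Field L']
  (i : K →+* L) (k : K →+* K') (i' : K' →+* L') (l : L →+* L'), (∀ x, l (i x) = i' (k x)) →
  (∀ F : Subfield L', (∀ x, i' x ∈ F) → (∀ x, l x ∈ F) → F = ⊤) →
  ∀ w' : ValuationSubring L', IsTame i (w'.comap l) → IsTame i' w'

/-- transitivity of tame extensions -/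
def StmTrans : Prop := ∀ (K L M : Type) [Field K] [Field L] [Field M]
  (i : K →+* L) (j : L →+* M) (w : ValuationSubring M),
  IsTame i (w.comap j) → IsTame j w → IsTame (j.comp i) w

/-- common extension of two valuations -/
def StmCE : Prop := ∀ (K L K' : Type) [Field K] [Field L] [Field K']
  (i : K →+* L) (k : K →+* K') (w : ValuationSubring L) (v : ValuationSubring K'),
  w.comap i = v.comap k →
  ∃ (Ω : Type) (_ : Field Ω) (a : L →+* Ω) (b : K' →+* Ω) (O : ValuationSubring Ω),
    (∀ x, a (i x) = b (k x)) ∧ O.comap a = w ∧ O.comap b = v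

/-- Artin-Schreier extensions with regular right hand side are tame -/
def StmAS : Prop := ∀ (K : Type) [Field K] [CharP K 2] (v : ValuationSubring K) (c h g : K),
  h ∈ v → c = h + g ^ 2 + g →
  ∃ (N : Type) (_ : Field N) (_ : Algebra K N) (s : N),
    FiniteDimensional K N ∧ IsGalois K N ∧ s ^ 2 + s = algebraMap K N c ∧
    (∃ O : ValuationSubring N, O.comap (algebraMap K N) = v) ∧
    ∀ O : ValuationSubring N, O.comap (algebraMap K N) = v →
      ∀ σ : N ≃ₐ[K] N, (∀ x : N, x ≠ 0 → O.valuation (σ x / x - 1) < 1) → ∀ y, σ y = y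

/-- an odd pole is ramified: some element of the inertia group moves `s` -/
def StmIn : Prop := ∀ (K N : Type) [Field K] [CharP K 2] [Field N] [Algebra K N]
  [FiniteDimensional K N] [IsGalois K N] (O : ValuationSubring N),
  Good (O.comap (algebraMap K N)) → ∀ (π : K), π ∈ O.comap (algebraMap K N) →
  (∀ x : K, x ∈ O.comap (algebraMap K N) ↔ x = 0 ∨ ∃ (m : ℕ) (u : K),
    u ∈ O.comap (algebraMap K N) ∧ u⁻¹ ∈ O.comap (algebraMap K N) ∧ x = u * π ^ m) →
  ∀ (n : ℕ) (u : K), Odd n → u ∈ O.comap (algebraMap K N) → u⁻¹ ∈ O.comap (algebraMap K N) →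
    u ≠ 0 → ∀ s : N, (s ^ 2 + s) * algebraMap K N (π ^ n) = algebraMap K N u →
  ∃ σ : N ≃ₐ[K] N, σ s ≠ s ∧ ∀ x ∈ O, O.valuation (σ x - x) < 1

/-- from the inertia group to the ramification group in characteristic two -/
def StmWild : Prop := ∀ (K N : Type) [Field K] [CharP K 2] [Field N] [Algebra K N]
  [FiniteDimensional K N] [IsGalois K N] (O : ValuationSubring N) (s : N) (q : K),
  s ^ 2 + s = algebraMap K N q → ∀ σ : N ≃ₐ[K] N, σ s ≠ s → (∀ x ∈ O, O.valuation (σ x - x) < 1) →
  ∃ τ : N ≃ₐ[K] N, τ s ≠ s ∧ ∀ x : N, x ≠ 0 → O.valuation (τ x / x - 1) < 1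

/-- the ramification lemma: a tame solution of `s ^ 2 + s = q` at a good place means that `q` is
regular up to `g ^ 2 + g` -/
def StmRam : Prop := ∀ (K L : Type) [Field K] [CharP K 2] [Field L] (i : K →+* L)
  (w : ValuationSubring L), IsTame i w → Good (w.comap i) →
  ∀ (q : K) (s : L), s ^ 2 + s = i q → ∃ f ∈ w.comap i, ∃ g : K, q = f + g ^ 2 + g

/-- faithfully flat descent (degree one) -/
def StmAm : Prop := ∀ (A B : Type) [CommRing A] [CommRing B] [Algebra A B]
  [Module.FaithfullyFlat A B] (c : B ⊗[A] B),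
  (∀ f g h : B →ₐ[A] B ⊗[A] (B ⊗[A] B),
    f = Algebra.TensorProduct.includeLeft →
    g = Algebra.TensorProduct.includeRight.comp Algebra.TensorProduct.includeLeft →
    h = Algebra.TensorProduct.includeRight.comp Algebra.TensorProduct.includeRight →
    Algebra.TensorProduct.lift f g (fun _ _ => Commute.all _ _) c +
      Algebra.TensorProduct.lift g h (fun _ _ => Commute.all _ _) c =
      Algebra.TensorProduct.lift f h (fun _ _ => Commute.all _ _) c) →
  ∃ b : B, c = b ⊗ₜ[A] 1 - 1 ⊗ₜ[A] b

/-- the curve `y ^ 2 + x y = x ^ 3 + x` -/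
def Crv (F : Type) [Field F] : WeierstrassCurve.Affine F := ⟨1, 0, 0, 1, 0⟩

/-- the coordinate ring over `F` -/
abbrev CR (F : Type) [Field F] : Type := (Crv F).CoordinateRing

/-- the function field over `F` -/
abbrev FF (F : Type) [Field F] : Type := (Crv F).FunctionField

/-- the function `x` -/
noncomputable def rx (F : Type) [Field F] : CR F := algebraMap F[X] (CR F) X

/-- the function `y` -/
noncomputable def ry (F : Type) [Field F] : CR F :=
  WeierstrassCurve.Affine.CoordinateRing.mk (Crv F) X

/-- the function `x` in the function field -/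
noncomputable def fx (F : Type) [Field F] : FF F := algebraMap (CR F) (FF F) (rx F)

/-- the function `y` in the function field -/
noncomputable def fy (F : Type) [Field F] : FF F := algebraMap (CR F) (FF F) (ry F)

/-- constants in the coordinate ring -/
noncomputable def rc {F : Type} [Field F] (a : F) : CR F := algebraMap F[X] (CR F) (C a)

/-- constants in the function field -/
noncomputable def fc {F : Type} [Field F] (a : F) : FF F := algebraMap (CR F) (FF F) (rc a)

/-- pole order at infinity of an element of the coordinate ring -/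
noncomputable def pole {F : Type} [Field F] (r : CR F) : ℕ := (Algebra.norm F[X] r).natDegree

/-- the coordinate ring is a Dedekind domain -/
def StmDed : Prop := ∀ (F : Type) [Field F] [CharP F 2], IsDedekindDomain (CR F)

/-- residue fields of the coordinate ring over a finite field are perfect -/
def StmRes : Prop := ∀ (F : Type) [Field F] [Finite F] [CharP F 2] (P : Ideal (CR F)),
  P.IsMaximal → ∀ a : CR F, ∃ b : CR F, a - b ^ 2 ∈ P

/-- from all finite places to a global statement, for Dedekind domains -/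
def StmFin : Prop := ∀ (R K : Type) [CommRing R] [IsDomain R] [IsDedekindDomain R] [CharP R 2]
  [Field K] [Algebra R K] [IsFractionRing R K],
  (∀ P : Ideal R, P.IsMaximal → ∀ a : R, ∃ b : R, a - b ^ 2 ∈ P) → ∀ q : K,
  (∀ v : ValuationSubring K, Good v → ∃ f ∈ v, ∃ g : K, q = f + g ^ 2 + g) →
  ∃ (r : R) (s : K), q = algebraMap R K r + s ^ 2 + s

/-- the place at infinity -/
def StmInf : Prop := ∀ (F : Type) [Field F] [Finite F] [CharP F 2],
  ∃ v : ValuationSubring (FF F), Good v ∧ ∀ (a b : CR F), a ≠ 0 → b ≠ 0 →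
    (algebraMap (CR F) (FF F) a / algebraMap (CR F) (FF F) b ∈ v ↔ pole a ≤ pole b)

/-- reduction at the place at infinity -/
def StmRed : Prop := ∀ (F : Type) [Field F] [Finite F] [CharP F 2] (v : ValuationSubring (FF F)),
  Good v → (∀ (a b : CR F), a ≠ 0 → b ≠ 0 →
    (algebraMap (CR F) (FF F) a / algebraMap (CR F) (FF F) b ∈ v ↔ pole a ≤ pole b)) →
  ∀ (r : CR F) (f g : FF F), f ∈ v → algebraMap (CR F) (FF F) r = f + g ^ 2 + g →
  ∃ (α β : F) (h : CR F), α ^ 2 = α ∧ r = rc α * rx F + rc β + h ^ 2 + h

/-- the final contradiction with the conjugation of the constants -/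
def StmSig : Prop := ∀ (F : Type) [Field F] [Finite F] [CharP F 2] (ω : F), ω ^ 2 + ω + 1 = 0 →
  Nat.card F = 4 → IsDedekindDomain (CR F) → ∀ q ∈ Subfield.closure {fx F, fy F},
  ∀ (α β : F) (g : FF F), α ^ 2 = α → q + fc ω * fx F ≠ fc α * fx F + fc β + g ^ 2 + g

/-- the algebraic core -/
def StmCore : Prop := ∀ (F : Type) [Field F] [Finite F] [CharP F 2] (ω : F),
  ω ^ 2 + ω + 1 = 0 → Nat.card F = 4 → ∀ q ∈ Subfield.closure {fx F, fy F},
  ¬ ∀ v : ValuationSubring (FF F), Good v →
    ∃ f ∈ v, ∃ g : FF F, q + fc ω * fx F = f + g ^ 2 + g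

end W487T
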