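import Mathlib
import Pool.Agent.W487.T.Stm

open CategoryTheory Limits Opposite AlgebraicGeometry

noncomputable section

namespace W487T

/-- a point of a scheme together with a valuation ring of its residue field -/
structure SVal (X : Scheme.{0}) where
  /-- the point -/
  pt : X
  /-- the valuation ring of the residue field -/
  val : ValuationSubring (X.residueField pt)

namespace SVal

variable {X Y Z S : Scheme.{0}}

/-- the image of `(x, v)` under a morphism: the image point with the restricted valuation -/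
def map (f : X ⟶ Y) (x : SVal X) : SVal Y :=
  ⟨f x.pt, x.val.comap (f.residueFieldMap x.pt).hom⟩

/-- `(x, v)` is an `S`-valuation: `Spec κ(x) ⟶ X ⟶ S` extends to `Spec O_v ⟶ S` -/
def IsOver (p : X ⟶ S) (x : SVal X) : Prop :=
  ∃ g : Spec (.of x.val) ⟶ S,
    Spec.map (CommRingCat.ofHom x.val.subtype) ≫ g = X.fromSpecResidueField x.pt ≫ p

lemma eq_iff (s t : SVal X) : s = t ↔ ∃ h : s.pt = t.pt,
    s.val = t.val.comap (X.residueFieldCongr h).hom.hom := by
  constructor
  · rintro rfl
    exact ⟨rfl, rfl⟩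
  · rintro ⟨h, h'⟩
    obtain ⟨p, v⟩ := s
    obtain ⟨q, w⟩ := t
    obtain rfl : p = q := h
    obtain rfl : v = w := h'
    rfl

/-- the point of a morphism from the spectrum of a field -/
abbrev ptOf {Ω : Type} [Field Ω] (a : Spec (.of Ω) ⟶ X) : X := a (IsLocalRing.closedPoint Ω)

/-- the map on residue fields of a morphism from the spectrum of a field -/
abbrev fldOf {Ω : Type} [Field Ω] (a : Spec (.of Ω) ⟶ X) : X.residueField (ptOf a) →+* Ω :=
  (X.descResidueField (Scheme.stalkClosedPointTo a)).hom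

/-- the valuation on `X` given by a valued field with a morphism to `X` -/
def ofPt {Ω : Type} [Field Ω] (a : Spec (.of Ω) ⟶ X) (O : ValuationSubring Ω) : SVal X :=
  ⟨ptOf a, O.comap (fldOf a)⟩

lemma map_ofPt {Ω : Type} [Field Ω] (a : Spec (.of Ω) ⟶ X) (O : ValuationSubring Ω)
    (f : X ⟶ Y) : (ofPt a O).map f = ofPt (a ≫ f) O := by
  have h := Scheme.descResidueField_stalkClosedPointTo_comp f a
  refine (eq_iff _ _).2 ⟨rfl, ?_⟩
  change (O.comap (fldOf a)).comap (f.residueFieldMap (ptOf a)).hom =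
    (O.comap (fldOf (a ≫ f))).comap (RingHom.id _)
  rw [ValuationSubring.comap_comap, ValuationSubring.comap_comap]
  congr 1
  exact congr(($h).hom).symm

lemma ofPt_eq {Ω : Type} [Field Ω] (x : SVal X) (b : Spec (.of Ω) ⟶ X) (O : ValuationSubring Ω)
    (φ : X.residueField x.pt →+* Ω) (h1 : x.val = O.comap φ)
    (h2 : b = Spec.map (CommRingCat.ofHom φ) ≫ X.fromSpecResidueField x.pt) : ofPt b O = x := by
  have h3 : Scheme.SpecToEquivOfField Ω X b = ⟨x.pt, CommRingCat.ofHom φ⟩ := by
    rw [h2]
    exact (Scheme.SpecToEquivOfField Ω X).apply_symm_apply ⟨x.pt, CommRingCat.ofHom φ⟩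
  have h4 := congrArg (fun s : Σ x, X.residueField x ⟶ .of Ω =>
    (⟨s.1, O.comap s.2.hom⟩ : SVal X)) h3
  refine Eq.trans h4 ?_
  rw [eq_iff]
  exact ⟨rfl, h1.symm⟩

lemma ofPt_from (x : SVal X) : ofPt (Ω := X.residueField x.pt)
    (X.fromSpecResidueField x.pt) x.val = x := by
  apply ofPt_eq x _ _ (RingHom.id _)
  · rfl
  · exact (Category.id_comp _).symm.trans (congrArg (· ≫ _) (Spec.map_id _).symm)

lemma map_comp (f : X ⟶ Y) (g : Y ⟶ Z) (x : SVal X) : x.map (f ≫ g) = (x.map f).map g := by
  conv_lhs => rw [← ofPt_from x, map_ofPt, ← Category.assoc, ← map_ofPt, ← map_ofPt, ofPt_from]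

lemma map_id (x : SVal X) : x.map (𝟙 X) = x := by
  conv_lhs => rw [← ofPt_from x, map_ofPt, Category.comp_id, ofPt_from]

/-- `(x, v)` is an `S`-valuation iff the image of `A` in `κ(x)` is contained in `O_v`, `S = Spec A` -/
lemma isOver_iff {R : CommRingCat.{0}} (p : X ⟶ Spec R) (x : SVal X) :
    x.IsOver p ↔ ∀ a : R, (Spec.preimage (X.fromSpecResidueField x.pt ≫ p)).hom a ∈ x.val := by
  constructor
  · rintro ⟨g, hg⟩ a
    rw [← hg]
    have h1 : Spec.preimage (Spec.map (CommRingCat.ofHom x.val.subtype) ≫ g) =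
      Spec.preimage g ≫ CommRingCat.ofHom x.val.subtype := by
        apply Spec.map_injective
        rw [Spec.map_preimage, Spec.map_comp, Spec.map_preimage]
    rw [h1]
    exact ((Spec.preimage g).hom a).2
  · intro h
    let r : R ⟶ CommRingCat.of x.val := CommRingCat.ofHom
      ((Spec.preimage (X.fromSpecResidueField x.pt ≫ p)).hom.codRestrict x.val.toSubring h)
    refine ⟨Spec.map r, ?_⟩
    rw [← Spec.map_comp]
    refine Eq.trans (congrArg Spec.map ?_) (Spec.map_preimage _)
    rfl

lemma isOver_map_iff {R : CommRingCat.{0}} (p : Y ⟶ Spec R) (f : X ⟶ Y) (x : SVal X) :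
    (x.map f).IsOver p ↔ x.IsOver (f ≫ p) := by
  rw [isOver_iff, isOver_iff]
  have h : Spec.preimage (X.fromSpecResidueField x.pt ≫ f ≫ p) =
      Spec.preimage (Y.fromSpecResidueField (f x.pt) ≫ p) ≫ f.residueFieldMap x.pt := by
    apply Spec.map_injective
    rw [Spec.map_preimage, Spec.map_comp, Spec.map_preimage,
      Scheme.Hom.SpecMap_residueFieldMap_fromSpecResidueField_assoc]
  rw [h]
  rfl

/-- two valuations with the same image have a common extension -/
lemma exists_common (ce : StmCE) {U V W : Scheme.{0}} (f : W ⟶ U) (g : V ⟶ U) (y : SVal W)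
    (x : SVal V) (h : y.map f = x.map g) :
    ∃ (Ω : Type) (_ : Field Ω) (O : ValuationSubring Ω) (a : Spec (.of Ω) ⟶ W)
      (b : Spec (.of Ω) ⟶ V), a ≫ f = b ≫ g ∧ ofPt a O = y ∧ ofPt b O = x := by
  obtain ⟨h1, h2⟩ := (eq_iff _ _).1 h
  have h1' : f y.pt = g x.pt := h1
  let i : U.residueField (g x.pt) →+* W.residueField y.pt :=
    ((U.residueFieldCongr h1'.symm).hom ≫ f.residueFieldMap y.pt).hom
  let k : U.residueField (g x.pt) →+* V.residueField x.pt := (g.residueFieldMap x.pt).hom
  have h3 : y.val.comap i = x.val.comap k := by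
    have h4 : (x.map g).val = (y.map f).val.comap (U.residueFieldCongr h1'.symm).hom.hom :=
      ((eq_iff _ _).1 h.symm).2
    exact h4.symm
  obtain ⟨Ω, _, a, b, O, hab, ha, hb⟩ := ce _ _ _ i k y.val x.val h3
  refine ⟨Ω, inferInstance, O, Spec.map (CommRingCat.ofHom a) ≫ W.fromSpecResidueField y.pt,
    Spec.map (CommRingCat.ofHom b) ≫ V.fromSpecResidueField x.pt, ?_, ?_, ?_⟩
  · rw [Category.assoc, Category.assoc, ← Scheme.Hom.SpecMap_residueFieldMap_fromSpecResidueField,
      ← Scheme.Hom.SpecMap_residueFieldMap_fromSpecResidueField]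
    have h4 : CommRingCat.ofHom i ≫ CommRingCat.ofHom a =
      CommRingCat.ofHom k ≫ CommRingCat.ofHom b := by
        ext z
        exact hab z
    have h5 : Spec.map (CommRingCat.ofHom a) ≫ Spec.map (CommRingCat.ofHom i) =
      Spec.map (CommRingCat.ofHom b) ≫ Spec.map (CommRingCat.ofHom k) := by
        rw [← Spec.map_comp, ← Spec.map_comp, h4]
    have h6 : CommRingCat.ofHom i = (U.residueFieldCongr h1'.symm).hom ≫
      f.residueFieldMap y.pt := rfl
    have h7 : CommRingCat.ofHom k = g.residueFieldMap x.pt := rfl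
    rw [h6, h7, Spec.map_comp] at h5
    rw [← Scheme.residueFieldCongr_fromSpecResidueField h1'.symm]
    simpa using congrArg (· ≫ U.fromSpecResidueField (g x.pt)) h5
  · exact ofPt_eq y _ O a ha.symm rfl
  · exact ofPt_eq x _ O b hb.symm rfl

/-- residue fields of points of fibre products are generated by the residue fields of the
projections -/
lemma residue_gen {U V W T : Scheme.{0}} (f : W ⟶ U) (g : V ⟶ U) (q : T ⟶ W) (p : T ⟶ V)
    (hT : IsPullback q p f g) (z : T) (F : Subfield (T.residueField z))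
    (h1 : ∀ a, (p.residueFieldMap z).hom a ∈ F) (h2 : ∀ a, (q.residueFieldMap z).hom a ∈ F) :
    F = ⊤ := by
  let φ : V.residueField (p z) →+* F := (p.residueFieldMap z).hom.codRestrict F h1
  let ψ : W.residueField (q z) →+* F := (q.residueFieldMap z).hom.codRestrict F h2
  let ι : CommRingCat.of F ⟶ T.residueField z := CommRingCat.ofHom F.subtype
  have hφ : CommRingCat.ofHom φ ≫ ι = p.residueFieldMap z := rfl
  have hψ : CommRingCat.ofHom ψ ≫ ι = q.residueFieldMap z := rfl
  let v : Spec (.of F) ⟶ V := Spec.map (CommRingCat.ofHom φ) ≫ V.fromSpecResidueField (p z)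
  let w : Spec (.of F) ⟶ W := Spec.map (CommRingCat.ofHom ψ) ≫ W.fromSpecResidueField (q z)
  have hv : Spec.map ι ≫ v = T.fromSpecResidueField z ≫ p := by
    simp only [v]
    rw [← Category.assoc, ← Spec.map_comp, hφ,
      Scheme.Hom.SpecMap_residueFieldMap_fromSpecResidueField]
  have hw : Spec.map ι ≫ w = T.fromSpecResidueField z ≫ q := by
    simp only [w]
    rw [← Category.assoc, ← Spec.map_comp, hψ,
      Scheme.Hom.SpecMap_residueFieldMap_fromSpecResidueField]
  have hwv : w ≫ f = v ≫ g := by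
    simp only [w, v]
    rw [Category.assoc, Category.assoc, ← Scheme.Hom.SpecMap_residueFieldMap_fromSpecResidueField,
      ← Scheme.Hom.SpecMap_residueFieldMap_fromSpecResidueField, ← Category.assoc,
      ← Category.assoc, ← Spec.map_comp, ← Spec.map_comp]
    have e : f (q z) = g (p z) := by
      change (q ≫ f) z = (p ≫ g) z
      rw [hT.w]
    rw [← Scheme.residueFieldCongr_fromSpecResidueField e, ← Category.assoc, ← Spec.map_comp]
    congr 2
    have h3 : f.residueFieldMap (q z) ≫ q.residueFieldMap z =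
        (U.residueFieldCongr e).hom ≫ g.residueFieldMap (p z) ≫ p.residueFieldMap z := by
      have h4 := Scheme.Hom.residueFieldMap_congr hT.w z
      rw [Scheme.residueFieldMap_comp, Scheme.residueFieldMap_comp] at h4
      exact h4
    ext a

    exact congr($(h3).hom a)
  let c : Spec (.of F) ⟶ T := hT.lift w v hwv
  have hc : Spec.map ι ≫ c = T.fromSpecResidueField z := by
    apply hT.hom_ext
    · rw [Category.assoc, hT.lift_fst, hw]
    · rw [Category.assoc, hT.lift_snd, hv]
  -- the embedding of `κ(z)` in `F`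
  have h5 : (Scheme.SpecToEquivOfField (T.residueField z) T).symm
      ⟨ptOf c, CommRingCat.ofHom (fldOf c) ≫ ι⟩ =
      (Scheme.SpecToEquivOfField (T.residueField z) T).symm ⟨z, 𝟙 _⟩ := by
    change Spec.map (CommRingCat.ofHom (fldOf c) ≫ ι) ≫ T.fromSpecResidueField (ptOf c) =
      Spec.map (𝟙 _) ≫ T.fromSpecResidueField z
    rw [Spec.map_comp, Category.assoc, Spec.map_id, Category.id_comp, ← hc]
    congr 1
    exact Scheme.descResidueField_stalkClosedPointTo_fromSpecResidueField _ T c
  obtain ⟨e, he⟩ := Scheme.SpecToEquivOfField_eq_iff.1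
    ((Scheme.SpecToEquivOfField (T.residueField z) T).symm.injective h5)
  rw [eq_top_iff]
  intro a _
  obtain ⟨b, rfl⟩ := (ConcreteCategory.bijective_of_isIso (T.residueFieldCongr e).hom).2 a
  have h6 := congr($(he).hom b)
  have h7 : (T.residueFieldCongr e).hom.hom b = (fldOf c b : F) := h6.symm
  exact h7 ▸ (fldOf c b).2

end SVal

end W487T
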