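import Mathlib
import Pool.Agent.W487.T.Stm
import Pool.Agent.W487.T.SVal
import Pool.Agent.W487.T.Ga

/-!
Statements (as propositions) of further lemmas of project TT (problem MP_54f350_ag).
-/

namespace W487T

open CategoryTheory Limits Opposite AlgebraicGeometry

/-- the smooth algebra over the two-adic integers -/
def StmData : Prop := ∀ (F : Type) [Field F] [CharP F 2],
  ∃ (B : Type) (_ : CommRing B) (_ : Algebra ℤ_[2] B) (_ : Algebra.Smooth ℤ_[2] B)
    (x xi t : B) (ψ : B →+* FF F), x * xi = 1 ∧ t ^ 2 + t = x + xi ∧ ψ x = fx F ∧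
    ∀ b, ψ b ∈ Subfield.closure {fx F, fy F}

/-- Artin-Schreier coverings with regular right hand side have tame points over all valuations -/
def StmASC : Prop := ∀ (Y : Scheme.{0}) (_ : (2 : Γ(Y, ⊤)) = 0) (U : Y.Etale)
  (f : Γ(U.left, ⊤)) (x : SVal U.left),
  (∃ h ∈ x.val, ∃ g, (U.left.Γevaluation x.pt).hom f = h + g ^ 2 + g) →
  ∃ (W : Y.Etale) (φ : W ⟶ U) (y : SVal W.left) (s : Γ(W.left, ⊤)),
    s ^ 2 + s = φ.left.appTop.hom f ∧ y.map φ.left = x ∧
      IsTame (φ.left.residueFieldMap y.pt).hom y.val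

/-- the kernel of `a ↦ a ^ 2 + a` is the constant sheaf with two elements -/
def StmCst : Prop := ∀ (Y : Scheme.{0}) (h2 : (2 : Γ(Y, ⊤)) = 0)
  (J : GrothendieckTopology Y.Etale) (hJ : J ≤ Y.smallEtaleTopology),
  (∀ (U : Y.Etale) (R : Sieve U), (∀ u : U.left, ∃ (W : Y.Etale) (f : W ⟶ U) (w : W.left),
    R f ∧ IsOpenImmersion f.left ∧ f.left w = u) → R ∈ J U) →
  Nonempty (kernel (wpS J hJ h2) ≅ (constantSheaf J AddCommGrpCat.{1}).obj
    (AddCommGrpCat.of (ULift.{1} (ZMod 2))))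

/-- an etale morphism is, near a point of the source, a faithfully flat etale morphism of affine
schemes -/
def StmGeo : Prop := ∀ (U W : Scheme.{0}) (f : W ⟶ U) [Etale f] (w : W),
  ∃ (A B : CommRingCat.{0}) (φ : A ⟶ B) (s : Spec A ⟶ U) (r : Spec B ⟶ W) (a : Spec A),
    IsOpenImmersion s ∧ IsOpenImmersion r ∧ r ≫ f = Spec.map φ ≫ s ∧
      φ.hom.FaithfullyFlat ∧ φ.hom.Etale ∧ s a = f w

end W487T
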