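import Mathlib
import Pool.Agent.W487.T.Stm2

/-!
Artin-Schreier coverings with regular right hand side have tame points over all valuations.
-/

open CategoryTheory Limits Opposite AlgebraicGeometry Polynomial

noncomputable section

namespace W487T

namespace ASC

section Alg

variable {R : Type} [CommRing R]

/-- the Artin-Schreier pair -/
def pr (h2 : (2 : R) = 0) (f : R) : StandardEtalePair R where
  f := X ^ 2 + X - C f
  monic_f := by monicity!
  g := 1
  cond := ⟨1, 0, 0, by
    have h' : (C (2 : R) : R[X]) = 0 := by rw [h2, C_0]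
    simp only [derivative_sub, derivative_add, derivative_X_pow, derivative_X, derivative_C]
    linear_combination (norm := (push_cast; ring_nf)) X * h'⟩

lemma sq_X (h2 : (2 : R) = 0) (f : R) :
    (pr h2 f).X ^ 2 + (pr h2 f).X = algebraMap R (pr h2 f).Ring f := by
  have h := (StandardEtalePair.hasMap_X (P := pr h2 f)).1
  change aeval (pr h2 f).X (X ^ 2 + X - C f) = 0 at h
  simp only [map_sub, map_add, map_pow, aeval_X, aeval_C] at h
  exact sub_eq_zero.1 h

lemma exists_lift (h2 : (2 : R) = 0) (f : R) {N : Type} [CommRing N] (i : R →+* N) (s : N)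
    (hs : s ^ 2 + s = i f) :
    ∃ l : (pr h2 f).Ring →+* N, l.comp (algebraMap R (pr h2 f).Ring) = i := by
  let _ := i.toAlgebra
  have h : (pr h2 f).HasMap s := by
    constructor
    · change aeval s (X ^ 2 + X - C f) = 0
      simp only [map_sub, map_add, map_pow, aeval_X, aeval_C]
      rw [hs]
      exact sub_self _
    · change IsUnit (aeval s (1 : R[X]))
      simp
  refine ⟨((pr h2 f).lift s h).toRingHom, ?_⟩
  ext r
  exact ((pr h2 f).lift s h).commutes r

end Alg

/-- the conclusion of `StmAS` in terms of a ring homomorphism -/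
def TF {K N : Type} [Field K] [Field N] (ψ : K →+* N) (O : ValuationSubring N) : Prop :=
  letI := ψ.toAlgebra
  FiniteDimensional K N ∧ IsGalois K N ∧ ∀ O' : ValuationSubring N, O'.comap ψ = O.comap ψ →
    ∀ σ : N ≃ₐ[K] N, (∀ x : N, x ≠ 0 → O'.valuation (σ x / x - 1) < 1) → ∀ y, σ y = y

lemma isTame_of_TF {K L N : Type} [Field K] [Field L] [Field N] (i : K →+* L) (j : L →+* N)
    (O : ValuationSubring N) (h : TF (j.comp i) O) : IsTame i (O.comap j) := by
  let _ := (j.comp i).toAlgebra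
  obtain ⟨h1, h2, h3⟩ := h
  refine ⟨N, inferInstance, (j.comp i).toAlgebra, j, h1, h2, fun x => rfl, ?_⟩
  intro v hv σ hσ y
  apply h3 v _ σ hσ
  rw [← ValuationSubring.comap_comap, ← ValuationSubring.comap_comap, hv]

lemma TF_algebraMap {K N : Type} [Field K] [Field N] [A : Algebra K N] [FiniteDimensional K N]
    [IsGalois K N] (O : ValuationSubring N)
    (h : ∀ O' : ValuationSubring N, O'.comap (algebraMap K N) = O.comap (algebraMap K N) →
    ∀ σ : N ≃ₐ[K] N, (∀ x : N, x ≠ 0 → O'.valuation (σ x / x - 1) < 1) → ∀ y, σ y = y) :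
    TF (algebraMap K N) O := by
  have e : (algebraMap K N).toAlgebra = A := by
    ext
    rw [Algebra.smul_def]
    rfl
  unfold TF
  rw [e]
  exact ⟨inferInstance, inferInstance, h⟩

lemma from_toSpec (X : Scheme.{0}) (p : X) :
    X.fromSpecResidueField p ≫ X.toSpecΓ = Spec.map (X.Γevaluation p) := by
  change (Spec.map (X.residue p) ≫ X.fromSpecStalk p) ≫ X.toSpecΓ = _
  rw [Category.assoc, Scheme.fromSpecStalk_toSpecΓ, ← Spec.map_comp]
  rfl

lemma cover (X : Scheme.{0}) (h2 : (2 : Γ(X, ⊤)) = 0) (f : Γ(X, ⊤)) :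
    ∃ (T : Scheme.{0}) (φ : T ⟶ X) (_ : Etale φ) (s : Γ(T, ⊤)),
      s ^ 2 + s = φ.appTop.hom f ∧ ∀ (N : Type) [Field N] (p : X)
        (κ : X.residueField p ⟶ CommRingCat.of N) (s' : N),
        s' ^ 2 + s' = κ.hom ((X.Γevaluation p).hom f) →
        ∃ a : Spec (CommRingCat.of N) ⟶ T, a ≫ φ = Spec.map κ ≫ X.fromSpecResidueField p := by
  let P := pr h2 f
  let E : CommRingCat.{0} := CommRingCat.of P.Ring
  let q : Γ(X, ⊤) ⟶ E := CommRingCat.ofHom (algebraMap _ P.Ring)
  have : Etale (Spec.map q) := by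
    rw [HasRingHomProperty.Spec_iff (P := @Etale)]
    change (algebraMap Γ(X, ⊤) P.Ring).Etale
    rw [RingHom.etale_algebraMap]
    infer_instance
  let s : Γ(pullback X.toSpecΓ (Spec.map q), ⊤) :=
    (pullback.snd X.toSpecΓ (Spec.map q)).appTop.hom ((Scheme.ΓSpecIso E).inv.hom P.X)
  refine ⟨pullback X.toSpecΓ (Spec.map q), pullback.fst _ _, inferInstance, s, ?_, ?_⟩
  · have h3 : P.X ^ 2 + P.X = q.hom f := sq_X h2 f
    change (pullback.snd X.toSpecΓ (Spec.map q)).appTop.hom ((Scheme.ΓSpecIso E).inv.hom P.X) ^ 2 +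
      (pullback.snd X.toSpecΓ (Spec.map q)).appTop.hom ((Scheme.ΓSpecIso E).inv.hom P.X) = _
    rw [← map_pow, ← map_add, ← map_pow, ← map_add]
    have h4 : (Scheme.ΓSpecIso _).inv ≫ (Spec.map q).appTop = q ≫ (Scheme.ΓSpecIso E).inv :=
      (Scheme.ΓSpecIso_inv_naturality q).symm
    have h5 : q ≫ (Scheme.ΓSpecIso E).inv ≫ (pullback.snd X.toSpecΓ (Spec.map q)).appTop =
        (pullback.fst X.toSpecΓ (Spec.map q)).appTop := by
      rw [← reassoc_of% h4, ← Scheme.Hom.comp_appTop, ← pullback.condition,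
        Scheme.Hom.comp_appTop, Scheme.toSpecΓ_appTop]
      simp
    refine Eq.trans ?_ congr($(h5).hom f)
    exact congrArg (fun z => (pullback.snd X.toSpecΓ (Spec.map q)).appTop.hom
      ((Scheme.ΓSpecIso E).inv.hom z)) h3
  · intro N _ p κ s' hs'
    obtain ⟨l, hl⟩ := exists_lift h2 f (κ.hom.comp (X.Γevaluation p).hom) s' hs'
    let l' : E ⟶ CommRingCat.of N := CommRingCat.ofHom l
    have hl' : q ≫ l' = X.Γevaluation p ≫ κ := by
      ext z
      exact congr($hl z)
    exact ⟨pullback.lift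
      (Spec.map κ ≫ X.fromSpecResidueField p) (Spec.map l') (by
      rw [Category.assoc, from_toSpec, ← Spec.map_comp, ← Spec.map_comp, hl']),
      pullback.lift_fst _ _ _⟩

lemma point_eq {X T : Scheme.{0}} (φ : T ⟶ X) {N : Type} [Field N] (p : X)
    (κ : X.residueField p ⟶ CommRingCat.of N) (a : Spec (CommRingCat.of N) ⟶ T)
    (ha : a ≫ φ = Spec.map κ ≫ X.fromSpecResidueField p) :
    (⟨φ (SVal.ptOf a), φ.residueFieldMap (SVal.ptOf a) ≫
        CommRingCat.ofHom (SVal.fldOf a)⟩ : Σ p, X.residueField p ⟶ CommRingCat.of N) =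
        ⟨p, κ⟩ := by
  apply (Scheme.SpecToEquivOfField N X).symm.injective
  change Spec.map (φ.residueFieldMap (SVal.ptOf a) ≫ CommRingCat.ofHom (SVal.fldOf a)) ≫
        X.fromSpecResidueField (φ (SVal.ptOf a)) = Spec.map κ ≫ X.fromSpecResidueField p
  rw [← ha]
  have h := Spec.map_comp (φ.residueFieldMap (SVal.ptOf a)) (CommRingCat.ofHom (SVal.fldOf a))
  refine (congrArg (· ≫ X.fromSpecResidueField (φ (SVal.ptOf a))) h).trans ?_
  rw [Category.assoc, Scheme.Hom.SpecMap_residueFieldMap_fromSpecResidueField, ← Category.assoc]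
  congr 1
  exact Scheme.descResidueField_stalkClosedPointTo_fromSpecResidueField _ T a

end ASC

open ASC

theorem asc (hAS : StmAS) : StmASC := by
  intro Y h2 U f x hx
  obtain ⟨h, hh, g, hf⟩ := hx
  have h2U : (2 : Γ(U.left, ⊤)) = 0 := two_zero h2 U
  have h2K : (2 : U.left.residueField x.pt) = 0 := by
    have := congrArg (U.left.Γevaluation x.pt).hom h2U
    rwa [map_ofNat, map_zero] at this
  have : CharP (U.left.residueField x.pt) 2 :=
    CharTwo.of_one_ne_zero_of_two_eq_zero one_ne_zero h2K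
  obtain ⟨N, _, _, s', hfd, hgal, hs', ⟨O, hO⟩, hO'⟩ := hAS (U.left.residueField x.pt) x.val
    ((U.left.Γevaluation x.pt).hom f) h g hh hf
  obtain ⟨T, φ, hφ, s, hs, hT⟩ := cover U.left h2U f
  let κ : U.left.residueField x.pt ⟶ CommRingCat.of N :=
    CommRingCat.ofHom (algebraMap (U.left.residueField x.pt) N)
  obtain ⟨a, ha⟩ := hT N x.pt κ s' hs'
  let W : Y.Etale := Scheme.Etale.mk (φ ≫ U.hom)
  let ψ : W ⟶ U := MorphismProperty.Over.homMk φ rfl
  have hx' : SVal.ofPt (a ≫ φ) O = x :=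
    SVal.ofPt_eq x (a ≫ φ) O (algebraMap (U.left.residueField x.pt) N) hO.symm ha
  refine ⟨W, ψ, SVal.ofPt a O, s, hs, (SVal.map_ofPt a O φ).trans hx', ?_⟩
  apply isTame_of_TF
  have h9 : TF (K := U.left.residueField x.pt) κ.hom O := by
    apply TF_algebraMap
    intro O' hO2
    exact hO' O' (hO2.trans hO)
  have h10 := congrArg (fun s : Σ p, U.left.residueField p ⟶ CommRingCat.of N =>
    TF (K := U.left.residueField s.1) (N := N) s.2.hom O) (point_eq φ x.pt κ a ha)
  exact h10.mpr h9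

end W487T
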