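import Pool.Agent.W400.TT.Base

set_option autoImplicit false

namespace W487T.Ded

open Polynomial W487T.CB

/-- integral fractions of polynomials are polynomials -/
theorem dvd_of_int {F : Type} [Field F] {u d : F[X]} (hd : d ≠ 0)
    (h : IsIntegral F[X] (algebraMap F[X] (FF F) u / algebraMap F[X] (FF F) d)) : d ∣ u := by
  have hinj : Function.Injective (Algebra.ofId F[X] (FF F)) :=
    FaithfulSMul.algebraMap_injective F[X] (FF F)
  let φ : FractionRing F[X] →ₐ[F[X]] FF F := IsFractionRing.liftAlgHom hinj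
  have hφ : Function.Injective φ := φ.toRingHom.injective
  have hφa : ∀ p : F[X], φ (algebraMap F[X] (FractionRing F[X]) p) = algebraMap F[X] (FF F) p :=
    fun p => φ.commutes p
  have h1 : φ (algebraMap F[X] (FractionRing F[X]) u / algebraMap F[X] (FractionRing F[X]) d) =
      algebraMap F[X] (FF F) u / algebraMap F[X] (FF F) d := by
    rw [map_div₀, hφa, hφa]
  rw [← h1, isIntegral_algHom_iff φ hφ, IsIntegrallyClosed.isIntegral_iff] at h
  obtain ⟨y, hy⟩ := h
  have hd' : algebraMap F[X] (FractionRing F[X]) d ≠ 0 := by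
    rw [Ne, IsFractionRing.to_map_eq_zero_iff]
    exact hd
  rw [eq_div_iff hd', ← map_mul] at hy
  refine ⟨y, ?_⟩
  rw [mul_comm]
  exact (IsFractionRing.injective F[X] (FractionRing F[X]) hy).symm

section
variable (F : Type) [Field F] [CharP F 2]

instance charCR : CharP (CR F) 2 :=
  charP_of_injective_algebraMap (FaithfulSMul.algebraMap_injective F[X] (CR F)) 2

instance charFF : CharP (FF F) 2 :=
  charP_of_injective_algebraMap (IsFractionRing.injective (CR F) (FF F)) 2

omit [CharP F 2] in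
theorem poly_eq : (Crv F).polynomial = X ^ 2 + C X * X - (C (X ^ 3 + X)) := by
  unfold WeierstrassCurve.Affine.polynomial
  simp only [Crv, C_0, C_1, zero_mul, one_mul, add_zero]

theorem eval_cj : (Crv F).polynomial.eval₂ (algebraMap F[X] (CR F)) (ry F + rx F) = 0 := by
  refine (congrArg (fun P => eval₂ (algebraMap F[X] (CR F)) (ry F + rx F) P) (poly_eq F)).trans ?_
  simp only [eval₂_sub, eval₂_add, eval₂_mul, eval₂_pow, eval₂_X, eval₂_C, map_add, map_pow]
  have h1 := curve (F := F)
  have h2 : rx F = algebraMap F[X] (CR F) X := rfl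
  rw [← h2]
  have h3 := CharTwo.add_self_eq_zero (rx F ^ 2)
  have h4 := CharTwo.add_self_eq_zero (rx F * ry F)
  linear_combination h1 + h3 + h4

/-- the conjugation as a ring homomorphism -/
noncomputable def cj0 : CR F →+* CR F :=
  AdjoinRoot.lift (algebraMap F[X] (CR F)) (ry F + rx F) (eval_cj F)

/-- the conjugation -/
noncomputable def cj : CR F →ₐ[F[X]] CR F :=
  { cj0 F with
    commutes' := fun p => AdjoinRoot.lift_of (eval_cj F) }

theorem cj_ry : cj F (ry F) = ry F + rx F := AdjoinRoot.lift_root (eval_cj F)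

theorem cj_el (p q : F[X]) : cj F (el p q) = el (p + q * X) q := by
  unfold el
  rw [map_add, map_smul, map_smul, cj_ry, map_one, rx_eq]
  unfold el
  simp only [Algebra.smul_def, mul_one, map_add, map_mul, map_zero, zero_mul, add_zero]
  ring

theorem el_mul_cj (p q : F[X]) : el p q * cj F (el p q) =
    algebraMap F[X] (CR F) (p ^ 2 + p * q * X + q ^ 2 * (X ^ 3 + X)) := by
  rw [cj_el]
  unfold el
  simp only [Algebra.smul_def, mul_one, map_add, map_mul, map_pow]
  have h1 := curve (F := F)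
  have h2 : rx F = algebraMap F[X] (CR F) X := rfl
  rw [← h2]
  have h4 := CharTwo.add_self_eq_zero (algebraMap F[X] (CR F) p * algebraMap F[X] (CR F) q * ry F)
  linear_combination (algebraMap F[X] (CR F) q) ^ 2 * h1 + h4

theorem cj_inj : Function.Injective (cj F) := by
  rw [injective_iff_map_eq_zero]
  intro a ha
  obtain ⟨p, q, rfl⟩ := exists_el a
  rw [cj_el] at ha
  obtain ⟨h1, h2⟩ := el_eq_zero ha
  rw [h2, zero_mul, add_zero] at h1
  rw [h1, h2]
  unfold el
  simp

/-- the embedding composed with the conjugation -/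
noncomputable def emb : CR F →ₐ[F[X]] FF F :=
  (IsScalarTower.toAlgHom F[X] (CR F) (FF F)).comp (cj F)

theorem emb_inj : Function.Injective (emb F) :=
  (IsFractionRing.injective (CR F) (FF F)).comp (cj_inj F)

/-- the conjugation of the function field -/
noncomputable def cjF : FF F →ₐ[F[X]] FF F := IsFractionRing.liftAlgHom (emb_inj F)

theorem cjF_apply (a : CR F) : cjF F (algebraMap (CR F) (FF F) a) =
    algebraMap (CR F) (FF F) (cj F a) := by
  unfold cjF
  rw [IsFractionRing.liftAlgHom_apply, IsFractionRing.lift_algebraMap]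
  rfl

theorem int_closed (z : FF F) (hz : IsIntegral (CR F) z) :
    ∃ y, algebraMap (CR F) (FF F) y = z := by
  have hz1 : IsIntegral F[X] z := isIntegral_trans z hz
  have hz2 : IsIntegral F[X] (cjF F z) := hz1.map (cjF F)
  set ι : F[X] → FF F := fun p => algebraMap F[X] (FF F) p with hι
  have hιa : ∀ p : F[X], algebraMap (CR F) (FF F) (algebraMap F[X] (CR F) p) =
      algebraMap F[X] (FF F) p := fun p => (IsScalarTower.algebraMap_apply F[X] (CR F) (FF F) p).symm
  have hιinj : Function.Injective (algebraMap F[X] (FF F)) :=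
    FaithfulSMul.algebraMap_injective F[X] (FF F)
  -- write `z = (P + Q y) / D`
  obtain ⟨P, Q, D, hD, hzD⟩ : ∃ P Q D : F[X], D ≠ 0 ∧
      z * algebraMap F[X] (FF F) D = algebraMap (CR F) (FF F) (el P Q) := by
    obtain ⟨r, s, hs, rfl⟩ := IsFractionRing.div_surjective (A := CR F) z
    have hs0 : s ≠ 0 := nonZeroDivisors.ne_zero hs
    obtain ⟨p, q, hpq⟩ := exists_el s
    obtain ⟨P, Q, hPQ⟩ := exists_el (r * cj F s)
    refine ⟨P, Q, p ^ 2 + p * q * X + q ^ 2 * (X ^ 3 + X), ?_, ?_⟩
    · intro h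
      have h1 := el_mul_cj F p q
      rw [h, map_zero, ← hpq] at h1
      rcases mul_eq_zero.1 h1 with h2 | h2
      · exact hs0 h2
      · exact hs0 ((injective_iff_map_eq_zero (cj F)).1 (cj_inj F) s h2)
    · rw [← hιa, ← el_mul_cj, ← hpq, ← hPQ, map_mul, map_mul]
      have hs1 : algebraMap (CR F) (FF F) s ≠ 0 := by
        rw [Ne, IsFractionRing.to_map_eq_zero_iff]
        exact hs0
      field_simp
  have hD' : algebraMap F[X] (FF F) D ≠ 0 := by
    rw [Ne, map_eq_zero_iff _ hιinj]
    exact hD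
  have hzbD : cjF F z * algebraMap F[X] (FF F) D =
      algebraMap (CR F) (FF F) (el (P + Q * X) Q) := by
    have h1 := congrArg (cjF F) hzD
    rw [map_mul, cjF_apply, cj_el, AlgHom.commutes] at h1
    exact h1
  -- the trace
  have ht : z + cjF F z = algebraMap F[X] (FF F) (Q * X) / algebraMap F[X] (FF F) D := by
    rw [eq_div_iff hD', add_mul, hzD, hzbD, ← map_add, el_add, ← add_assoc, CharTwo.add_self_eq_zero,
      CharTwo.add_self_eq_zero, zero_add, el_left, hιa]
  have hn : z * cjF F z = algebraMap F[X] (FF F) (P ^ 2 + P * Q * X + Q ^ 2 * (X ^ 3 + X)) /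
      algebraMap F[X] (FF F) (D ^ 2) := by
    rw [map_pow, eq_div_iff (pow_ne_zero 2 hD')]
    have h1 := el_mul_cj F P Q
    rw [cj_el] at h1
    rw [← hιa (P ^ 2 + P * Q * X + Q ^ 2 * (X ^ 3 + X)), ← h1, map_mul, ← hzD, ← hzbD]
    ring
  have hDt : D ∣ Q * X := dvd_of_int hD (by rw [← ht]; exact hz1.add hz2)
  have hDn : D ^ 2 ∣ P ^ 2 + P * Q * X + Q ^ 2 * (X ^ 3 + X) :=
    dvd_of_int (pow_ne_zero 2 hD) (by rw [← hn]; exact hz1.mul hz2)
  obtain ⟨t, ht'⟩ := hDt
  obtain ⟨n, hn'⟩ := hDn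
  have hD2 : D ^ 2 ≠ 0 := pow_ne_zero 2 hD
  -- `D` divides `X P`
  have key : (X * P) ^ 2 + (X * P) * D * (t * X) =
      D ^ 2 * (X ^ 2 * n - t ^ 2 * (X ^ 3 + X)) := by
    linear_combination X ^ 2 * hn' - (P * X ^ 2) * ht' - (X ^ 3 + X) * (Q * X + D * t) * ht'
  have hDP : D ∣ X * P := by
    apply dvd_of_int hD
    refine ⟨X ^ 2 + C (t * X) * X - C (X ^ 2 * n - t ^ 2 * (X ^ 3 + X)), ?_, ?_⟩
    · have : (X ^ 2 + C (t * X) * X - C (X ^ 2 * n - t ^ 2 * (X ^ 3 + X)) : F[X][X]) =
          X ^ 2 + (C (t * X) * X - C (X ^ 2 * n - t ^ 2 * (X ^ 3 + X))) := by ring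
      rw [this]
      apply monic_X_pow_add
      refine lt_of_le_of_lt (degree_sub_le _ _) (max_lt ?_ ?_)
      · refine lt_of_le_of_lt (degree_C_mul_X_le _) ?_
        norm_num
      · refine lt_of_le_of_lt degree_C_le ?_
        norm_num
    · have h1 := congrArg (algebraMap F[X] (FF F)) key
      simp only [eval₂_sub, eval₂_add, eval₂_mul, eval₂_pow, eval₂_X, eval₂_C]
      simp only [map_add, map_mul, map_pow, map_sub] at h1 ⊢
      field_simp
      linear_combination h1
  obtain ⟨α, hα⟩ := hDP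
  have h2 : α ^ 2 + α * (t * X) = X ^ 2 * n - t ^ 2 * (X ^ 3 + X) := by
    apply mul_left_cancel₀ hD2
    rw [← key, hα]
    ring
  have hXα : X ∣ α := by
    apply prime_X.dvd_of_dvd_pow (n := 2)
    refine ⟨X * n - t ^ 2 * (X ^ 2 + 1) - α * t, ?_⟩
    linear_combination h2
  obtain ⟨a, rfl⟩ := hXα
  have hP : P = D * a := by
    apply mul_left_cancel₀ (X_ne_zero (R := F))
    rw [hα]
    ring
  have h3 : t ^ 2 * (X ^ 2 + 1) = X * (n - a ^ 2 - a * t) := by
    apply mul_left_cancel₀ (X_ne_zero (R := F))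
    linear_combination h2
  have hXt : X ∣ t := by
    have h4 : X ∣ t ^ 2 * (X ^ 2 + 1) := ⟨_, h3⟩
    rcases prime_X.dvd_or_dvd h4 with h5 | h5
    · exact prime_X.dvd_of_dvd_pow h5
    · exfalso
      rw [X_dvd_iff] at h5
      simp at h5
  obtain ⟨b, rfl⟩ := hXt
  have hQ : Q = D * b := by
    apply mul_left_cancel₀ (X_ne_zero (R := F))
    linear_combination ht'
  refine ⟨el a b, ?_⟩
  apply mul_right_cancel₀ hD'
  rw [hzD, hP, hQ, ← hιa, ← map_mul]
  congr 1
  unfold el
  simp only [Algebra.smul_def, map_mul]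
  ring

end

theorem _root_.W487T.ded : StmDed := by
  intro F _ _
  rw [isDedekindDomain_iff (CR F) (FF F)]
  exact ⟨inferInstance, IsNoetherianRing.of_finite F[X] (CR F),
    Ring.DimensionLEOne.of_isIntegral F[X] (CR F), fun {z} hz => int_closed F z hz⟩

end W487T.Ded
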