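import Pool.Agent.W487.T.Stm

/-! Artin-Schreier approximation at all finite places of a Dedekind domain. -/

set_option autoImplicit false

open Polynomial IsDedekindDomain

namespace W487T

namespace Fin

variable {R K : Type} [CommRing R] [IsDedekindDomain R] [Field K] [Algebra R K]
  [IsFractionRing R K]

/-- partial fractions -/
theorem partial_frac (P : HeightOneSpectrum R) (s : K) :
    ∃ n : K, P.valuation K (n - s) ≤ 1 ∧
      ∀ Q : HeightOneSpectrum R, Q ≠ P → Q.valuation K n ≤ 1 := by
  obtain ⟨a, b, hb, rfl⟩ := IsFractionRing.div_surjective (A := R) s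
  have hb0 : b ≠ 0 := nonZeroDivisors.ne_zero hb
  have hI : Ideal.span {b} ≠ ⊥ := by rwa [ne_eq, Ideal.span_singleton_eq_bot]
  have hfin : FiniteMultiplicity P.asIdeal (Ideal.span {b}) :=
    FiniteMultiplicity.of_prime_left P.prime hI
  obtain ⟨J, hJ, hPJ⟩ := hfin.exists_eq_pow_mul_and_not_dvd
  set m := multiplicity P.asIdeal (Ideal.span {b}) with hm
  have hcop : P.asIdeal ^ m ⊔ J = ⊤ := by
    have h1 : P.asIdeal ⊔ J = ⊤ := by
      have hlt : P.asIdeal < P.asIdeal ⊔ J := by
        refine lt_of_le_of_ne le_sup_left fun h => hPJ ?_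
        rw [Ideal.dvd_iff_le, h]
        exact le_sup_right
      exact P.isMaximal.out.2 _ hlt
    have h2 : IsCoprime P.asIdeal J := Ideal.isCoprime_iff_sup_eq.2 h1
    exact Ideal.isCoprime_iff_sup_eq.1 h2.pow_left
  have h1 : (1 : R) ∈ P.asIdeal ^ m ⊔ J := by
    rw [hcop]
    trivial
  obtain ⟨d, hd, c, hc, hdc⟩ := Submodule.mem_sup.1 h1
  have hbK : algebraMap R K b ≠ 0 := by
    rwa [ne_eq, FaithfulSMul.algebraMap_eq_zero_iff]
  have key : ∀ (Q : HeightOneSpectrum R) (x t u : R), x ∉ Q.asIdeal → u * x = b * t →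
      Q.valuation K (algebraMap R K u * (algebraMap R K a / algebraMap R K b)) ≤ 1 := by
    intro Q x t u hx hxt
    have h3 : Q.valuation K (algebraMap R K x) = 1 :=
      (HeightOneSpectrum.valuation_eq_one_iff_notMem Q).2 hx
    have h4 : Q.valuation K (algebraMap R K u * (algebraMap R K a / algebraMap R K b)) =
        Q.valuation K (algebraMap R K (a * t)) := by
      rw [← mul_one (Q.valuation K (algebraMap R K u * (algebraMap R K a / algebraMap R K b))),
        ← h3, ← map_mul]
      congr 1
      have h5 := congrArg (algebraMap R K) hxt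
      rw [map_mul, map_mul] at h5
      rw [map_mul]
      field_simp
      linear_combination algebraMap R K a * h5
    rw [h4]
    exact Q.valuation_le_one _
  have hPm : P.asIdeal ^ m * J ≤ Ideal.span {b} := hJ.ge
  refine ⟨algebraMap R K c * (algebraMap R K a / algebraMap R K b), ?_, ?_⟩
  · have h6 : algebraMap R K c * (algebraMap R K a / algebraMap R K b) -
        algebraMap R K a / algebraMap R K b =
        -(algebraMap R K d * (algebraMap R K a / algebraMap R K b)) := by
      have h7 := congrArg (algebraMap R K) hdc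
      rw [map_add, map_one] at h7
      linear_combination (algebraMap R K a / algebraMap R K b) * h7
    rw [h6, Valuation.map_neg]
    obtain ⟨x, hxJ, hxP⟩ : ∃ x ∈ J, x ∉ P.asIdeal := by
      by_contra hcon
      push Not at hcon
      exact hPJ (Ideal.dvd_iff_le.2 hcon)
    obtain ⟨t, ht⟩ := Ideal.mem_span_singleton'.1 (hPm (Ideal.mul_mem_mul hd hxJ))
    exact key P x t d hxP (by rw [← ht, mul_comm])
  · intro Q hQ
    obtain ⟨x, hxm, hxQ⟩ : ∃ x ∈ P.asIdeal ^ m, x ∉ Q.asIdeal := by
      by_contra hcon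
      push Not at hcon
      have h8 : P.asIdeal ^ m ≤ Q.asIdeal := hcon
      have h9 : P.asIdeal ≤ Q.asIdeal := Q.isPrime.le_of_pow_le h8
      exact hQ (HeightOneSpectrum.ext (P.isMaximal.eq_of_le Q.isPrime.ne_top h9).symm)
    obtain ⟨t, ht⟩ := Ideal.mem_span_singleton'.1 (hPm (Ideal.mul_mem_mul hxm hc))
    exact key Q x t c hxQ (by rw [mul_comm c x, ← ht, mul_comm])

theorem good (hres : ∀ P : Ideal R, P.IsMaximal → ∀ a : R, ∃ b : R, a - b ^ 2 ∈ P)
    (P : HeightOneSpectrum R) : Good (P.valuationSubringAtPrime K) := by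
  constructor
  · exact IsLocalization.AtPrime.isDiscreteValuationRing_of_dedekind_domain R P.ne_bot _
  · intro x
    have hle : ∀ y : P.valuationSubringAtPrime K, P.valuation K (y : K) ≤ 1 := fun y =>
      HeightOneSpectrum.valuationSubringAtPrime_le_valuation P y.2
    obtain ⟨a, ha⟩ := HeightOneSpectrum.exists_valuation_sub_lt_of_integer P (hle x) 1
    obtain ⟨b, hb⟩ := hres P.asIdeal P.isMaximal a
    refine ⟨algebraMap R _ b, ?_⟩
    rw [IsLocalRing.mem_maximalIdeal, mem_nonunits_iff]
    intro hu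
    obtain ⟨z, hz⟩ := isUnit_iff_exists_inv.1 hu
    have hz' := congrArg (fun y : P.valuationSubringAtPrime K => P.valuation K (y : K)) hz
    have h1 : P.valuation K (((x - algebraMap R _ b ^ 2 : P.valuationSubringAtPrime K)) : K) <
        1 := by
      have h2 : (((x - algebraMap R _ b ^ 2 : P.valuationSubringAtPrime K)) : K) =
          (x : K) - (algebraMap R K b) ^ 2 := rfl
      rw [h2, show (x : K) - (algebraMap R K b) ^ 2 = algebraMap R K (a - b ^ 2) -
        (algebraMap R K a - x) by
        rw [map_sub, map_pow]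
        ring]
      refine (Valuation.map_sub _ _ _).trans_lt (max_lt ?_ ha)
      exact (HeightOneSpectrum.valuation_lt_one_iff_mem P _).2 hb
    have h3 : P.valuation K (((x - algebraMap R _ b ^ 2 : P.valuationSubringAtPrime K)) : K) *
        P.valuation K (z : K) = 1 := by
      rw [← map_mul]
      exact hz'.trans (map_one _)
    exact absurd h3 (ne_of_lt (mul_lt_one_of_lt_of_le h1 (hle z)))

theorem step [CharP R 2] (q : K) (P : HeightOneSpectrum R) (s : K)
    (hs : P.valuation K (q - s ^ 2 - s) ≤ 1) :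
    ∃ n : K, P.valuation K (q - n ^ 2 - n) ≤ 1 ∧ ∀ Q : HeightOneSpectrum R, Q ≠ P →
      Q.valuation K q ≤ 1 → Q.valuation K (q - n ^ 2 - n) ≤ 1 := by
  obtain ⟨n, hn, hnQ⟩ := partial_frac P s
  have h2R : (2 : R) = 0 := CharTwo.two_eq_zero
  have h2 : (2 : K) = 0 := by
    have := congrArg (algebraMap R K) h2R
    rwa [map_ofNat, map_zero] at this
  have hle : ∀ (Q : HeightOneSpectrum R) (x y z : K), Q.valuation K x ≤ 1 →
      Q.valuation K y ≤ 1 → Q.valuation K z ≤ 1 → Q.valuation K (x - y ^ 2 - z) ≤ 1 := by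
    intro Q x y z hx hy hz
    refine (Valuation.map_sub _ _ _).trans (max_le ((Valuation.map_sub _ _ _).trans
      (max_le hx ?_)) hz)
    rw [map_pow]
    exact pow_le_one₀ zero_le hy
  refine ⟨n, ?_, ?_⟩
  · rw [show q - n ^ 2 - n = (q - s ^ 2 - s) - (n - s) ^ 2 - (n - s) by
      linear_combination (s ^ 2 - n * s) * h2]
    exact hle P _ _ _ hs hn hn
  · intro Q hQ hq
    exact hle Q _ _ _ hq (hnQ Q hQ) (hnQ Q hQ)

end Fin

theorem fin : StmFin := by
  intro R K _ _ _ _ _ _ _ hres q hq
  have h2R : (2 : R) = 0 := CharTwo.two_eq_zero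
  have h2 : (2 : K) = 0 := by
    have := congrArg (algebraMap R K) h2R
    rwa [map_ofNat, map_zero] at this
  have hall : ∀ (T : Finset (HeightOneSpectrum R)) (q : K),
      (∀ P : HeightOneSpectrum R, ∃ s : K, P.valuation K (q - s ^ 2 - s) ≤ 1) →
      (∀ P : HeightOneSpectrum R, P ∉ T → P.valuation K q ≤ 1) →
      ∃ (r : R) (s : K), q = algebraMap R K r + s ^ 2 + s := by
    classical
    intro T
    induction T using Finset.induction_on with
    | empty =>
      intro q _ hq
      obtain ⟨r, hr⟩ := HeightOneSpectrum.mem_integers_of_valuation_le_one (R := R) K q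
        (fun P => hq P (Finset.notMem_empty P))
      exact ⟨r, 0, by rw [hr]; ring⟩
    | insert P T hPT ih =>
      intro q hs hq
      obtain ⟨s, hs0⟩ := hs P
      obtain ⟨n, hn1, hn2⟩ := Fin.step q P s hs0
      obtain ⟨r, s', hrs⟩ := ih (q - n ^ 2 - n) (fun Q => by
        obtain ⟨u, hu⟩ := hs Q
        refine ⟨u - n, ?_⟩
        rwa [show q - n ^ 2 - n - (u - n) ^ 2 - (u - n) = q - u ^ 2 - u by
          linear_combination (u * n - n ^ 2) * h2]) (fun Q hQ => by
        rcases eq_or_ne Q P with rfl | hne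
        · exact hn1
        · exact hn2 Q hne (hq Q (by
            rw [Finset.mem_insert]
            push Not
            exact ⟨hne, hQ⟩)))
      exact ⟨r, n + s', by linear_combination hrs - n * s' * h2⟩
  refine hall (HeightOneSpectrum.Support.finite R q).toFinset q ?_ ?_
  · intro P
    obtain ⟨f, hf, g, hg⟩ := hq _ (Fin.good hres P)
    refine ⟨g, ?_⟩
    rw [HeightOneSpectrum.valuationSubringAtPrime_eq_valuationSubring] at hf
    rw [show q - g ^ 2 - g = f by rw [hg]; ring]
    exact hf
  · intro P hP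
    rw [Set.Finite.mem_toFinset] at hP
    exact not_lt.1 hP

end W487T
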