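import Pool.Agent.W400.TT.Base

/-!
TT-INF: the place at infinity of the curve `y ^ 2 + x y = x ^ 3 + x`.
-/

set_option autoImplicit false

namespace W487T.Inf

open Polynomial WeierstrassCurve.Affine Classical W487T.CB WithZero Multiplicative

variable {F : Type} [Field F]

/-- the valuation at infinity on the coordinate ring -/
noncomputable def val (r : CR F) : ℤᵐ⁰ := if r = 0 then 0 else exp (pole r : ℤ)

theorem one_ne : (1 : CR F) ≠ 0 := one_ne_zero

theorem pole_one : pole (1 : CR F) = 0 := by
  rw [CB.one_eq, pole_el]
  simp

theorem exp_le_exp' {a b : ℤ} : (exp a : ℤᵐ⁰) ≤ exp b ↔ a ≤ b := exp_le_exp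

variable (F) in
/-- the valuation at infinity on the coordinate ring -/
noncomputable def V0 : Valuation (CR F) ℤᵐ⁰ where
  toFun := val
  map_zero' := if_pos rfl
  map_one' := by
    unfold val
    rw [if_neg one_ne, pole_one]
    simp
  map_mul' a b := by
    unfold val
    by_cases ha : a = 0
    · rw [ha]; simp
    by_cases hb : b = 0
    · rw [hb]; simp
    rw [if_neg (mul_ne_zero ha hb), if_neg ha, if_neg hb, pole_mul ha hb, ← exp_add]
    push_cast
    rfl
  map_add_le_max' a b := by
    unfold val
    by_cases hab : a + b = 0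
    · rw [if_pos hab]
      exact zero_le
    by_cases ha : a = 0
    · rw [ha, zero_add] at hab ⊢
      rw [if_neg hab, if_pos rfl]
      exact le_max_right _ _
    by_cases hb : b = 0
    · rw [hb, add_zero] at hab ⊢
      rw [if_neg hab, if_pos rfl]
      exact le_max_left _ _
    rw [if_neg hab, if_neg ha, if_neg hb]
    rcases le_max_iff.1 (pole_add_le a b) with h | h
    · exact le_max_of_le_left (exp_le_exp.2 (by exact_mod_cast h))
    · exact le_max_of_le_right (exp_le_exp.2 (by exact_mod_cast h))

theorem V0_apply {a : CR F} (ha : a ≠ 0) : V0 F a = exp (pole a : ℤ) := if_neg ha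

theorem V0_eq_zero {a : CR F} : V0 F a = 0 ↔ a = 0 := by
  constructor
  · intro h
    by_contra ha
    rw [V0_apply ha] at h
    exact exp_ne_zero h
  · rintro rfl
    exact map_zero _

theorem hS : nonZeroDivisors (CR F) ≤ (V0 F).supp.primeCompl := by
  intro a ha h
  have : a = 0 := V0_eq_zero.1 h
  exact nonZeroDivisors.ne_zero ha this

variable (F) in
/-- the valuation at infinity on the function field -/
noncomputable def V : Valuation (FF F) ℤᵐ⁰ := (V0 F).extendToLocalization hS (FF F)

theorem V_alg (a : CR F) : V F (algebraMap (CR F) (FF F) a) = V0 F a :=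
  Valuation.extendToLocalization_apply_map_apply _ _ _ _

theorem V_div {a b : CR F} (ha : a ≠ 0) (hb : b ≠ 0) :
    V F (algebraMap (CR F) (FF F) a / algebraMap (CR F) (FF F) b) =
      exp ((pole a : ℤ) - (pole b : ℤ)) := by
  rw [map_div₀, V_alg, V_alg, V0_apply ha, V0_apply hb, exp_sub]

theorem exists_div {z : FF F} (hz : z ≠ 0) : ∃ a b : CR F, a ≠ 0 ∧ b ≠ 0 ∧
    z = algebraMap (CR F) (FF F) a / algebraMap (CR F) (FF F) b := by
  obtain ⟨a, b, hb, rfl⟩ := IsFractionRing.div_surjective (A := CR F) z
  refine ⟨a, b, ?_, nonZeroDivisors.ne_zero hb, rfl⟩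
  rintro rfl
  apply hz
  rw [map_zero, zero_div]

instance : IsCyclic (MonoidWithZeroHom.valueGroup (MonoidWithZeroHom.ofClass (V F))) := inferInstance

theorem rx_ne : rx F ≠ 0 := by
  intro h
  have := pole_rx (F := F)
  rw [h, pole_zero] at this
  omega

instance : Nontrivial (MonoidWithZeroHom.valueGroup (MonoidWithZeroHom.ofClass (V F))) := by
  have h1 : V F (fx F) ≠ 0 := by
    unfold fx
    rw [V_alg, V0_apply rx_ne]
    exact exp_ne_zero
  refine ⟨⟨Units.mk0 _ h1, MonoidWithZeroHom.mem_valueGroup _ ⟨fx F, rfl⟩⟩, 1, ?_⟩
  intro h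
  have h2 : V F (fx F) = 1 := congrArg (fun t => (t.1.1 : ℤᵐ⁰)) h
  unfold fx at h2
  rw [V_alg, V0_apply rx_ne, pole_rx, ← exp_zero] at h2
  have h3 := exp_injective h2
  norm_num at h3

theorem dvr : IsDiscreteValuationRing (V F).valuationSubring := inferInstance

/-- leading terms -/
theorem lead {a b : CR F} (ha : a ≠ 0) (hb : b ≠ 0) (h : pole a = pole b) :
    ∃ c : F, a - rc c * b = 0 ∨ pole (a - rc c * b) < pole b := by
  obtain ⟨p, q, rfl⟩ := exists_el a
  obtain ⟨p', q', rfl⟩ := exists_el b
  have hmul : ∀ c : F, rc c * el p' q' = el (C c * p') (C c * q') := by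
    intro c
    unfold rc el
    rw [← Algebra.smul_def, smul_add, smul_smul, smul_smul]
  rw [pole_el, pole_el] at h
  rcases Nat.even_or_odd (pole (el p' q')) with he | ho
  · -- the leading term comes from `p'`
    have h1 : pole (el p' q') = 2 * p'.natDegree := by
      rw [pole_el] at he ⊢
      split_ifs at he ⊢ with h5
      · omega
      · rcases le_total (2 * p'.natDegree) (2 * q'.natDegree + 3) with h6 | h6
        · rw [max_eq_right h6, Nat.even_iff] at he
          omega
        · exact max_eq_left h6
    have h2 : p.natDegree = p'.natDegree := by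
      rw [pole_el] at h1
      split_ifs at h h1 <;> omega
    have hp' : p' ≠ 0 := by
      rintro rfl
      have h7 : q' = 0 := by
        by_contra h8
        rw [pole_el, if_neg h8] at h1
        simp at h1
      apply hb
      rw [h7]
      unfold el
      simp
    have hq : q = 0 ∨ 2 * q.natDegree + 3 < 2 * p'.natDegree := by
      by_cases h8 : q = 0
      · exact Or.inl h8
      · right
        rw [pole_el] at h1
        rw [if_neg h8] at h
        split_ifs at h h1 <;> omega
    have hq' : q' = 0 ∨ 2 * q'.natDegree + 3 < 2 * p'.natDegree := by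
      by_cases h8 : q' = 0
      · exact Or.inl h8
      · right
        rw [pole_el, if_neg h8] at h1
        omega
    refine ⟨p.leadingCoeff / p'.leadingCoeff, ?_⟩
    rw [hmul, el_sub]
    set c := p.leadingCoeff / p'.leadingCoeff with hc
    have hl : c * p'.leadingCoeff = p.leadingCoeff := by
      rw [hc, div_mul_cancel₀ _ (leadingCoeff_ne_zero.2 hp')]
    by_cases h9 : p - C c * p' = 0 ∧ q - C c * q' = 0
    · left
      rw [h9.1, h9.2]
      unfold el
      simp
    right
    rw [h1, pole_el]
    have h10 : 0 < p'.natDegree := by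
      by_contra h11
      have h12 : p'.natDegree = 0 := by omega
      have h13 : q = 0 := by
        rcases hq with h | h
        · exact h
        · omega
      have h14 : q' = 0 := by
        rcases hq' with h | h
        · exact h
        · omega
      apply h9
      rw [h13, h14, mul_zero, sub_zero]
      refine ⟨?_, rfl⟩
      have h15 := eq_C_of_natDegree_eq_zero h12
      have h16 := eq_C_of_natDegree_eq_zero (h2.trans h12)
      have h17 : p'.leadingCoeff = p'.coeff 0 := by
        unfold leadingCoeff
        rw [h12]
      have h18 : p.leadingCoeff = p.coeff 0 := by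
        unfold leadingCoeff
        rw [h2, h12]
      rw [h17, h18] at hl
      rw [h15, h16, ← C_mul, hl, sub_self]
    have h11 : (p - C c * p').natDegree < p'.natDegree := by
      have h12 : (p - C c * p').natDegree ≤ p'.natDegree := by
        refine (natDegree_sub_le _ _).trans (max_le h2.le ?_)
        exact natDegree_C_mul_le _ _
      refine lt_of_le_of_ne h12 fun h13 => ?_
      have h14 : (p - C c * p').coeff p'.natDegree = 0 := by
        rw [coeff_sub, coeff_C_mul]
        have : p.coeff p'.natDegree = p.leadingCoeff := by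
          unfold leadingCoeff
          rw [h2]
        rw [this, ← hl]
        unfold leadingCoeff
        rw [sub_self]
      rw [← h13] at h14
      have h15 : p - C c * p' = 0 := leadingCoeff_eq_zero.1 h14
      rw [h15, natDegree_zero] at h13
      omega
    apply max_lt
    · omega
    · split_ifs with h12
      · omega
      · have h13 : (q - C c * q').natDegree ≤ max q.natDegree q'.natDegree :=
          (natDegree_sub_le _ _).trans (max_le_max (le_refl _) (natDegree_C_mul_le _ _))
        rcases hq with h14 | h14
        · rcases hq' with h15 | h15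
          · exfalso
            apply h12
            rw [h14, h15]
            simp
          · have h16 : q.natDegree = 0 := by rw [h14, natDegree_zero]
            rcases le_max_iff.1 h13 with h | h <;> omega
        · rcases hq' with h15 | h15
          · have h16 : q'.natDegree = 0 := by rw [h15, natDegree_zero]
            rcases le_max_iff.1 h13 with h | h <;> omega
          · rcases le_max_iff.1 h13 with h | h <;> omega
  · have hq'0 : q' ≠ 0 := by
      rintro rfl
      rw [pole_el, if_pos rfl, Nat.max_zero, Nat.odd_iff] at ho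
      omega
    have h1 : 2 * p'.natDegree < 2 * q'.natDegree + 3 := by
      by_contra h5
      rw [pole_el, if_neg hq'0, max_eq_left (by omega), Nat.odd_iff] at ho
      omega
    have hpol : pole (el p' q') = 2 * q'.natDegree + 3 := by
      rw [pole_el, if_neg hq'0]
      omega
    have hq0 : q ≠ 0 := by
      rintro rfl
      rw [if_pos rfl, if_neg hq'0] at h
      omega
    rw [if_neg hq'0, if_neg hq0] at h
    have h2 : q.natDegree = q'.natDegree := by omega
    have h3 : 2 * p.natDegree < 2 * q'.natDegree + 3 := by omega
    refine ⟨q.leadingCoeff / q'.leadingCoeff, ?_⟩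
    rw [hmul, el_sub]
    set c := q.leadingCoeff / q'.leadingCoeff with hc
    have hl : c * q'.leadingCoeff = q.leadingCoeff := by
      rw [hc, div_mul_cancel₀ _ (leadingCoeff_ne_zero.2 hq'0)]
    right
    rw [hpol, pole_el]
    have hpp : (p - C c * p').natDegree ≤ max p.natDegree p'.natDegree :=
      (natDegree_sub_le _ _).trans (max_le_max (le_refl _) (natDegree_C_mul_le _ _))
    apply max_lt
    · rcases le_max_iff.1 hpp with h | h <;> omega
    split_ifs with h12
    · omega
    have h13 : (q - C c * q').natDegree ≤ q'.natDegree := by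
      refine (natDegree_sub_le _ _).trans (max_le h2.le ?_)
      exact natDegree_C_mul_le _ _
    have h14 : (q - C c * q').natDegree ≠ q'.natDegree := by
      intro h15
      apply h12
      rw [← leadingCoeff_eq_zero]
      unfold leadingCoeff
      rw [h15, coeff_sub, coeff_C_mul]
      have : q.coeff q'.natDegree = q.leadingCoeff := by
        unfold leadingCoeff
        rw [h2]
      rw [this, ← hl]
      unfold leadingCoeff
      rw [sub_self]
    omega

end W487T.Inf

open Polynomial WeierstrassCurve.Affine W487T.CB W487T.Inf WithZero in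
theorem W487T.inf : W487T.StmInf := by
  intro F _ _ _
  have hmem : ∀ (a b : CR F), a ≠ 0 → b ≠ 0 →
      (algebraMap (CR F) (FF F) a / algebraMap (CR F) (FF F) b ∈ (V F).valuationSubring ↔
        pole a ≤ pole b) := by
    intro a b ha hb
    rw [Valuation.mem_valuationSubring_iff, V_div ha hb, ← exp_zero, exp_le_exp]
    omega
  refine ⟨(V F).valuationSubring, ⟨dvr, ?_⟩, hmem⟩
  rintro ⟨z, hz⟩
  by_cases hz0 : z = 0
  · refine ⟨0, ?_⟩
    subst hz0
    have : (⟨0, hz⟩ : (V F).valuationSubring) - 0 ^ 2 = 0 := by
      rw [zero_pow two_ne_zero, sub_zero]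
      rfl
    rw [this]
    exact Ideal.zero_mem _
  obtain ⟨a, b, ha, hb, rfl⟩ := exists_div hz0
  have h1 := (hmem a b ha hb).1 hz
  have hmax : ∀ t : (V F).valuationSubring, V F t.1 < 1 →
      t ∈ IsLocalRing.maximalIdeal (V F).valuationSubring := by
    intro t ht
    rw [IsLocalRing.mem_maximalIdeal, mem_nonunits_iff]
    intro h
    have := (Valuation.Integers.isUnit_iff_valuation_eq_one
      (Valuation.valuationSubring.integers (V F)) (x := t)).1 h
    exact ht.ne this
  rcases h1.lt_or_eq with h2 | h2
  · refine ⟨0, hmax _ ?_⟩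
    rw [zero_pow two_ne_zero, sub_zero]
    change V F (algebraMap (CR F) (FF F) a / algebraMap (CR F) (FF F) b) < 1
    rw [V_div ha hb, ← exp_zero, exp_lt_exp]
    omega
  · obtain ⟨c, hc⟩ := lead ha hb h2
    obtain ⟨e, he⟩ : ∃ e : F, c = e ^ 2 := by
      have := (frobenius_inj F 2)
      obtain ⟨e, he⟩ := (Finite.injective_iff_surjective.1 this) c
      exact ⟨e, he.symm⟩
    have hce : fc e ∈ (V F).valuationSubring := by
      rw [Valuation.mem_valuationSubring_iff]
      unfold fc
      rw [V_alg]
      by_cases h0 : rc e = 0
      · rw [h0, map_zero]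
        exact zero_le
      · rw [V0_apply h0, pole_rc]
        simp
    refine ⟨⟨fc e, hce⟩, hmax _ ?_⟩
    change V F (algebraMap (CR F) (FF F) a / algebraMap (CR F) (FF F) b - fc e ^ 2) < 1
    have hbne : algebraMap (CR F) (FF F) b ≠ 0 := by
      rw [Ne, IsFractionRing.to_map_eq_zero_iff]
      exact hb
    have h3 : algebraMap (CR F) (FF F) a / algebraMap (CR F) (FF F) b - fc e ^ 2 =
        algebraMap (CR F) (FF F) (a - rc c * b) / algebraMap (CR F) (FF F) b := by
      have h4 : fc e ^ 2 = algebraMap (CR F) (FF F) (rc c) := by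
        unfold fc rc
        rw [he, C_pow, map_pow, map_pow]
      rw [h4, map_sub, map_mul]
      field_simp
    rw [h3]
    rcases hc with h5 | h5
    · rw [h5, map_zero, zero_div, map_zero]
      exact zero_lt_one
    · have h6 : a - rc c * b ≠ 0 ∨ a - rc c * b = 0 := (em _).symm
      rcases h6 with h6 | h6
      · rw [V_div h6 hb, ← exp_zero, exp_lt_exp]
        omega
      · rw [h6, map_zero, zero_div, map_zero]
        exact zero_lt_one
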