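import Pool.Agent.W487.T.Inf

/-!
TT-RED: reduction at the place at infinity.
-/

set_option autoImplicit false

namespace W487T.Red

open Polynomial WeierstrassCurve.Affine Classical W487T.CB W487T.Inf WithZero Multiplicative

variable {F : Type} [Field F]

theorem V_exp {z : FF F} (hz : z ≠ 0) : ∃ n : ℤ, V F z = exp n := by
  obtain ⟨a, b, ha, hb, rfl⟩ := exists_div hz
  exact ⟨_, V_div ha hb⟩

/-- parity of the pole of `g ^ 2 + g` -/
theorem parity {f g w : FF F} (hf : V F f ≤ 1) (hw : w = f + g ^ 2 + g) :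
    V F w ≤ 1 ∨ ∃ n : ℤ, 1 ≤ n ∧ V F g = exp n ∧ V F w = exp (2 * n) := by
  by_cases hg : V F g ≤ 1
  · left
    rw [hw]
    refine (Valuation.map_add _ _ _).trans (max_le ((Valuation.map_add _ _ _).trans (max_le hf ?_)) hg)
    rw [map_pow]
    exact pow_le_one' hg 2
  · right
    push Not at hg
    have hg0 : g ≠ 0 := by
      rintro rfl
      rw [map_zero] at hg
      exact absurd hg (not_lt.2 zero_le)
    obtain ⟨n, hn⟩ := V_exp hg0
    rw [hn, ← exp_zero, exp_lt_exp] at hg
    refine ⟨n, by omega, hn, ?_⟩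
    have h2 : V F (g ^ 2) = exp (2 * n) := by
      rw [map_pow, hn, ← exp_nsmul]
      simp
    have h3 : V F (f + g) < V F (g ^ 2) := by
      refine (Valuation.map_add _ _ _).trans_lt (max_lt ?_ ?_)
      · refine hf.trans_lt ?_
        rw [h2, ← exp_zero, exp_lt_exp]
        omega
      · rw [hn, h2, exp_lt_exp]
        omega
    have h4 : w = (f + g) + g ^ 2 := by
      rw [hw]
      ring
    rw [h4, Valuation.map_add_eq_of_lt_right _ h3, h2]

theorem fc_add (a b : F) : (fc (a + b) : FF F) = fc a + fc b := by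
  unfold fc rc
  rw [C_add, map_add, map_add]

theorem fc_mul (a b : F) : (fc (a * b) : FF F) = fc a * fc b := by
  unfold fc rc
  rw [C_mul, map_mul, map_mul]

theorem V_fc_le (e : F) : V F (fc e) ≤ 1 := by
  unfold fc
  rw [V_alg]
  by_cases h0 : rc e = 0
  · rw [h0, map_zero]
    exact zero_le
  · rw [V0_apply h0, pole_rc]
    simp

theorem fc_ne {e : F} (he : e ≠ 0) : (fc e : FF F) ≠ 0 := by
  intro h
  have h1 : (fc (e * e⁻¹) : FF F) = 0 := by rw [fc_mul, h, zero_mul]
  rw [mul_inv_cancel₀ he] at h1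
  unfold fc rc at h1
  rw [C_1, map_one, map_one] at h1
  exact one_ne_zero h1

theorem V_fc {e : F} (he : e ≠ 0) : V F (fc e) = 1 := by
  apply le_antisymm (V_fc_le e)
  have h1 : V F (fc e) * V F (fc e⁻¹) = 1 := by
    rw [← map_mul, ← fc_mul, mul_inv_cancel₀ he]
    unfold fc rc
    rw [C_1, map_one, map_one, map_one]
  calc (1 : ℤᵐ⁰) = V F (fc e) * V F (fc e⁻¹) := h1.symm
    _ ≤ V F (fc e) * 1 := by gcongr; exact V_fc_le _
    _ = V F (fc e) := mul_one _

theorem ry_ne : ry F ≠ 0 := by
  intro h
  have := pole_ry (F := F)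
  rw [h, pole_zero] at this
  omega

theorem fx_ne : fx F ≠ 0 := by
  unfold fx
  rw [Ne, IsFractionRing.to_map_eq_zero_iff]
  exact rx_ne

theorem V_t : V F (fy F / fx F) = exp 1 := by
  unfold fx fy
  rw [V_div ry_ne rx_ne, pole_rx, pole_ry]
  rfl

theorem V_fx : V F (fx F) = exp 2 := by
  unfold fx
  rw [V_alg, V0_apply rx_ne, pole_rx]
  rfl

theorem curve' : fy F ^ 2 + fx F * fy F = fx F ^ 3 + fx F := by
  unfold fx fy
  rw [← map_pow, ← map_mul, ← map_add, curve, map_add, map_pow]

theorem t_eq : (fy F / fx F) ^ 2 + fy F / fx F = fx F + (fx F)⁻¹ := by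
  have h := curve' (F := F)
  have hx := fx_ne (F := F)
  field_simp
  linear_combination h

theorem exists_sq [Finite F] [CharP F 2] (c : F) : ∃ e : F, c = e ^ 2 := by
  have := (frobenius_inj F 2)
  obtain ⟨e, he⟩ := (Finite.injective_iff_surjective.1 this) c
  exact ⟨e, he.symm⟩

theorem rc_sq (e : F) : (rc (e ^ 2) : CR F) = rc e ^ 2 := by
  unfold rc
  rw [C_pow, map_pow]

theorem two_CR [CharP F 2] : (2 : CR F) = 0 := by
  have h : (algebraMap F[X] (CR F)) 2 = 0 := by
    have : (2 : F[X]) = 0 := by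
      have := CharP.cast_eq_zero F[X] 2
      exact_mod_cast this
    rw [this, map_zero]
  rw [← h, map_ofNat]

theorem two_FF [CharP F 2] : (2 : FF F) = 0 := by
  have h : (algebraMap (CR F) (FF F)) 2 = 0 := by
    rw [two_CR, map_zero]
  rw [← h, map_ofNat]

theorem exists_pole (m : ℕ) (hm : m ≠ 1) : ∃ h : CR F, h ≠ 0 ∧ pole h = m := by
  rcases Nat.even_or_odd m with he | ho
  · refine ⟨rx F ^ (m / 2), pow_ne_zero _ rx_ne, ?_⟩
    rw [pole_pow, pole_rx]
    rw [Nat.even_iff] at he
    omega
  · refine ⟨rx F ^ ((m - 3) / 2) * ry F, mul_ne_zero (pow_ne_zero _ rx_ne) ry_ne, ?_⟩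
    rw [pole_mul (pow_ne_zero _ rx_ne) ry_ne, pole_pow, pole_rx, pole_ry]
    rw [Nat.odd_iff] at ho
    omega

/-- the case of a double pole -/
theorem double [Finite F] [CharP F 2] {c d : F} {f g : FF F} (hf : V F f ≤ 1)
    (h : fc c * fx F + fc d = f + g ^ 2 + g) : c ^ 2 = c := by
  obtain ⟨e, he⟩ := exists_sq c
  by_contra hc
  have h2 := two_FF (F := F)
  have hec : e + c ≠ 0 := by
    intro h0
    apply hc
    have h1 : e = c := by
      have : e = -c := by linear_combination h0
      rw [this]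
      exact CharTwo.neg_eq c
    rw [h1] at he
    exact he.symm
  have hce : (fc c : FF F) = fc e ^ 2 := by
    rw [he, pow_two, pow_two, fc_mul]
  have ht := t_eq (F := F)
  have key : fc (e + c) * (fy F / fx F) =
      (f + fc d + fc c * (fx F)⁻¹) + (g + fc e * (fy F / fx F)) ^ 2 +
        (g + fc e * (fy F / fx F)) := by
    rw [fc_add]
    linear_combination h + (-fc c) * ht + (fy F / fx F) ^ 2 * hce +
      (fc c * (fy F / fx F) - fc d - fc c * (fx F)⁻¹ - g * fc e * (fy F / fx F) - fc c * fx F) * h2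
  have h3 : V F (f + fc d + fc c * (fx F)⁻¹) ≤ 1 := by
    refine (Valuation.map_add _ _ _).trans (max_le ((Valuation.map_add _ _ _).trans
      (max_le hf (V_fc_le d))) ?_)
    rw [map_mul, map_inv₀, V_fx, ← exp_neg]
    calc V F (fc c) * exp (-2) ≤ 1 * exp 0 := by
          gcongr
          · exact V_fc_le c
          · rw [exp_le_exp]; omega
      _ = 1 := by rw [exp_zero, one_mul]
  have h4 : V F (fc (e + c) * (fy F / fx F)) = exp 1 := by
    rw [map_mul, V_fc hec, V_t, one_mul]
  rcases parity h3 key with h5 | ⟨n, hn, -, h5⟩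
  · rw [h4, ← exp_zero, exp_le_exp] at h5
    omega
  · rw [h4] at h5
    have := exp_injective h5
    omega

theorem main [Finite F] [CharP F 2] : ∀ (k : ℕ) (r : CR F), pole r = k → ∀ (f g : FF F),
    V F f ≤ 1 → algebraMap (CR F) (FF F) r = f + g ^ 2 + g →
    ∃ (α β : F) (h : CR F), α ^ 2 = α ∧ r = rc α * rx F + rc β + h ^ 2 + h := by
  intro k
  induction k using Nat.strong_induction_on with
  | _ k ih =>
    intro r hr f g hf hfg
    have h2 := two_CR (F := F)
    have h2' := two_FF (F := F)
    by_cases hk : k = 0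
    · obtain ⟨c, hc⟩ := eq_rc_of_pole (hr.trans hk)
      refine ⟨0, c, 0, by simp, ?_⟩
      rw [hc]
      have : (rc (0 : F) : CR F) = 0 := by
        unfold rc
        rw [C_0, map_zero]
      rw [this]
      ring
    have hr0 : r ≠ 0 := by
      rintro rfl
      rw [pole_zero] at hr
      exact hk hr.symm
    rcases parity hf hfg with h5 | ⟨n, hn, -, h5⟩
    · exfalso
      rw [V_alg, V0_apply hr0, ← exp_zero, exp_le_exp] at h5
      omega
    rw [V_alg, V0_apply hr0] at h5
    have h6 := exp_injective h5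
    obtain ⟨m, rfl⟩ : ∃ m : ℕ, n = m := ⟨n.toNat, by omega⟩
    by_cases hm : m = 1
    · -- double pole
      subst hm
      have h7 : pole r = pole (rx F) := by
        rw [pole_rx]
        omega
      obtain ⟨c, hc⟩ := lead hr0 rx_ne h7
      have h8 : pole (r - rc c * rx F) = 0 := by
        rcases hc with h | h
        · rw [h, pole_zero]
        · rw [pole_rx] at h
          have := pole_ne_one (r - rc c * rx F)
          omega
      obtain ⟨d, hd⟩ := eq_rc_of_pole h8
      have h9 : r = rc c * rx F + rc d := by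
        rw [← hd]
        ring
      refine ⟨c, d, 0, ?_, ?_⟩
      · apply double (d := d) (f := f) (g := g) hf
        rw [← hfg, h9]
        unfold fc fx
        rw [map_add, map_mul]
      · rw [h9]
        ring
    · obtain ⟨h0, hh0, hp⟩ := exists_pole (F := F) m hm
      have h7 : pole r = pole (h0 ^ 2) := by
        rw [pole_pow, hp]
        omega
      obtain ⟨c, hc⟩ := lead hr0 (pow_ne_zero 2 hh0) h7
      obtain ⟨e, he⟩ := exists_sq c
      have hlt : pole (r + (rc e * h0) ^ 2 + rc e * h0) < k := by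
        have h8 : r + (rc e * h0) ^ 2 + rc e * h0 = (r - rc c * h0 ^ 2) + rc e * h0 := by
          rw [he, rc_sq]
          linear_combination (rc e * h0) ^ 2 * h2
        rw [h8]
        refine (pole_add_le _ _).trans_lt (max_lt ?_ ?_)
        · rcases hc with h | h
          · rw [h, pole_zero]
            omega
          · rw [← h7, hr] at h
            exact h
        · by_cases h9 : rc e = 0
          · rw [h9, zero_mul, pole_zero]
            omega
          · rw [pole_mul h9 hh0, pole_rc, hp]
            omega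
      obtain ⟨α, β, h, hα, hh⟩ := ih _ hlt (r + (rc e * h0) ^ 2 + rc e * h0) rfl f
        (g + algebraMap (CR F) (FF F) (rc e * h0)) hf (by
          rw [map_add, map_add, map_pow, hfg]
          linear_combination (-g * algebraMap (CR F) (FF F) (rc e * h0)) * h2')
      refine ⟨α, β, h + rc e * h0, hα, ?_⟩
      linear_combination hh - (rc e * h0) * h2 - (rc e * h0) ^ 2 * h2 - h * (rc e * h0) * h2

end W487T.Red

open W487T.Inf W487T.CB in
theorem W487T.red : W487T.StmRed := by
  intro F _ _ _ v hv hmem r f g hf hfg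
  refine W487T.Red.main _ r rfl f g ?_ hfg
  by_cases h0 : f = 0
  · rw [h0, map_zero]
    exact zero_le
  obtain ⟨a, b, ha, hb, rfl⟩ := exists_div h0
  have h1 := (hmem a b ha hb).1 hf
  rw [V_div ha hb, ← WithZero.exp_zero, WithZero.exp_le_exp]
  omega
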