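import Pool.Agent.W400.TT.Base

set_option autoImplicit false

namespace W487T.Res

open Polynomial W487T.CB

theorem _root_.W487T.res : StmRes := by
  intro F _ _ _ P hP a
  let fld : Field (CR F ⧸ P) := Ideal.Quotient.field P
  have hf : Finite (CR F ⧸ P) := by
    have h1 : Algebra.FiniteType F (CR F) := inferInstance
    have h3 : Algebra.FiniteType F (CR F ⧸ P) := inferInstance
    have h2 : Module.Finite F (CR F ⧸ P) := finite_of_finite_type_of_isJacobsonRing F (CR F ⧸ P)
    exact Module.finite_of_finite F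
  have hc : CharP (CR F ⧸ P) 2 :=
    charP_of_injective_algebraMap (algebraMap F (CR F ⧸ P)).injective 2
  have hinj : Function.Injective fun x : CR F ⧸ P => x ^ 2 := by
    intro x y hxy
    have h1 : (x + y) ^ 2 = 0 := by
      have h2 : x ^ 2 = y ^ 2 := hxy
      have h3 := CharTwo.add_self_eq_zero (y ^ 2)
      have h4 := CharTwo.add_self_eq_zero (x * y)
      linear_combination h2 + h3 + h4
    have h2 : x + y = 0 := pow_eq_zero_iff (two_ne_zero) |>.1 h1
    rw [← CharTwo.sub_eq_add] at h2
    exact sub_eq_zero.1 h2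
  obtain ⟨b', hb'⟩ := (Finite.injective_iff_surjective.1 hinj) (Ideal.Quotient.mk P a)
  obtain ⟨b, rfl⟩ := Ideal.Quotient.mk_surjective b'
  refine ⟨b, ?_⟩
  rw [← Ideal.Quotient.eq_zero_iff_mem, map_sub, map_pow]
  have : (Ideal.Quotient.mk P b) ^ 2 = Ideal.Quotient.mk P a := hb'
  rw [this, sub_self]

end W487T.Res
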