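import Pool.Agent.W487.T.Red
import Pool.Agent.W487.T.Ded

/-!
TT-SIG: the contradiction with the conjugation of the constants.
-/

set_option autoImplicit false

namespace W487T.Sig

open Polynomial WeierstrassCurve.Affine Classical W487T.CB W487T.Ded W487T.Red

variable (F : Type) [Field F] [CharP F 2]

/-- frobenius on the constants -/
noncomputable def i0 : F[X] →+* CR F :=
  (algebraMap F[X] (CR F)).comp (mapRingHom (frobenius F 2))

theorem i0_apply (p : F[X]) : i0 F p = algebraMap F[X] (CR F) (p.map (frobenius F 2)) := rfl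

theorem eval_s : (Crv F).polynomial.eval₂ (i0 F) (ry F) = 0 := by
  refine (congrArg (fun P => eval₂ (i0 F) (ry F) P) (poly_eq F)).trans ?_
  simp only [eval₂_sub, eval₂_add, eval₂_mul, eval₂_pow, eval₂_X, eval₂_C, map_add, map_pow]
  have h1 := curve (F := F)
  have h2 : i0 F X = rx F := by
    rw [i0_apply, map_X]
    rfl
  rw [h2]
  linear_combination h1

/-- frobenius on the constants, on the coordinate ring -/
noncomputable def s0 : CR F →+* CR F := AdjoinRoot.lift (i0 F) (ry F) (eval_s F)

theorem s0_alg (p : F[X]) : s0 F (algebraMap F[X] (CR F) p) =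
    algebraMap F[X] (CR F) (p.map (frobenius F 2)) := AdjoinRoot.lift_of (eval_s F)

theorem s0_ry : s0 F (ry F) = ry F := AdjoinRoot.lift_root (eval_s F)

theorem s0_rx : s0 F (rx F) = rx F := by
  unfold rx
  rw [s0_alg, map_X]

theorem s0_rc (a : F) : s0 F (rc a) = rc (a ^ 2) := by
  unfold rc
  rw [s0_alg, map_C]
  rfl

theorem s0_el (p q : F[X]) : s0 F (el p q) =
    el (p.map (frobenius F 2)) (q.map (frobenius F 2)) := by
  unfold el
  simp only [Algebra.smul_def, mul_one, map_add, map_mul, s0_alg, s0_ry]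

theorem s0_inj : Function.Injective (s0 F) := by
  rw [injective_iff_map_eq_zero]
  intro a ha
  obtain ⟨p, q, rfl⟩ := exists_el a
  rw [s0_el] at ha
  obtain ⟨h1, h2⟩ := el_eq_zero ha
  have hf : Function.Injective (frobenius F 2) := frobenius_inj F 2
  rw [Polynomial.map_eq_zero_iff hf] at h1 h2
  rw [h1, h2]
  unfold el
  simp

/-- frobenius on the constants, on the function field -/
noncomputable def sF : FF F →+* FF F :=
  IsFractionRing.lift (A := CR F) (g := (algebraMap (CR F) (FF F)).comp (s0 F))
    ((IsFractionRing.injective (CR F) (FF F)).comp (s0_inj F))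

theorem sF_alg (a : CR F) : sF F (algebraMap (CR F) (FF F) a) =
    algebraMap (CR F) (FF F) (s0 F a) := by
  unfold sF
  rw [IsFractionRing.lift_algebraMap]
  rfl

theorem sF_fx : sF F (fx F) = fx F := by
  unfold fx
  rw [sF_alg, s0_rx]

theorem sF_fy : sF F (fy F) = fy F := by
  unfold fy
  rw [sF_alg, s0_ry]

theorem sF_fc (a : F) : sF F (fc a) = fc (a ^ 2) := by
  unfold fc
  rw [sF_alg, s0_rc]

theorem sF_q (q : FF F) (hq : q ∈ Subfield.closure {fx F, fy F}) : sF F q = q := by
  have h : Subfield.closure {fx F, fy F} ≤ (sF F).eqLocusField (RingHom.id (FF F)) := by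
    rw [Subfield.closure_le]
    rintro z (rfl | rfl)
    · exact sF_fx F
    · exact sF_fy F
  exact h hq

end W487T.Sig

open W487T.CB W487T.Ded W487T.Red W487T.Sig in
theorem W487T.sig : W487T.StmSig := by
  intro F _ _ _ ω hω _ _ q hq α β g hα h
  have h2 := two_FF (F := F)
  have h1 : q + fc (ω ^ 2) * fx F = fc (α ^ 2) * fx F + fc (β ^ 2) + sF F g ^ 2 + sF F g := by
    have := congrArg (sF F) h
    simpa only [map_add, map_mul, map_pow, sF_fx, sF_fc, sF_q F q hq] using this
  rw [hα] at h1
  have hωω : (fc ω : FF F) + fc (ω ^ 2) = 1 := by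
    rw [← fc_add]
    have : ω + ω ^ 2 = 1 := by
      have h3 : (2 : F) = 0 := by exact_mod_cast CharP.cast_eq_zero F 2
      linear_combination hω - h3
    rw [this]
    unfold fc rc
    rw [Polynomial.C_1, map_one, map_one]
  have h3 : (g + sF F g) ^ 2 + (g + sF F g) =
      algebraMap (CR F) (FF F) (rx F + rc (β + β ^ 2)) := by
    have h4 : algebraMap (CR F) (FF F) (rx F + rc (β + β ^ 2)) = fx F + (fc β + fc (β ^ 2)) := by
      rw [map_add, ← fc_add]
      rfl
    rw [h4]
    linear_combination h + h1 - fx F * hωω + (g ^ 2 + (sF F g) ^ 2 + g + sF F g + g * sF F g -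
      q - fx F + fc α * fx F) * h2
  have hint : IsIntegral (CR F) (g + sF F g) := by
    refine ⟨Polynomial.X ^ 2 + Polynomial.X - Polynomial.C (rx F + rc (β + β ^ 2)), ?_, ?_⟩
    · have : (Polynomial.X ^ 2 + Polynomial.X - Polynomial.C (rx F + rc (β + β ^ 2)) :
          Polynomial (CR F)) = Polynomial.X ^ 2 + (Polynomial.X -
            Polynomial.C (rx F + rc (β + β ^ 2))) := by ring
      rw [this]
      apply Polynomial.monic_X_pow_add
      refine (Polynomial.degree_sub_le _ _).trans_lt (max_lt ?_ ?_)
      · rw [Polynomial.degree_X]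
        norm_num
      · refine (Polynomial.degree_C_le).trans_lt ?_
        norm_num
    · rw [Polynomial.eval₂_sub, Polynomial.eval₂_add, Polynomial.eval₂_pow, Polynomial.eval₂_X,
        Polynomial.eval₂_C, h3, sub_self]
  obtain ⟨H, hH⟩ := int_closed F _ hint
  rw [← hH, ← map_pow, ← map_add] at h3
  have h4 := IsFractionRing.injective (CR F) (FF F) h3
  have h5 : pole (rx F + rc (β + β ^ 2)) = 2 := by
    rw [add_comm, pole_add_of_lt, pole_rx]
    rw [pole_rx, pole_rc]
    norm_num
  rw [← h4] at h5
  have h6 := pole_ne_one H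
  by_cases h7 : pole H = 0
  · have := pole_add_le (H ^ 2) H
    rw [pole_pow, h7] at this
    simp at this
    omega
  · have h8 : pole (H + H ^ 2) = pole (H ^ 2) := by
      apply pole_add_of_lt
      rw [pole_pow]
      omega
    rw [add_comm, h8, pole_pow] at h5
    omega
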