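import Mathlib
import Pool.Agent.W487.T.Stm
import Pool.Agent.W487.T.Ded
import Pool.Agent.W487.T.Res
import Pool.Agent.W487.T.Fin
import Pool.Agent.W487.T.Inf
import Pool.Agent.W487.T.Red
import Pool.Agent.W487.T.Sig

open Polynomial

noncomputable section

namespace W487T

theorem core : StmCore := by
  intro F _ _ _ ω hω hF q hq hv
  have hD : IsDedekindDomain (CR F) := ded F
  have h2 : CharP (CR F) 2 := by
    have : Function.Injective (algebraMap F[X] (CR F)) :=
      FaithfulSMul.algebraMap_injective F[X] (CR F)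
    exact charP_of_injective_algebraMap this 2
  obtain ⟨r, s, hrs⟩ := fin (CR F) (FF F) (res F) (q + fc ω * fx F) hv
  obtain ⟨v, hg, hpole⟩ := inf F
  obtain ⟨f, hf, g, hfg⟩ := hv v hg
  have h3 : CharP (FF F) 2 :=
    charP_of_injective_algebraMap (FaithfulSMul.algebraMap_injective (CR F) (FF F)) 2
  have h4 : (2 : FF F) = 0 := CharTwo.two_eq_zero
  have h5 : algebraMap (CR F) (FF F) r = f + (g + s) ^ 2 + (g + s) := by
    linear_combination hfg - hrs - (g * s + s ^ 2 + s) * h4
  obtain ⟨α, β, h, hα, hr⟩ := red F v hg hpole r f (g + s) hf h5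
  refine sig F ω hω hF hD q hq α β (algebraMap (CR F) (FF F) h + s) hα ?_
  rw [hrs, hr]
  simp only [map_add, map_mul, map_pow]
  have e1 : algebraMap (CR F) (FF F) (rc α) = fc α := rfl
  have e2 : algebraMap (CR F) (FF F) (rc β) = fc β := rfl
  have e3 : algebraMap (CR F) (FF F) (rx F) = fx F := rfl
  rw [e1, e2, e3]
  linear_combination (-(algebraMap (CR F) (FF F) h) * s) * h4

end W487T
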