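import Mathlib
import Pool.Agent.W487.T.Stm2

/-!
The kernel of `a ↦ a ^ 2 + a` on the structure sheaf is the constant sheaf with two elements.
-/

open CategoryTheory Limits AlgebraicGeometry Opposite

noncomputable section

namespace W487T

namespace Cst

lemma isUnit_of_basicOpen_eq_top {X : Scheme.{0}} (g : Γ(X, ⊤)) (h : X.basicOpen g = ⊤) :
    IsUnit g := by
  have key : ∀ (V : X.Opens) (i : V ⟶ ⊤), V = ⊤ → IsUnit (X.presheaf.map i.op g) → IsUnit g := by
    intro V i hV hu
    subst hV
    have hi : i = 𝟙 _ := Subsingleton.elim _ _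
    subst hi
    rw [op_id, X.presheaf.map_id] at hu
    exact hu
  exact key _ (homOfLE (X.basicOpen_le g)) h (RingedSpace.isUnit_res_basicOpen _ g)

lemma isUnit_ι_basicOpen {X : Scheme.{0}} (g : Γ(X, ⊤)) :
    IsUnit ((X.basicOpen g).ι.appTop.hom g) := by
  apply isUnit_of_basicOpen_eq_top
  have h := Scheme.preimage_basicOpen_top (X.basicOpen g).ι g
  exact h.symm.trans (Scheme.Opens.ι_preimage_self _)

variable {Y : Scheme.{0}}

/-- the additive map `ZMod 2 → R` in characteristic two -/
def zm (R : Type) [CommRing R] (h2 : (2 : R) = 0) : ZMod 2 →+ R :=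
  ZMod.lift 2 ⟨Int.castAddHom R, by simpa using h2⟩

lemma zm_one (R : Type) [CommRing R] (h2 : (2 : R) = 0) : zm R h2 1 = 1 := by
  have := ZMod.lift_coe 2 (⟨Int.castAddHom R, by simpa using h2⟩ :
    { f : ℤ →+ R // f 2 = 0 }) 1
  simpa [zm] using this

lemma zero_one (n : ZMod 2) : n = 0 ∨ n = 1 := by
  fin_cases n
  · left; rfl
  · right; rfl

lemma zm_zero (R : Type) [CommRing R] (h2 : (2 : R) = 0) : zm R h2 0 = 0 := map_zero _

lemma zm_map {R R' : Type} [CommRing R] [CommRing R'] (h2 : (2 : R) = 0) (h2' : (2 : R') = 0)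
    (f : R →+* R') (n : ZMod 2) : f (zm R h2 n) = zm R' h2' n := by
  fin_cases n
  · change f (zm R h2 0) = zm R' h2' 0
    rw [zm_zero, zm_zero, map_zero]
  · change f (zm R h2 1) = zm R' h2' 1
    rw [zm_one, zm_one, map_one]

/-- the constant presheaf -/
abbrev PP (Y : Scheme.{0}) : Y.Etaleᵒᵖ ⥤ AddCommGrpCat.{1} :=
  (Functor.const _).obj (AddCommGrpCat.of (ULift.{1} (ZMod 2)))

/-- the additive map on sections -/
def cHom (h2 : (2 : Γ(Y, ⊤)) = 0) (U : Y.Etale) :
    ULift.{1} (ZMod 2) →+ (gaEt Y).obj (op U) where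
  toFun n := up (zm _ (two_zero h2 U) n.down)
  map_zero' := by
    apply dn_inj
    exact zm_zero _ _
  map_add' a b := by
    apply dn_inj
    exact map_add (zm _ (two_zero h2 U)) a.down b.down

/-- the map from the constant presheaf to the structure sheaf -/
def cMap (h2 : (2 : Γ(Y, ⊤)) = 0) : PP Y ⟶ gaEt Y where
  app U := AddCommGrpCat.ofHom (cHom h2 U.unop)
  naturality U V f := by
    ext a
    apply dn_inj (U := V.unop)
    exact (zm_map (two_zero h2 U.unop) (two_zero h2 V.unop) f.unop.left.appTop.hom a.down).symm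

lemma cMap_dn (h2 : (2 : Γ(Y, ⊤)) = 0) (U : Y.Etale) (n : ULift.{1} (ZMod 2)) :
    dn ((cMap h2).app (op U) n) = zm _ (two_zero h2 U) n.down := rfl

variable (J : GrothendieckTopology Y.Etale) (hJ : J ≤ Y.smallEtaleTopology)
  (h2 : (2 : Γ(Y, ⊤)) = 0)

/-- the map from the constant sheaf to the structure sheaf -/
def phi0 : (presheafToSheaf J AddCommGrpCat.{1}).obj (PP Y) ⟶ Gs J hJ :=
  ((sheafificationAdjunction J _).homEquiv _ _).symm (cMap h2)

lemma toSheafify_phi0 : toSheafify J (PP Y) ≫ (phi0 J hJ h2).hom = cMap h2 := by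
  exact ((sheafificationAdjunction J _).homEquiv _ (Gs J hJ)).apply_symm_apply (cMap h2)

lemma wp_dn (U : Y.Etale) (a : (gaEt Y).obj (op U)) :
    dn ((wpS J hJ h2).hom.app (op U) a) = dn a ^ 2 + dn a := rfl

lemma phi0_wp : phi0 J hJ h2 ≫ wpS J hJ h2 = 0 := by
  apply ((sheafificationAdjunction J AddCommGrpCat.{1}).homEquiv (PP Y) (Gs J hJ)).injective
  have h1 : ∀ f : (presheafToSheaf J AddCommGrpCat.{1}).obj (PP Y) ⟶ Gs J hJ,
    (sheafificationAdjunction J AddCommGrpCat.{1}).homEquiv (PP Y) (Gs J hJ) f =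
      toSheafify J (PP Y) ≫ f.hom := fun f => rfl
  rw [h1, h1]
  have h3 : toSheafify J (PP Y) ≫ (phi0 J hJ h2 ≫ wpS J hJ h2).hom =
      cMap h2 ≫ (wpS J hJ h2).hom :=
    (Category.assoc _ _ _).symm.trans
      (congrArg (· ≫ (wpS J hJ h2).hom) (toSheafify_phi0 J hJ h2))
  rw [h3]
  ext U a
  apply dn_inj (U := U.unop)
  obtain ⟨n⟩ := a
  have hU := two_zero h2 U.unop
  have key : (zm Γ(U.unop.left, ⊤) hU n) ^ 2 + zm Γ(U.unop.left, ⊤) hU n = 0 := by
    rcases zero_one n with rfl | rfl
    · rw [zm_zero]; ring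
    · rw [zm_one]
      linear_combination hU
  exact key

/-- the map from the constant presheaf to the kernel -/
def cK : PP Y ⟶ (kernel (wpS J hJ h2)).obj :=
  toSheafify J (PP Y) ≫ (kernel.lift (wpS J hJ h2) (phi0 J hJ h2) (phi0_wp J hJ h2)).hom

lemma cK_ι : cK J hJ h2 ≫ (kernel.ι (wpS J hJ h2)).hom = cMap h2 := by
  have h := kernel.lift_ι (wpS J hJ h2) (phi0 J hJ h2) (phi0_wp J hJ h2)
  have h' := congrArg (fun f => f.hom) h
  refine Eq.trans ?_ (toSheafify_phi0 J hJ h2)
  refine Eq.trans ?_ (congrArg (toSheafify J (PP Y) ≫ ·) h')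
  exact Category.assoc _ _ _

lemma cK_ι_app (U : Y.Etale) (n : ULift.{1} (ZMod 2)) :
    (kernel.ι (wpS J hJ h2)).hom.app (op U) ((cK J hJ h2).app (op U) n) =
      (cMap h2).app (op U) n := by
  have h := congr(($(cK_ι J hJ h2)).app (op U) n)
  exact h

/-- an open subscheme as an object of the small etale site -/
def opn (U : Y.Etale) (V : U.left.Opens) : Y.Etale :=
  MorphismProperty.Over.mk ⊤ (V.ι ≫ U.hom) (by
    have : Etale U.hom := U.prop
    infer_instance)

/-- the inclusion -/
def opnι (U : Y.Etale) (V : U.left.Opens) : opn U V ⟶ U :=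
  MorphismProperty.Over.homMk V.ι rfl

lemma opnι_left (U : Y.Etale) (V : U.left.Opens) : (opnι U V).left = V.ι := rfl

end Cst

open Cst

theorem cst : StmCst := by
  intro Y h2 J hJ hloc
  have hinj : Presheaf.IsLocallyInjective J (cK J hJ h2) := by
    refine ⟨fun {X} x y h => ?_⟩
    obtain ⟨U⟩ := X
    have h1 : (cMap h2).app (op U) x = (cMap h2).app (op U) y := by
      rw [← cK_ι_app J hJ h2 U x, ← cK_ι_app J hJ h2 U y]
      exact congrArg _ h
    have h3 : zm Γ(U.left, ⊤) (two_zero h2 U) x.down = zm Γ(U.left, ⊤) (two_zero h2 U) y.down :=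
      congrArg (dn (U := U)) h1
    by_cases hxy : x = y
    · subst hxy
      rw [Presheaf.equalizerSieve_self_eq_top]
      exact J.top_mem _
    · apply hloc
      intro u
      exfalso
      have h10 : (1 : Γ(U.left, ⊤)) = 0 := by
        have hd : x.down ≠ y.down := fun h => hxy (ULift.ext _ _ h)
        rcases zero_one x.down with h4 | h4 <;> rcases zero_one y.down with h5 | h5
        · exact absurd (h4.trans h5.symm) hd
        · rw [h4, h5, zm_zero, zm_one] at h3; exact h3.symm
        · rw [h4, h5, zm_zero, zm_one] at h3; exact h3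
        · exact absurd (h4.trans h5.symm) hd
      have hb : U.left.basicOpen (1 : Γ(U.left, ⊤)) = ⊤ := by
        exact Scheme.basicOpen_of_isUnit _ isUnit_one
      have hb0 : U.left.basicOpen (0 : Γ(U.left, ⊤)) = ⊥ := Scheme.basicOpen_zero _ _
      rw [h10, hb0] at hb
      have : u ∈ (⊥ : U.left.Opens) := by rw [hb]; trivial
      exact this
  have hsur : Presheaf.IsLocallySurjective J (cK J hJ h2) := by
    refine ⟨fun {U} s => ?_⟩
    set f : Γ(U.left, ⊤) := dn ((kernel.ι (wpS J hJ h2)).hom.app (op U) s) with hf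
    have hff : f ^ 2 + f = 0 := by
      have h := congr(($(kernel.condition (wpS J hJ h2))).hom.app (op U) s)
      have h' : dn ((wpS J hJ h2).hom.app (op U) ((kernel.ι (wpS J hJ h2)).hom.app (op U) s)) =
        dn (0 : (gaEt Y).obj (op U)) := congrArg dn h
      rw [wp_dn, dn_zero] at h'
      exact h'
    have hU2 := two_zero h2 U
    -- a local criterion
    have hcrit : ∀ (W : Y.Etale) (i : W ⟶ U) (n : ZMod 2),
        i.left.appTop.hom f = zm _ (two_zero h2 W) n →
        Presheaf.imageSieve (cK J hJ h2) s i := by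
      intro W i n hn
      refine ⟨ULift.up n, ?_⟩
      apply Pool.Agent.W487.sec_inj_of_mono (kernel.ι (wpS J hJ h2))
      have e1 := cK_ι_app J hJ h2 W (ULift.up n)
      refine e1.trans ?_
      have e2 := congr($((kernel.ι (wpS J hJ h2)).hom.naturality i.op) s)
      refine Eq.trans ?_ e2.symm
      apply dn_inj
      rw [cMap_dn]
      exact hn.symm
    apply hloc
    intro u
    have hcov : u ∈ U.left.basicOpen f ∨ u ∈ U.left.basicOpen (1 + f) := by
      rw [Scheme.mem_basicOpen_top, Scheme.mem_basicOpen_top]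
      have hsum : U.left.presheaf.germ ⊤ u trivial f + U.left.presheaf.germ ⊤ u trivial (1 + f) = 1 := by
        rw [← map_add, show f + (1 + f) = 1 by linear_combination f * hU2, map_one]
      by_contra hcon
      push Not at hcon
      have := IsLocalRing.isUnit_or_isUnit_of_add_one hsum
      tauto
    rcases hcov with hu | hu
    · refine ⟨opn U (U.left.basicOpen f), opnι U _, ⟨u, hu⟩, ?_, ?_, ?_⟩
      · apply hcrit _ _ 1
        rw [zm_one]
        have hunit := isUnit_ι_basicOpen f
        change (U.left.basicOpen f).ι.appTop.hom f = 1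
        have h4 : (U.left.basicOpen f).ι.appTop.hom f ^ 2 + (U.left.basicOpen f).ι.appTop.hom f = 0 := by
          rw [← map_pow, ← map_add, hff, map_zero]
        have h5 : (U.left.basicOpen f).ι.appTop.hom f *
          ((U.left.basicOpen f).ι.appTop.hom f + 1) = 0 := by linear_combination h4
        have h6 := hunit.mul_right_eq_zero.mp h5
        have h7 : (2 : Γ((U.left.basicOpen f).toScheme, ⊤)) = 0 := two_zero h2 (opn U (U.left.basicOpen f))
        linear_combination h6 - h7
      · exact (inferInstance : IsOpenImmersion (Scheme.Opens.ι _))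
      · rfl
    · refine ⟨opn U (U.left.basicOpen (1 + f)), opnι U _, ⟨u, hu⟩, ?_, ?_, ?_⟩
      · apply hcrit _ _ 0
        rw [zm_zero]
        have hunit := isUnit_ι_basicOpen (1 + f)
        change (U.left.basicOpen (1 + f)).ι.appTop.hom f = 0
        have h4 : (U.left.basicOpen (1 + f)).ι.appTop.hom (1 + f) *
          (U.left.basicOpen (1 + f)).ι.appTop.hom f = 0 := by
          rw [← map_mul, show (1 + f) * f = f ^ 2 + f by ring, hff, map_zero]
        exact hunit.mul_right_eq_zero.mp h4
      · exact (inferInstance : IsOpenImmersion (Scheme.Opens.ι _))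
      · rfl
  have hW : J.W (cK J hJ h2) := (J.W_iff_isLocallyBijective _).2 ⟨hinj, hsur⟩
  have hiso : IsIso ((presheafToSheaf J AddCommGrpCat.{1}).map (cK J hJ h2)) := (J.W_iff _).1 hW
  exact ⟨(asIso ((sheafificationAdjunction J AddCommGrpCat.{1}).counit.app
    (kernel (wpS J hJ h2)))).symm ≪≫
    (asIso ((presheafToSheaf J AddCommGrpCat.{1}).map (cK J hJ h2))).symm⟩

end W487T
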