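import Pool.Agent.W487.T.Stm2
import Pool.Agent.W400.TT.Base

set_option autoImplicit false
set_option linter.all false

namespace W487T.Data

open Polynomial W487T.CB

/-- the Laurent polynomials over the two-adic integers -/
abbrev R0 : Type := Localization.Away (X : ℤ_[2][X])

noncomputable def x0 : R0 := algebraMap ℤ_[2][X] R0 X

noncomputable def xi0 : R0 := IsLocalization.Away.invSelf (X : ℤ_[2][X])

theorem x0_mul : x0 * xi0 = 1 := IsLocalization.Away.mul_invSelf (X : ℤ_[2][X])

noncomputable def P : StandardEtalePair R0 where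
  f := X ^ 2 + X - C (x0 + xi0)
  monic_f := by
    have : (X ^ 2 + X - C (x0 + xi0) : R0[X]) = X ^ 2 + (X - C (x0 + xi0)) := by ring
    rw [this]
    apply monic_X_pow_add
    exact lt_of_le_of_lt (degree_X_sub_C_le _) (by norm_num)
  g := derivative (X ^ 2 + X - C (x0 + xi0))
  cond := ⟨1, 0, 1, by ring⟩

theorem P_f : P.f = X ^ 2 + X - C (x0 + xi0) := rfl

theorem P_g : P.g = derivative (X ^ 2 + X - C (x0 + xi0)) := rfl

instance smR0 : Algebra.Smooth ℤ_[2] R0 := by
  haveI : Algebra.Smooth ℤ_[2][X] R0 := Algebra.Smooth.of_isLocalization_Away (X : ℤ_[2][X])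
  haveI : Algebra.Smooth ℤ_[2] ℤ_[2][X] := { }
  exact Algebra.Smooth.comp ℤ_[2] ℤ_[2][X] R0

noncomputable instance algB : Algebra ℤ_[2] P.Ring :=
  ((algebraMap R0 P.Ring).comp (algebraMap ℤ_[2] R0)).toAlgebra

instance towB : IsScalarTower ℤ_[2] R0 P.Ring := IsScalarTower.of_algebraMap_eq' rfl

instance smB : Algebra.Smooth ℤ_[2] P.Ring := Algebra.Smooth.comp ℤ_[2] R0 P.Ring

section
variable (F : Type) [Field F] [CharP F 2]

theorem charFF : CharP (FF F) 2 := by
  haveI : CharP (CR F) 2 :=
    charP_of_injective_algebraMap (FaithfulSMul.algebraMap_injective F[X] (CR F)) 2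
  exact charP_of_injective_algebraMap (IsFractionRing.injective (CR F) (FF F)) 2

omit [CharP F 2] in
theorem fx_ne : fx F ≠ 0 := by
  unfold fx rx
  rw [Ne, IsFractionRing.to_map_eq_zero_iff, map_eq_zero_iff _ (FaithfulSMul.algebraMap_injective F[X] (CR F))]
  exact X_ne_zero

omit [CharP F 2] in
theorem fcurve : fy F ^ 2 + fx F * fy F = fx F ^ 3 + fx F := by
  have h := congrArg (algebraMap (CR F) (FF F)) (curve (F := F))
  simpa only [map_add, map_mul, map_pow, ← fx.eq_1, ← fy.eq_1] using h

/-- the image field -/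
noncomputable abbrev K : Subfield (FF F) := Subfield.closure {fx F, fy F}

noncomputable def kx : K F := ⟨fx F, Subfield.subset_closure (by simp)⟩

noncomputable def ky : K F := ⟨fy F, Subfield.subset_closure (by simp)⟩

omit [CharP F 2] in
theorem kx_ne : kx F ≠ 0 := fun h => fx_ne F (congrArg Subtype.val h)

theorem charK : CharP (K F) 2 := by
  haveI := charFF F
  exact (RingHom.charP_iff (K F).subtype (K F).subtype.injective 2).2 inferInstance

noncomputable def h0 : ℤ_[2] →+* K F :=
  haveI := charK F
  (ZMod.castHom (dvd_refl 2) (K F)).comp PadicInt.toZMod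

noncomputable def h1 : ℤ_[2][X] →+* K F := eval₂RingHom (h0 F) (kx F)

theorem h1_X : h1 F X = kx F := by simp [h1]

noncomputable def h2 : R0 →+* K F :=
  IsLocalization.Away.lift (X : ℤ_[2][X]) (g := h1 F) (by rw [h1_X]; exact (kx_ne F).isUnit)

theorem h2_x : h2 F x0 = kx F := by
  unfold h2 x0
  rw [IsLocalization.Away.lift_eq, h1_X]

theorem h2_xi : h2 F xi0 = (kx F)⁻¹ := by
  have := congrArg (h2 F) x0_mul
  rw [map_mul, map_one, h2_x] at this
  exact eq_inv_of_mul_eq_one_right this

theorem keq : (ky F / kx F) ^ 2 + ky F / kx F - (kx F + (kx F)⁻¹) = 0 := by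
  have h : ky F ^ 2 + kx F * ky F = kx F ^ 3 + kx F := Subtype.ext (fcurve F)
  have h' := kx_ne F
  field_simp
  linear_combination h

end

end W487T.Data

namespace W487T

open Polynomial W487T.Data

theorem data : StmData := by
  intro F _ _
  letI : Algebra R0 (K F) := (h2 F).toAlgebra
  haveI := charK F
  have hm : P.HasMap (ky F / kx F) := by
    refine ⟨?_, ?_⟩
    · have := keq F
      rw [P_f, map_sub, map_add, map_pow, aeval_X, aeval_C]
      change (ky F / kx F) ^ 2 + ky F / kx F - h2 F (x0 + xi0) = 0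
      rw [map_add, h2_x, h2_xi]
      exact this
    · have h5 : aeval (ky F / kx F) P.g = 1 := by
        have h6 : (algebraMap R0 (K F)) 2 = 0 := by
          rw [map_ofNat]
          exact CharTwo.two_eq_zero
        rw [P_g]
        simp only [derivative_sub, derivative_add, derivative_X_pow, derivative_X, derivative_C]
        simp only [map_sub, map_add, map_mul, map_one, aeval_X, aeval_C, map_zero, map_pow]
        simp [h6]
      rw [h5]
      exact isUnit_one
  let ψ : P.Ring →ₐ[R0] K F := P.lift _ hm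
  have hx : ψ (algebraMap R0 P.Ring x0) = kx F := by
    rw [AlgHom.commutes]
    exact h2_x F
  refine ⟨P.Ring, inferInstance, algB, smB, algebraMap R0 P.Ring x0, algebraMap R0 P.Ring xi0, P.X,
    (K F).subtype.comp ψ.toRingHom, ?_, ?_, ?_, ?_⟩
  · rw [← map_mul, x0_mul, map_one]
  · have := P.hasMap_X.1
    rw [P_f, map_sub, map_add, map_pow, aeval_X, aeval_C, sub_eq_zero, map_add] at this
    exact this
  · exact congrArg Subtype.val hx
  · intro b
    exact (ψ b).2

end W487T
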