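import Pool.Agent.W487.T.Stm
import Pool.Agent.W417.TT.Gal

/-! Base change of tame extensions. -/

set_option autoImplicit false

open Polynomial Pool.Agent.W417.TT

namespace W487T

theorem bc : StmBC := by
  intro K L K' L' _ _ _ _ i k i' l hil hF w' hT
  obtain ⟨N, _, _, j, hfd, hgal, hj, hram⟩ := hT
  let Ω := AlgebraicClosure L'
  let _ : Algebra K' Ω := ((algebraMap L' Ω).comp i').toAlgebra
  obtain ⟨e, he⟩ := exists_embed i j hj ((algebraMap L' Ω).comp l)
  have heK : ∀ x, e (algebraMap K N x) = algebraMap K' Ω (k x) := by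
    intro x
    rw [← hj, he]
    change algebraMap L' Ω (l (i x)) = algebraMap L' Ω (i' (k x))
    rw [hil]
  obtain ⟨N', hfd', hgal', heN⟩ := exists_galois k e heK
  let e' : N →+* N' := e.codRestrict N' heN
  have he' : ∀ x, ((e' x : N') : Ω) = e x := fun _ => rfl
  have hL' : ∀ y : L', algebraMap L' Ω y ∈ N' := by
    intro y
    have h1 := hF (N'.toSubfield.comap (algebraMap L' Ω)) (fun x => N'.algebraMap_mem x)
      (fun x => by
        change algebraMap L' Ω (l x) ∈ N'
        have := heN (j x)
        rwa [he] at this)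
    have hy : y ∈ (N'.toSubfield.comap (algebraMap L' Ω)) := by
      rw [h1]
      trivial
    exact hy
  let j' : L' →+* N' := (algebraMap L' Ω).codRestrict N' hL'
  have hji : ∀ x, j' (i' x) = algebraMap K' N' x := fun x => Subtype.ext rfl
  have hjl : ∀ y, j' (l y) = e' (j y) := fun y => Subtype.ext (he y).symm
  refine ⟨N', inferInstance, inferInstance, j', hfd', hgal', hji, ?_⟩
  intro v' hv' σ hσ
  have heK' : ∀ x, e' (algebraMap K N x) = algebraMap K' N' (k x) :=
    fun x => Subtype.ext (heK x)
  obtain ⟨t, ht⟩ := exists_restrict k e' heK' σ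
  have hcomap : (v'.comap e').comap j = w'.comap l := by
    rw [← hv', ValuationSubring.comap_comap, ValuationSubring.comap_comap]
    congr 1
    ext y
    exact congrArg Subtype.val (hjl y).symm
  have htram : ∀ x : N, x ≠ 0 → (v'.comap e').valuation (t x / x - 1) < 1 := by
    intro x hx
    rw [val_comap, map_sub, map_div₀, map_one, ht]
    exact hσ (e' x) ((map_ne_zero e').2 hx)
  have hfix := hram (v'.comap e') hcomap t htram
  refine field_ind i' l hF ((σ : N' →+* N').comp j') j' ?_ ?_
  · intro x
    change σ (j' (i' x)) = j' (i' x)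
    rw [hji, σ.commutes]
  · intro x
    change σ (j' (l x)) = j' (l x)
    rw [hjl, ← ht, hfix]

end W487T
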