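import Pool.Agent.W487.T.Stm

/-!
Project TT: common extension of two valuation rings.
-/

set_option autoImplicit false

namespace W487T

open TensorProduct IsLocalRing

namespace CE

theorem nzd (A B C : Type) [CommRing A] [IsDomain A] [ValuationRing A] [CommRing B] [IsDomain B]
    [CommRing C] [IsDomain C] [Algebra A B] [Algebra A C]
    (hg : Function.Injective (algebraMap A C)) (b : B) (hb : b ≠ 0) :
    (b ⊗ₜ[A] (1 : C)) ∈ nonZeroDivisors (B ⊗[A] C) := by
  have : Module.IsTorsionFree A C := by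
    rw [Module.isTorsionFree_iff_algebraMap_injective]
    exact hg
  have : Module.Flat A C := by
    rw [Module.Flat.flat_iff_torsion_eq_bot_of_isBezout,
      ← Submodule.isTorsionFree_iff_torsion_eq_bot]
    infer_instance
  have h1 : IsSMulRegular (B ⊗[A] C) b :=
    Module.Flat.isSMulRegular_of_nonZeroDivisors (mem_nonZeroDivisors_of_ne_zero hb)
  rw [mem_nonZeroDivisors_iff_right]
  intro x hx
  apply h1
  show b • x = b • 0
  rw [smul_zero, ← hx, Algebra.smul_def, mul_comm]
  rfl

/-- a common extension of the residue fields -/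
theorem residues (A B C : Type) [CommRing A] [CommRing B] [CommRing C] [IsLocalRing A]
    [IsLocalRing B] [IsLocalRing C] (f : A →+* B) (g : A →+* C) [IsLocalHom f] [IsLocalHom g] :
    ∃ (F : Type) (_ : Field F) (a : B →+* F) (b : C →+* F), (∀ x, a (f x) = b (g x)) ∧
      (∀ x ∈ maximalIdeal B, a x = 0) ∧ (∀ x ∈ maximalIdeal C, b x = 0) := by
  let : Algebra (ResidueField A) (ResidueField B) := (ResidueField.map f).toAlgebra
  let : Algebra (ResidueField A) (ResidueField C) := (ResidueField.map g).toAlgebra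
  have hn : Nontrivial (ResidueField B ⊗[ResidueField A] ResidueField C) :=
    Algebra.TensorProduct.nontrivial_of_algebraMap_injective_of_flat_left _ _ _
      (algebraMap (ResidueField A) (ResidueField C)).injective
  obtain ⟨m, hm⟩ := Ideal.exists_maximal (ResidueField B ⊗[ResidueField A] ResidueField C)
  refine ⟨_, Ideal.Quotient.field m,
    ((Ideal.Quotient.mk m).comp (Algebra.TensorProduct.includeLeft :
      ResidueField B →ₐ[ResidueField A] _).toRingHom).comp (residue B),
    ((Ideal.Quotient.mk m).comp (Algebra.TensorProduct.includeRight :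
      ResidueField C →ₐ[ResidueField A] _).toRingHom).comp (residue C), ?_, ?_, ?_⟩
  · intro x
    have h1 : residue B (f x) = algebraMap (ResidueField A) (ResidueField B) (residue A x) := rfl
    have h2 : residue C (g x) = algebraMap (ResidueField A) (ResidueField C) (residue A x) := rfl
    simp only [RingHom.comp_apply, h1, h2]
    congr 1
    rw [AlgHom.toRingHom_eq_coe, AlgHom.toRingHom_eq_coe, RingHom.coe_coe, RingHom.coe_coe,
      AlgHom.commutes, AlgHom.commutes]
  · intro x hx
    rw [RingHom.comp_apply, (residue_eq_zero_iff x).2 hx, map_zero]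
  · intro x hx
    rw [RingHom.comp_apply, (residue_eq_zero_iff x).2 hx, map_zero]

theorem core (A B C : Type) [CommRing A] [IsDomain A] [ValuationRing A] [CommRing B] [IsDomain B]
    [CommRing C] [IsDomain C] [IsLocalRing B] [IsLocalRing C]
    (f : A →+* B) (g : A →+* C) [IsLocalHom f] [IsLocalHom g]
    (hf : Function.Injective f) (hg : Function.Injective g) :
    ∃ (Ω : Type) (_ : Field Ω) (a : B →+* Ω) (b : C →+* Ω) (O : ValuationSubring Ω),
      (∀ x, a (f x) = b (g x)) ∧ Function.Injective a ∧ Function.Injective b ∧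
      (∀ x, a x ∈ O) ∧ (∀ x, b x ∈ O) ∧ (∀ x ∈ maximalIdeal B, O.valuation (a x) < 1) ∧
      (∀ x ∈ maximalIdeal C, O.valuation (b x) < 1) := by
  obtain ⟨F, _, a0, b0, hab, ha0, hb0⟩ := residues A B C f g
  let : Algebra A B := f.toAlgebra
  let : Algebra A C := g.toAlgebra
  let : Algebra A F := (a0.comp f).toAlgebra
  let a1 : B →ₐ[A] F := { a0 with commutes' := fun x => rfl }
  let b1 : C →ₐ[A] F := { b0 with commutes' := fun x => (hab x).symm }
  let φ : B ⊗[A] C →ₐ[A] F := Algebra.TensorProduct.lift a1 b1 (fun _ _ => Commute.all _ _)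
  have hφ : ∀ x y, φ (x ⊗ₜ y) = a0 x * b0 y := fun x y => rfl
  let P : Ideal (B ⊗[A] C) := RingHom.ker φ.toRingHom
  have hP : P.IsPrime := RingHom.ker_isPrime _
  obtain ⟨Q, hQ, hQP⟩ := Ideal.exists_minimalPrimes_le (I := ⊥) (J := P) bot_le
  have hQ' : Q ∈ minimalPrimes (B ⊗[A] C) := hQ
  have hQp : Q.IsPrime := hQ.1.1
  let ψ : B ⊗[A] C →+* FractionRing ((B ⊗[A] C) ⧸ Q) :=
    (algebraMap ((B ⊗[A] C) ⧸ Q) (FractionRing ((B ⊗[A] C) ⧸ Q))).comp (Ideal.Quotient.mk Q)
  have hψ : ∀ x, ψ x = 0 → x ∈ Q := by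
    intro x hx
    rw [← Ideal.Quotient.eq_zero_iff_mem]
    exact (IsFractionRing.injective ((B ⊗[A] C) ⧸ Q) (FractionRing ((B ⊗[A] C) ⧸ Q)))
      (by rw [map_zero]; exact hx)
  have hu : ∀ y : P.primeCompl, IsUnit (ψ y) := by
    intro y
    rw [isUnit_iff_ne_zero]
    intro h
    exact y.2 (hQP (hψ _ h))
  let lft : Localization.AtPrime P →+* FractionRing ((B ⊗[A] C) ⧸ Q) :=
    IsLocalization.lift (M := P.primeCompl) (g := ψ) hu
  have hlft : ∀ x, lft (algebraMap _ _ x) = ψ x := fun x => IsLocalization.lift_eq _ _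
  obtain ⟨O, hO, hloc⟩ := IsLocalRing.exists_factor_valuationRing lft
  have hmem : ∀ x, ψ x ∈ O := by
    intro x
    rw [← hlft]
    exact hO _
  have hval : ∀ x ∈ P, O.valuation (ψ x) < 1 := by
    intro x hx
    have h1 : (⟨ψ x, hmem x⟩ : O) ∈ maximalIdeal O := by
      rw [mem_maximalIdeal, mem_nonunits_iff]
      intro h2
      have h3 : IsUnit (algebraMap _ (Localization.AtPrime P) x) := by
        apply hloc.1
        have h4 : lft.codRestrict O.toSubring hO (algebraMap _ (Localization.AtPrime P) x) =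
            ⟨ψ x, hmem x⟩ := Subtype.ext (hlft x)
        rw [h4]
        exact h2
      exact (IsLocalization.AtPrime.isUnit_to_map_iff (Localization.AtPrime P) P x).1 h3 hx
    exact (O.valuation_lt_one_iff _).1 h1
  have ha0' : ∀ x ∈ maximalIdeal B, (x ⊗ₜ[A] (1 : C)) ∈ P := by
    intro x hx
    show φ (x ⊗ₜ 1) = 0
    rw [hφ, ha0 x hx, zero_mul]
  have hb0' : ∀ x ∈ maximalIdeal C, ((1 : B) ⊗ₜ[A] x) ∈ P := by
    intro x hx
    show φ (1 ⊗ₜ x) = 0
    rw [hφ, hb0 x hx, mul_zero]
  refine ⟨FractionRing ((B ⊗[A] C) ⧸ Q), inferInstance,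
    ψ.comp (Algebra.TensorProduct.includeLeft : B →ₐ[A] B ⊗[A] C).toRingHom,
    ψ.comp (Algebra.TensorProduct.includeRight : C →ₐ[A] B ⊗[A] C).toRingHom, O,
    ?_, ?_, ?_, fun x => hmem _, fun x => hmem _, fun x hx => hval _ (ha0' x hx),
    fun x hx => hval _ (hb0' x hx)⟩
  · intro x
    simp only [RingHom.comp_apply]
    congr 1
    show (Algebra.TensorProduct.includeLeft : B →ₐ[A] B ⊗[A] C) (algebraMap A B x) =
      (Algebra.TensorProduct.includeRight : C →ₐ[A] B ⊗[A] C) (algebraMap A C x)
    rw [AlgHom.commutes, AlgHom.commutes]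
  · rw [injective_iff_map_eq_zero]
    intro x hx
    by_contra h0
    exact notMem_nonZeroDivisors_of_mem_mem_minimalPrimes (hψ (x ⊗ₜ 1) hx) hQ'
      (nzd A B C hg x h0)
  · rw [injective_iff_map_eq_zero]
    intro x hx
    by_contra h0
    have h1 := nzd A C B hf x h0
    have h2 : ((1 : B) ⊗ₜ[A] x) ∈ nonZeroDivisors (B ⊗[A] C) := by
      rw [mem_nonZeroDivisors_iff_right] at h1 ⊢
      intro z hz
      have h3 := h1 (Algebra.TensorProduct.comm A B C z) (by
        have h4 := congrArg (Algebra.TensorProduct.comm A B C) hz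
        rw [map_mul, map_zero] at h4
        exact h4)
      exact (map_eq_zero_iff _ (Algebra.TensorProduct.comm A B C).injective).1 h3
    exact notMem_nonZeroDivisors_of_mem_mem_minimalPrimes (hψ (1 ⊗ₜ x) hx) hQ' h2

/-- if a valuation ring dominates another one over a field homomorphism, it lies over it -/
theorem comap_eq {L Ω : Type} [Field L] [Field Ω] (w : ValuationSubring L)
    (O : ValuationSubring Ω) (a : L →+* Ω) (h1 : ∀ x ∈ w, a x ∈ O)
    (h2 : ∀ x : w, x ∈ maximalIdeal w → O.valuation (a x) < 1) : O.comap a = w := by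
  ext x
  rw [ValuationSubring.mem_comap]
  constructor
  · intro hx
    by_contra hxw
    have hinv : x⁻¹ ∈ w := (w.mem_or_inv_mem x).resolve_left hxw
    have hx0 : x ≠ 0 := by
      rintro rfl
      exact hxw w.zero_mem
    have hm : (⟨x⁻¹, hinv⟩ : w) ∈ maximalIdeal w := by
      rw [mem_maximalIdeal, mem_nonunits_iff]
      intro hu
      obtain ⟨y, hy⟩ := hu.exists_right_inv
      have hy' : x⁻¹ * (y : L) = 1 := congrArg Subtype.val hy
      apply hxw
      have : x = y := by
        field_simp at hy'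
        exact hy'.symm
      rw [this]
      exact y.2
    have h3 := h2 _ hm
    have h4 : O.valuation (a x) ≤ 1 := (O.valuation_le_one_iff _).2 hx
    have h5 : O.valuation (a x⁻¹) * O.valuation (a x) = 1 := by
      rw [← map_mul, ← map_mul, inv_mul_cancel₀ hx0, map_one, map_one]
    have h6 : O.valuation (a x⁻¹) * O.valuation (a x) < 1 :=
      mul_lt_one_of_lt_of_le h3 h4
    rw [h5] at h6
    exact lt_irrefl _ h6
  · exact h1 x

/-- restriction of a homomorphism of fields to valuation rings -/
def res {K L : Type} [Field K] [Field L] (u : ValuationSubring K) (w : ValuationSubring L)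
    (i : K →+* L) (h : ∀ x ∈ u, i x ∈ w) : u →+* w :=
  (i.comp u.subtype).codRestrict w.toSubring (fun x => h x x.2)

theorem res_local {K L : Type} [Field K] [Field L] (u : ValuationSubring K)
    (w : ValuationSubring L) (i : K →+* L) (h : ∀ x ∈ u, i x ∈ w) (h' : ∀ x, i x ∈ w → x ∈ u) :
    IsLocalHom (res u w i h) := by
  constructor
  intro x hx
  obtain ⟨y, hy⟩ := hx.exists_right_inv
  have hy' : i x * (y : L) = 1 := congrArg Subtype.val hy
  have hx0 : (x : K) ≠ 0 := by
    intro h0
    rw [h0, map_zero, zero_mul] at hy'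
    exact zero_ne_one hy'
  have hinv : (x : K)⁻¹ ∈ u := by
    apply h'
    rw [map_inv₀, ← eq_inv_of_mul_eq_one_right hy']
    exact y.2
  rw [isUnit_iff_exists_inv]
  exact ⟨⟨(x : K)⁻¹, hinv⟩, Subtype.ext (mul_inv_cancel₀ hx0)⟩

theorem res_inj {K L : Type} [Field K] [Field L] (u : ValuationSubring K)
    (w : ValuationSubring L) (i : K →+* L) (h : ∀ x ∈ u, i x ∈ w) :
    Function.Injective (res u w i h) := by
  intro x y hxy
  have : i x = i y := congrArg Subtype.val hxy
  exact Subtype.ext (i.injective this)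

end CE

open CE in
theorem ce : StmCE := by
  intro K L K' _ _ _ i k w v hwv
  have hi : ∀ x ∈ w.comap i, i x ∈ w := fun x hx => hx
  have hi' : ∀ x, i x ∈ w → x ∈ w.comap i := fun x hx => hx
  have hk : ∀ x ∈ w.comap i, k x ∈ v := fun x hx => by
    rw [hwv] at hx
    exact hx
  have hk' : ∀ x, k x ∈ v → x ∈ w.comap i := fun x hx => by
    rw [hwv]
    exact hx
  have l1 := res_local _ _ i hi hi'
  have l2 := res_local _ _ k hk hk'
  obtain ⟨Ω, _, a, b, O, hab, ha, hb, haO, hbO, ham, hbm⟩ :=
    core (w.comap i) w v (res _ _ i hi) (res _ _ k hk) (res_inj _ _ i hi) (res_inj _ _ k hk)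
  have ea : ∀ x : w, IsFractionRing.lift ha (x : L) = a x := fun x =>
    IsFractionRing.lift_algebraMap ha x
  have eb : ∀ x : v, IsFractionRing.lift hb (x : K') = b x := fun x =>
    IsFractionRing.lift_algebraMap hb x
  refine ⟨Ω, inferInstance, IsFractionRing.lift ha, IsFractionRing.lift hb, O, ?_, ?_, ?_⟩
  · have key : ∀ x ∈ w.comap i, IsFractionRing.lift ha (i x) = IsFractionRing.lift hb (k x) := by
      intro x hx
      have h1 := ea ⟨i x, hi x hx⟩
      have h2 := eb ⟨k x, hk x hx⟩
      rw [h1, h2]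
      exact hab ⟨x, hx⟩
    intro x
    rcases (w.comap i).mem_or_inv_mem x with h | h
    · exact key x h
    · have h1 := key _ h
      rw [map_inv₀, map_inv₀, map_inv₀, map_inv₀] at h1
      exact inv_injective h1
  · apply comap_eq w O
    · intro x hx
      rw [ea ⟨x, hx⟩]
      exact haO _
    · intro x hx
      rw [ea x]
      exact ham x hx
  · apply comap_eq v O
    · intro x hx
      rw [eb ⟨x, hx⟩]
      exact hbO _
    · intro x hx
      rw [eb x]
      exact hbm x hx

end W487T
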