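import Mathlib
import Pool.Agent.W487.T.Stm

open IsLocalRing Pointwise Ideal

namespace W487T.In

set_option linter.unusedVariables false

theorem core (A K N B : Type) [CommRing A] [IsDomain A] [IsDiscreteValuationRing A]
    [Field K] [Field N] [Algebra A K] [IsFractionRing A K] [Algebra K N] [Algebra A N]
    [IsScalarTower A K N] [FiniteDimensional K N] [IsGalois K N]
    [CommRing B] [Algebra A B] [Algebra B N] [IsScalarTower A B N] [IsIntegralClosure B A N]
    [PerfectField (maximalIdeal A).ResidueField]
    (P : Ideal B) [P.IsPrime] [P.LiesOver (maximalIdeal A)] (π : A) (hπ : Irreducible π)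
    (u : A) (hu : IsUnit u) (k : ℕ) (t : N)
    (ht : t ^ 2 + algebraMap A N (π ^ (k + 1)) * t = algebraMap A N (u * π)) :
    ∃ σ : Gal(N/K), σ t ≠ t ∧ ∀ b b' : B, algebraMap B N b' = σ (algebraMap B N b) →
      b' - b ∈ P := by
  classical
  have := (IsIntegralClosure.algebraMap_injective B A N).isDomain
  have := IsIntegralClosure.isDedekindDomain A K N B
  have := IsIntegralClosure.isFractionRing_of_finite_extension A K N B
  have := IsIntegralClosure.finite A K N B
  let : MulSemiringAction Gal(N/K) B := IsIntegralClosure.MulSemiringAction A K N B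
  have hG := IsGaloisGroup.of_isFractionRing Gal(N/K) A B K N
  by_contra hcon
  push Not at hcon
  -- inertia group
  set I : Subgroup Gal(N/K) := inertia Gal(N/K) P with hI
  have hIt : ∀ σ ∈ I, σ t = t := by
    intro σ hσ
    by_contra hne
    obtain ⟨b, b', h1, h2⟩ := hcon σ hne
    apply h2
    have h3 : b' = σ • b := by
      apply IsIntegralClosure.algebraMap_injective B A N
      rw [h1]
      exact (algebraMap_galRestrict_apply A σ b).symm
    rw [h3]
    exact hσ b
  let E : IntermediateField K N := IntermediateField.fixedField I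
  have hE : IsGaloisGroup I E N := by
    exact IsGaloisGroup.subgroup Gal(N/K) K N I
  have htE : t ∈ E := by
    rintro ⟨g, hg⟩
    exact hIt g hg
  have hKE : FiniteDimensional K E := inferInstance
  have : Algebra.IsSeparable K E := inferInstance
  let C := integralClosure A E
  have := IsIntegralClosure.isDedekindDomain A K E C
  have := IsIntegralClosure.isFractionRing_of_finite_extension A K E C
  have := IsIntegralClosure.finite A K E C
  have : IsScalarTower A C E := inferInstance
  have hAEN : IsScalarTower A E N := by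
    refine IsScalarTower.of_algebraMap_eq fun a => ?_
    rw [IsScalarTower.algebraMap_apply A K N, IsScalarTower.algebraMap_apply A K E]
    rfl
  let f : C →ₐ[A] B := IsIntegralClosure.lift A B N
  have hf : ∀ c : C, algebraMap B N (f c) = algebraMap E N (algebraMap C E c) := by
    intro c
    exact IsIntegralClosure.algebraMap_lift A B N c
  let : Algebra C B := f.toRingHom.toAlgebra
  have : IsScalarTower C B N := by
    refine IsScalarTower.of_algebraMap_eq fun c => ?_
    exact (hf c).symm
  have : IsScalarTower A C B := by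
    refine IsScalarTower.of_algebraMap_eq fun c => ?_
    exact (f.commutes c).symm
  have hfinCB : Module.Finite C B := Module.Finite.right A C B
  have : IsScalarTower C E N := inferInstance
  have hGI : IsGaloisGroup I C B := IsGaloisGroup.of_isFractionRing I C B E N
  have hinj : Function.Injective (algebraMap C B) := by
    intro x y hxy
    have h1 : algebraMap B N (f x) = algebraMap B N (f y) := by rw [show f x = f y from hxy]
    rw [hf, hf] at h1
    exact Subtype.ext ((algebraMap E N).injective h1)
  have : Module.IsTorsionFree C B := by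
    rw [Module.isTorsionFree_iff_faithfulSMul]
    exact (faithfulSMul_iff_algebraMap_injective C B).mpr hinj
  have : Module.IsTorsionFree A B := by
    rw [Module.isTorsionFree_iff_faithfulSMul]
    refine (faithfulSMul_iff_algebraMap_injective A B).mpr ?_
    intro x y hxy
    have h1 : algebraMap A N x = algebraMap A N y := by
      rw [IsScalarTower.algebraMap_apply A B N, IsScalarTower.algebraMap_apply A B N, hxy]
    rw [IsScalarTower.algebraMap_apply A K N, IsScalarTower.algebraMap_apply A K N] at h1
    exact IsFractionRing.injective A K ((algebraMap K N).injective h1)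
  let Q : Ideal C := P.under C
  have : P.LiesOver Q := ⟨rfl⟩
  have : Q.IsPrime := inferInstance
  have : Q.LiesOver (maximalIdeal A) := by
    refine ⟨?_⟩
    rw [P.over_def (maximalIdeal A)]
    exact (Ideal.under_under P).symm
  have hQ : PerfectField Q.ResidueField := by
    let := Localization.AtPrime.algebraOfLiesOver (maximalIdeal A) Q
    exact Algebra.IsAlgebraic.perfectField (maximalIdeal A).ResidueField
  have hflat1 : Module.Flat A B := inferInstance
  have hflat2 : Module.Flat C B := inferInstance
  have e1 := card_inertia_eq_ramificationIdxIn (G := Gal(N/K)) (maximalIdeal A) P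
  have e2 := card_inertia_eq_ramificationIdxIn (G := I) Q P
  rw [ramificationIdxIn_eq_ramificationIdx (maximalIdeal A) P Gal(N/K)] at e1
  rw [ramificationIdxIn_eq_ramificationIdx Q P I] at e2
  have e3 : P.ramificationIdx A = Q.ramificationIdx A * P.ramificationIdx C :=
    ramificationIdx_tower Q P
  have e4 : Nat.card (inertia I P) = Nat.card I := by
    have h1 : (inertia I P) = ⊤ := by
      ext g
      simp only [Subgroup.mem_top, iff_true]
      intro b
      exact g.2 b
    rw [h1]
    exact Nat.card_congr (Equiv.subtypeUnivEquiv fun _ => Subgroup.mem_top _)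
  have e5 : Q.ramificationIdx A = 1 := by
    have hpos : 0 < P.ramificationIdx C := ramificationIdx_pos P C
    have h1 : Nat.card I = P.ramificationIdx A := e1
    have h2 : P.ramificationIdx A = P.ramificationIdx C := by rw [← h1, ← e4, e2]
    rw [h2] at e3
    exact Nat.eq_of_mul_eq_mul_right hpos (by rw [one_mul]; exact e3.symm)
  -- the element t in C
  have hint : IsIntegral A (⟨t, htE⟩ : E) := by
    refine ⟨Polynomial.X ^ 2 + Polynomial.C (π ^ (k + 1)) * Polynomial.X -
      Polynomial.C (u * π), ?_, ?_⟩
    · monicity!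
    · have : (algebraMap E N) (Polynomial.eval₂ (algebraMap A E) (⟨t, htE⟩ : E)
        (Polynomial.X ^ 2 + Polynomial.C (π ^ (k + 1)) * Polynomial.X -
      Polynomial.C (u * π))) = 0 := by
        rw [Polynomial.eval₂_sub, Polynomial.eval₂_add, Polynomial.eval₂_mul,
          Polynomial.eval₂_pow, Polynomial.eval₂_X, Polynomial.eval₂_C, Polynomial.eval₂_C,
          map_sub, map_add, map_mul, map_pow, ← IsScalarTower.algebraMap_apply,
          ← IsScalarTower.algebraMap_apply]
        have h1 : algebraMap E N ⟨t, htE⟩ = t := rfl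
        rw [h1, ht, sub_self]
      exact (map_eq_zero (algebraMap E N)).mp this
  let c : C := ⟨⟨t, htE⟩, hint⟩
  let g : C →+* N := (algebraMap E N).comp (algebraMap C E)
  have hg : Function.Injective g :=
    (algebraMap E N).injective.comp (fun x y h => Subtype.ext h)
  have hgA : ∀ a : A, g (algebraMap A C a) = algebraMap A N a := by
    intro a
    rw [IsScalarTower.algebraMap_apply A E N]
    rfl
  have hinjA : Function.Injective (algebraMap A N) := by
    rw [IsScalarTower.algebraMap_eq A K N]
    exact (algebraMap K N).injective.comp (IsFractionRing.injective A K)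
  have hc : c ^ 2 + algebraMap A C (π ^ (k + 1)) * c = algebraMap A C (u * π) := by
    apply hg
    rw [map_add, map_mul, map_pow, hgA, hgA, show g c = t from rfl, ht]
  have hmax : maximalIdeal A = Ideal.span {π} := (IsDiscreteValuationRing.irreducible_iff_uniformizer π).mp hπ
  have hmap : (maximalIdeal A).map (algebraMap A C) = Ideal.span {algebraMap A C π} := by
    rw [hmax, Ideal.map_span, Set.image_singleton]
  have hπC : algebraMap A C π ≠ 0 := by
    intro h
    have h1 := hgA π
    rw [h, map_zero] at h1
    exact hπ.ne_zero (hinjA (by rw [← h1, map_zero]))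
  have hne : (maximalIdeal A).map (algebraMap A C) ≠ ⊥ := by
    rw [hmap, Ne, Ideal.span_singleton_eq_bot]
    exact hπC
  have e6 := IsDedekindDomain.ramificationIdx_eq_multiplicity (maximalIdeal A) Q hne
  rw [e5] at e6
  have hπQ : algebraMap A C π ∈ Q := by
    rw [← Ideal.mem_of_liesOver Q (maximalIdeal A) π, hmax]
    exact Ideal.mem_span_singleton_self π
  have hπ2 : algebraMap A C π ∈ Q ^ 2 := by
    have h1 : c ^ 2 ∈ Q := by
      have : c ^ 2 = algebraMap A C (u * π) - algebraMap A C (π ^ (k + 1)) * c := by
        rw [← hc]; ring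
      rw [this, map_mul, pow_succ, map_mul]
      exact Q.sub_mem (Q.mul_mem_left _ hπQ) (Q.mul_mem_right _ (Q.mul_mem_left _ hπQ))
    have h2 : c ∈ Q := Ideal.IsPrime.mem_of_pow_mem inferInstance 2 h1
    have h3 : algebraMap A C (u * π) ∈ Q ^ 2 := by
      rw [← hc, pow_succ π, map_mul, pow_two c, pow_two Q]
      refine (Q * Q).add_mem (Ideal.mul_mem_mul h2 h2) ?_
      rw [mul_assoc]
      exact (Q * Q).mul_mem_left _ (Ideal.mul_mem_mul hπQ h2)
    obtain ⟨w, rfl⟩ := hu
    have h4 : algebraMap A C π = algebraMap A C (w⁻¹ : Aˣ) * algebraMap A C (w * π) := by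
      rw [← map_mul, ← mul_assoc, Units.inv_mul, one_mul]
    rw [h4]
    exact (Q ^ 2).mul_mem_left _ h3
  have h7 : Q ^ 2 ∣ (maximalIdeal A).map (algebraMap A C) := by
    rw [Ideal.dvd_iff_le, hmap, Ideal.span_singleton_le_iff_mem]
    exact hπ2
  have h8 : FiniteMultiplicity Q ((maximalIdeal A).map (algebraMap A C)) := by
    refine FiniteMultiplicity.of_not_isUnit ?_ hne
    rw [Ideal.isUnit_iff]
    exact Ideal.IsPrime.ne_top inferInstance
  have h9 := h8.le_multiplicity_of_pow_dvd h7
  omega


/-- every element is a fraction or the inverse of a fraction with denominator outside `P` -/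
theorem frac (B N : Type) [CommRing B] [IsDedekindDomain B] [Field N] [Algebra B N]
    [IsFractionRing B N] (P : Ideal B) [P.IsPrime] (hP : P ≠ ⊥) (x : N) :
    ∃ b c : B, c ∉ P ∧ (x * algebraMap B N c = algebraMap B N b ∨
      x * algebraMap B N b = algebraMap B N c) := by
  have hdvr := IsLocalization.AtPrime.isDiscreteValuationRing_of_dedekind_domain B hP
    (Localization.AtPrime P)
  have hinj : Function.Injective (algebraMap B (Localization.AtPrime P)) :=
    IsLocalization.injective _ (Ideal.primeCompl_le_nonZeroDivisors P)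
  obtain ⟨a, b, hb, rfl⟩ := IsFractionRing.div_surjective (A := B) x
  have hb0 : algebraMap B N b ≠ 0 := IsFractionRing.to_map_ne_zero_of_mem_nonZeroDivisors hb
  rcases ValuationRing.dvd_total (algebraMap B (Localization.AtPrime P) b)
    (algebraMap B (Localization.AtPrime P) a) with ⟨z, hz⟩ | ⟨z, hz⟩
  · obtain ⟨c, d, rfl⟩ := IsLocalization.exists_mk'_eq P.primeCompl z
    have h1 : a * d = b * c := by
      apply hinj
      rw [map_mul, map_mul, hz, mul_assoc, IsLocalization.mk'_spec]
    refine ⟨c, d, d.2, Or.inl ?_⟩
    rw [div_mul_eq_mul_div, div_eq_iff hb0, ← map_mul, ← map_mul, h1, mul_comm]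
  · obtain ⟨c, d, rfl⟩ := IsLocalization.exists_mk'_eq P.primeCompl z
    have h1 : b * d = a * c := by
      apply hinj
      rw [map_mul, map_mul, hz, mul_assoc, IsLocalization.mk'_spec]
    refine ⟨c, d, d.2, Or.inr ?_⟩
    rw [div_mul_eq_mul_div, div_eq_iff hb0, ← map_mul, ← map_mul, ← h1, mul_comm]

theorem vlt {F : Type} [Field F] (V : ValuationSubring F) (x : F) :
    V.valuation x < 1 ↔ x = 0 ∨ x⁻¹ ∉ V := by
  rcases eq_or_ne x 0 with rfl | hx
  · simp
  · simp only [hx, false_or]
    rw [← ValuationSubring.valuation_le_one_iff, map_inv₀, not_le]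
    exact (one_lt_inv₀ (by simpa [zero_lt_iff] using hx)).symm

theorem perf (A : Type) [CommRing A] [IsLocalRing A] [CharP A 2]
    (h : ∀ a : A, ∃ b : A, a - b ^ 2 ∈ maximalIdeal A) :
    PerfectField (maximalIdeal A).ResidueField := by
  have h2 : CharP (maximalIdeal A).ResidueField 2 := by
    apply ringChar.of_eq
    apply CharP.ringChar_of_prime_eq_zero Nat.prime_two
    rw [← map_natCast (algebraMap A _), CharP.cast_eq_zero, map_zero]
  have : ExpChar (maximalIdeal A).ResidueField 2 := inferInstance
  have : PerfectRing (maximalIdeal A).ResidueField 2 := by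
    refine PerfectRing.ofSurjective _ 2 ?_
    intro y
    obtain ⟨a, rfl⟩ := (maximalIdeal A).algebraMap_residueField_surjective y
    obtain ⟨b, hb⟩ := h a
    refine ⟨algebraMap _ _ b, ?_⟩
    rw [frobenius_def, ← map_pow, ← sub_eq_zero, ← map_sub, Ideal.algebraMap_residueField_eq_zero]
    rw [← neg_sub, neg_mem_iff]
    exact hb
  exact PerfectRing.toPerfectField _ 2

end W487T.In

namespace W487T

open W487T.In

theorem inx : StmIn := by
  intro K N _ _ _ _ _ _ O hgood π hπO hH n u hn hu hu' hu0 s hs
  obtain ⟨hdvr, hsq⟩ := hgood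
  set A : ValuationSubring K := O.comap (algebraMap K N) with hA
  have hAO : ∀ a : K, a ∈ A ↔ algebraMap K N a ∈ O := fun a => ValuationSubring.mem_comap
  let B := integralClosure A N
  have := IsIntegralClosure.isDedekindDomain A K N B
  have := IsIntegralClosure.isFractionRing_of_finite_extension A K N B
  -- B is contained in O
  have hBO : ∀ b : B, (b : N) ∈ O := by
    intro b
    let φ : A →+* O :=
      { toFun := fun a => ⟨algebraMap K N a, (hAO a).1 a.2⟩
        map_one' := Subtype.ext (map_one _)
        map_mul' := fun _ _ => Subtype.ext (map_mul _ _ _)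
        map_zero' := Subtype.ext (map_zero _)
        map_add' := fun _ _ => Subtype.ext (map_add _ _ _) }
    obtain ⟨p, hp, hp2⟩ := b.2
    have h1 : IsIntegral O (b : N) := by
      refine ⟨p.map φ, hp.map φ, ?_⟩
      rw [Polynomial.eval₂_map]
      exact hp2
    obtain ⟨y, hy⟩ := IsIntegrallyClosed.isIntegral_iff.1 h1
    rw [← hy]
    exact y.2
  let g : B →+* O :=
    { toFun := fun b => ⟨b, hBO b⟩
      map_one' := rfl
      map_mul' := fun _ _ => rfl
      map_zero' := rfl
      map_add' := fun _ _ => rfl }
  let P : Ideal B := (maximalIdeal O).comap g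
  have hPmem : ∀ b : B, b ∈ P ↔ O.valuation (b : N) < 1 := by
    intro b
    exact ValuationSubring.valuation_lt_one_iff O (g b)
  have hPprime : P.IsPrime := inferInstance
  have hmaxA : ∀ a : A, a ∈ maximalIdeal A ↔ O.valuation (algebraMap K N a) < 1 := by
    intro a
    rw [ValuationSubring.valuation_lt_one_iff, vlt, vlt, hAO, map_inv₀, map_eq_zero]
  have hlies : P.LiesOver (maximalIdeal A) := by
    refine ⟨?_⟩
    ext a
    rw [hmaxA]
    exact (hPmem (algebraMap A B a)).symm
  have hchar : CharP A 2 :=
    (algebraMap A K).charP Subtype.val_injective 2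
  have : PerfectField (maximalIdeal A).ResidueField := perf A hsq
  obtain ⟨k, rfl⟩ := hn
  let πA : A := ⟨π, hπO⟩
  let uA : A := ⟨u, hu⟩
  have hunit : ∀ (w : K) (hw : w ∈ A), w⁻¹ ∈ A → w ≠ 0 → IsUnit (⟨w, hw⟩ : A) := by
    intro w hw hw' hw0
    refine IsUnit.of_mul_eq_one ⟨w⁻¹, hw'⟩ (Subtype.ext ?_)
    exact mul_inv_cancel₀ hw0
  have huu : IsUnit uA := hunit u hu hu' hu0
  have hirr : Irreducible πA := by
    obtain ⟨ϖ, hϖ⟩ := IsDiscreteValuationRing.exists_irreducible A
    rcases (hH ϖ).1 ϖ.2 with h0 | ⟨m, w, hw, hw', he⟩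
    · exact absurd (Subtype.ext h0) hϖ.ne_zero
    · have hw0 : w ≠ 0 := by
        rintro rfl
        rw [zero_mul] at he
        exact hϖ.ne_zero (Subtype.ext he)
      have hwu := hunit w hw hw' hw0
      have he' : ϖ = (⟨w, hw⟩ : A) * πA ^ m := Subtype.ext he
      rcases m with _ | m
      · exact absurd (by rw [he', pow_zero, mul_one]; exact hwu) hϖ.not_isUnit
      · have h1 : Irreducible (πA ^ (m + 1)) := by
          rw [he'] at hϖ
          exact (irreducible_isUnit_mul hwu).1 hϖ
        rcases m with _ | m
        · simpa using h1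
        · rw [pow_succ'] at h1
          rcases h1.isUnit_or_isUnit rfl with h2 | h2
          · exact absurd (h2.pow _) (by rw [pow_succ']; exact h1.not_isUnit)
          · have : IsUnit πA := (isUnit_pow_succ_iff).1 h2
            exact absurd (this.pow _) (by rw [pow_succ']; exact h1.not_isUnit)
  obtain ⟨σ, h1, h2⟩ := core A K N B P πA hirr uA huu k (s * algebraMap K N (π ^ (k + 1))) (by
    have h1 : algebraMap A N (πA ^ (k + 1)) = algebraMap K N (π ^ (k + 1)) := rfl
    have h2 : algebraMap A N (uA * πA) = algebraMap K N u * algebraMap K N π := by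
      rw [← map_mul]; rfl
    rw [h1, h2, ← hs]
    simp only [map_pow]
    ring)
  refine ⟨σ, ?_, ?_⟩
  · intro h3
    apply h1
    rw [map_mul, h3, AlgEquiv.commutes]
  · intro x hx
    have hPbot : P ≠ ⊥ := by
      intro hbot
      have h3 : algebraMap A B πA ∈ P := (hPmem _).2 ((hmaxA πA).1 hirr.not_isUnit)
      rw [hbot, Ideal.mem_bot] at h3
      have h4 : algebraMap K N π = 0 := congrArg (fun b : B => (b : N)) h3
      rw [map_eq_zero] at h4
      exact hirr.ne_zero (Subtype.ext h4)
    have key : ∃ b c : B, c ∉ P ∧ x * (c : N) = b := by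
      obtain ⟨b, c, hc, h | h⟩ := frac B N P hPbot x
      · exact ⟨b, c, hc, h⟩
      · refine ⟨c, b, ?_, h⟩
        intro hb
        rw [hPmem] at hb hc
        apply hc
        change x * (b : N) = (c : N) at h
        rw [← h, map_mul]
        exact lt_of_le_of_lt (mul_le_of_le_one_left' ((O.valuation_le_one_iff x).2 hx)) hb
    obtain ⟨b, c, hc, hxc⟩ := key
    have hlift : ∀ b : B, ∃ b' : B, (b' : N) = σ (b : N) := fun b =>
      ⟨⟨σ (b : N), b.2.map (σ.restrictScalars A : N ≃ₐ[A] N)⟩, rfl⟩
    obtain ⟨b', hb'⟩ := hlift b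
    obtain ⟨c', hc'⟩ := hlift c
    have hb2 := h2 b b' hb'
    have hc2 := h2 c c' hc'
    have hc'P : c' ∉ P := by
      intro h
      apply hc
      have := P.sub_mem h hc2
      rwa [sub_sub_cancel] at this
    have hval1 : ∀ d : B, d ∉ P → O.valuation (d : N) = 1 := by
      intro d hd
      rw [hPmem, not_lt] at hd
      exact le_antisymm ((O.valuation_le_one_iff _).2 (hBO d)) hd
    have hσ : σ x * (c' : N) = b' := by
      rw [hc', hb', ← hxc, map_mul]
    have h5 : ((b' - b) * c - b * (c' - c) : B) ∈ P :=
      P.sub_mem (P.mul_mem_right _ hb2) (P.mul_mem_left _ hc2)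
    rw [hPmem] at h5
    have h6 : (((b' - b) * c - b * (c' - c) : B) : N) = (σ x - x) * ((c : N) * c') := by
      push_cast
      rw [← hσ, ← hxc]
      ring
    rw [h6, map_mul, map_mul, hval1 c hc, hval1 c' hc'P, mul_one, mul_one] at h5
    exact h5

end W487T
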