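import Pool.Agent.W487.T.CE

/-!
Project TT: the ramification lemma.
-/

set_option autoImplicit false

namespace W487T

open IsLocalRing

namespace Ram

/-- a valuation ring above a given one -/
theorem above {L N : Type} [Field L] [Field N] (w : ValuationSubring L) (j : L →+* N) :
    ∃ O : ValuationSubring N, O.comap j = w := by
  obtain ⟨O, hO, hloc⟩ := IsLocalRing.exists_factor_valuationRing (j.comp w.subtype)
  refine ⟨O, CE.comap_eq w O j (fun x hx => hO ⟨x, hx⟩) ?_⟩
  intro x hx
  have h1 : (⟨j x, hO x⟩ : O) ∈ maximalIdeal O := by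
    rw [mem_maximalIdeal, mem_nonunits_iff] at hx ⊢
    intro h2
    exact hx (hloc.1 x h2)
  exact (O.valuation_lt_one_iff _).1 h1

/-- the inductive claim -/
theorem claim (h1 : StmIn) (h2 : StmWild) (K L N : Type) [Field K] [CharP K 2] [Field L] [Field N]
    [Algebra K N] [FiniteDimensional K N] [IsGalois K N] (i : K →+* L) (j : L →+* N)
    (O : ValuationSubring N) (hji : ∀ x, j (i x) = algebraMap K N x)
    (hO : Good (O.comap (algebraMap K N)))
    (htame : ∀ σ : N ≃ₐ[K] N, (∀ x : N, x ≠ 0 → O.valuation (σ x / x - 1) < 1) →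
      ∀ y : L, σ (j y) = j y)
    (π : K) (hπ0 : π ≠ 0) (hπ : π ∈ O.comap (algebraMap K N))
    (hmax : ∀ x : O.comap (algebraMap K N), x ∈ maximalIdeal (O.comap (algebraMap K N)) →
      ∃ c ∈ O.comap (algebraMap K N), (x : K) = π * c)
    (hfac : ∀ x : K, x ∈ O.comap (algebraMap K N) ↔ x = 0 ∨ ∃ (m : ℕ) (u : K),
      u ∈ O.comap (algebraMap K N) ∧ u⁻¹ ∈ O.comap (algebraMap K N) ∧ x = u * π ^ m) :
    ∀ (n : ℕ) (q : K) (s : L), s ^ 2 + s = i q → π ^ n * q ∈ O.comap (algebraMap K N) →
      ∃ f ∈ O.comap (algebraMap K N), ∃ g : K, q = f + g ^ 2 + g := by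
  have hL : CharP L 2 := charP_of_injective_ringHom i.injective 2
  have hK2 : (2 : K) = 0 := by
    have := CharP.cast_eq_zero K 2
    exact_mod_cast this
  have hL2 : (2 : L) = 0 := by
    have := CharP.cast_eq_zero L 2
    exact_mod_cast this
  intro n
  induction n with
  | zero =>
    intro q s _ hq
    rw [pow_zero, one_mul] at hq
    exact ⟨q, hq, 0, by ring⟩
  | succ n ih =>
    intro q s hs hq
    by_cases hq' : π ^ n * q ∈ O.comap (algebraMap K N)
    · exact ih q s hs hq'
    · -- `u` is a unit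
      have hunot : (⟨π ^ (n + 1) * q, hq⟩ : O.comap (algebraMap K N)) ∉
          maximalIdeal (O.comap (algebraMap K N)) := by
        intro hm
        obtain ⟨c, hc, hc'⟩ := hmax _ hm
        apply hq'
        have : π ^ n * q = c := by
          apply mul_left_cancel₀ hπ0
          rw [← hc']
          show π * (π ^ n * q) = π ^ (n + 1) * q
          ring
        rw [this]
        exact hc
      have hu : IsUnit (⟨π ^ (n + 1) * q, hq⟩ : O.comap (algebraMap K N)) := by
        by_contra hcon
        exact hunot ((mem_maximalIdeal _).2 hcon)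
      obtain ⟨y, hy⟩ := hu.exists_right_inv
      have hy' : (π ^ (n + 1) * q) * (y : K) = 1 := congrArg Subtype.val hy
      have hu0 : π ^ (n + 1) * q ≠ 0 := by
        intro h0
        rw [h0, zero_mul] at hy'
        exact zero_ne_one hy'
      have huinv : (π ^ (n + 1) * q)⁻¹ ∈ O.comap (algebraMap K N) := by
        rw [← eq_inv_of_mul_eq_one_right hy']
        exact y.2
      rcases Nat.even_or_odd (n + 1) with heven | hodd
      · obtain ⟨m, hm⟩ := heven
        obtain ⟨k, rfl⟩ : ∃ k, m = k + 1 := ⟨m - 1, by omega⟩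
        have hn : n = k + k + 1 := by omega
        obtain ⟨b, hb⟩ := hO.2 ⟨π ^ (n + 1) * q, hq⟩
        obtain ⟨c, hc, hc'⟩ := hmax _ hb
        have hc2 : π ^ (n + 1) * q - (b : K) ^ 2 = π * c := hc'
        set g : K := (b : K) * (π ^ (k + 1))⁻¹ with hg
        have hgb : g * π ^ (k + 1) = b := by
          rw [hg, mul_assoc, inv_mul_cancel₀ (pow_ne_zero _ hπ0), mul_one]
        have hmem : π ^ n * (q - g ^ 2 - g) ∈ O.comap (algebraMap K N) := by
          have h3 : π ^ n * (q - g ^ 2 - g) = c - π ^ k * b := by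
            apply mul_left_cancel₀ hπ0
            have h4 : π * (π ^ n * (q - g ^ 2 - g)) =
                π ^ (n + 1) * q - (g * π ^ (k + 1)) ^ 2 - π * (π ^ k * (g * π ^ (k + 1))) := by
              rw [hn]
              ring
            rw [h4, hgb, hc2]
            ring
          rw [h3]
          exact sub_mem hc (mul_mem (pow_mem hπ k) b.2)
        obtain ⟨f, hf, g', hg'⟩ := ih (q - g ^ 2 - g) (s + i g) (by
          rw [map_sub, map_sub, map_pow, ← hs]
          have : (s + i g) ^ 2 + (s + i g) - (s ^ 2 + s - i g ^ 2 - i g) =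
            2 * (s * i g + i g ^ 2 + i g) := by ring
          rw [hL2, zero_mul, sub_eq_zero] at this
          exact this) hmem
        refine ⟨f, hf, g + g', ?_⟩
        have h5 : f + (g + g') ^ 2 + (g + g') = (f + g' ^ 2 + g') + g ^ 2 + g + 2 * (g * g') := by
          ring
        rw [h5, hK2, ← hg']
        ring
      · exfalso
        have hs' : (j s) ^ 2 + j s = algebraMap K N q := by
          rw [← hji, ← hs, map_add, map_pow]
        obtain ⟨σ, hσ, hσ'⟩ := h1 K N O hO π hπ hfac (n + 1) (π ^ (n + 1) * q) hodd hq huinv hu0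
          (j s) (by
            rw [hs', ← map_mul, mul_comm])
        obtain ⟨τ, hτ, hτ'⟩ := h2 K N O (j s) q hs' σ hσ hσ'
        exact hτ (htame τ hτ' s)

end Ram

theorem ram (h1 : StmIn) (h2 : StmWild) : StmRam := by
  intro K L _ _ _ i w ht hgood q s hs
  obtain ⟨N, _, _, j, hfd, hgal, hji, ht⟩ := ht
  obtain ⟨O, hO⟩ := Ram.above w j
  have hcomap : O.comap (algebraMap K N) = w.comap i := by
    ext x
    rw [ValuationSubring.mem_comap, ValuationSubring.mem_comap, ← hO, ValuationSubring.mem_comap,
      hji]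
  rw [← hcomap] at hgood ⊢
  have hdvr := hgood.1
  obtain ⟨p, hp⟩ := IsDiscreteValuationRing.exists_irreducible (O.comap (algebraMap K N))
  have hp0 : (p : K) ≠ 0 := by
    intro h0
    exact hp.ne_zero (Subtype.ext h0)
  have hmax : ∀ x : O.comap (algebraMap K N), x ∈ maximalIdeal (O.comap (algebraMap K N)) →
      ∃ c ∈ O.comap (algebraMap K N), (x : K) = (p : K) * c := by
    intro x hx
    rw [hp.maximalIdeal_eq, Ideal.mem_span_singleton] at hx
    obtain ⟨c, hc⟩ := hx
    exact ⟨c, c.2, by rw [hc]; rfl⟩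
  have hfac : ∀ x : K, x ∈ O.comap (algebraMap K N) ↔ x = 0 ∨ ∃ (m : ℕ) (u : K),
      u ∈ O.comap (algebraMap K N) ∧ u⁻¹ ∈ O.comap (algebraMap K N) ∧ x = u * (p : K) ^ m := by
    intro x
    constructor
    · intro hx
      by_cases hx0 : x = 0
      · exact Or.inl hx0
      · right
        obtain ⟨m, u, hu⟩ := IsDiscreteValuationRing.eq_unit_mul_pow_irreducible
          (x := (⟨x, hx⟩ : O.comap (algebraMap K N)))
          (fun h0 => hx0 (congrArg Subtype.val h0)) hp
        have huv : ((u : O.comap (algebraMap K N)) : K) *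
            ((u⁻¹ : (O.comap (algebraMap K N))ˣ) : O.comap (algebraMap K N)) = 1 := by
          have := congrArg Subtype.val u.mul_inv
          exact this
        refine ⟨m, ((u : O.comap (algebraMap K N)) : K), (u : O.comap (algebraMap K N)).2, ?_, ?_⟩
        · rw [← eq_inv_of_mul_eq_one_right huv]
          exact ((u⁻¹ : (O.comap (algebraMap K N))ˣ) : O.comap (algebraMap K N)).2
        · have := congrArg Subtype.val hu
          exact this
    · rintro (rfl | ⟨m, u, hu, -, rfl⟩)
      · exact zero_mem _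
      · exact mul_mem hu (pow_mem p.2 m)
  -- a denominator for `q`
  have hden : ∃ n : ℕ, (p : K) ^ n * q ∈ O.comap (algebraMap K N) := by
    rcases (O.comap (algebraMap K N)).mem_or_inv_mem q with h | h
    · exact ⟨0, by simpa using h⟩
    · rcases (hfac _).1 h with h0 | ⟨m, u, hu, hu', he⟩
      · refine ⟨0, ?_⟩
        rw [inv_eq_zero] at h0
        rw [h0, mul_zero]
        exact zero_mem _
      · refine ⟨m, ?_⟩
        have hq : q = u⁻¹ * ((p : K) ^ m)⁻¹ := by
          rw [← mul_inv, ← he, inv_inv]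
        have : (p : K) ^ m * q = u⁻¹ := by
          rw [hq, mul_comm, mul_assoc, inv_mul_cancel₀ (pow_ne_zero _ hp0), mul_one]
        rw [this]
        exact hu'
  obtain ⟨n, hn⟩ := hden
  exact Ram.claim h1 h2 K L N i j O hji hgood (ht O hO) (p : K) hp0 p.2 hmax hfac n q s hs hn

end W487T
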