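import Pool.Agent.W487.T.Stm

/-!
Project TT: from the inertia group to the ramification group in characteristic two.
-/

set_option autoImplicit false

namespace W487T

namespace Wild

variable {K N : Type} [Field K] [Field N] [Algebra K N] (O : ValuationSubring N)

theorem val_le {σ : N ≃ₐ[K] N} (h : ∀ x ∈ O, O.valuation (σ x - x) < 1) {x : N}
    (hx : O.valuation x ≤ 1) : O.valuation (σ x) ≤ 1 := by
  have h1 : σ x = (σ x - x) + x := by ring
  rw [h1]
  exact (O.valuation.map_add _ _).trans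
    (max_le (h x ((O.valuation_le_one_iff x).1 hx)).le hx)

theorem val_lt {σ : N ≃ₐ[K] N} (h : ∀ x ∈ O, O.valuation (σ x - x) < 1) {x : N}
    (hx : O.valuation x < 1) : O.valuation (σ x) < 1 := by
  have h1 : σ x = (σ x - x) + x := by ring
  rw [h1]
  exact O.valuation.map_add_lt (h x ((O.valuation_le_one_iff x).1 hx.le)) hx

theorem inertia_pow (σ : N ≃ₐ[K] N) (h : ∀ x ∈ O, O.valuation (σ x - x) < 1) (k : ℕ) :
    ∀ x ∈ O, O.valuation ((σ ^ k) x - x) < 1 := by
  induction k with
  | zero =>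
    intro x _
    simp
  | succ k ih =>
    intro x hx
    have h1 : (σ ^ (k + 1)) x - x = (σ ((σ ^ k) x) - (σ ^ k) x) + ((σ ^ k) x - x) := by
      rw [pow_succ', AlgEquiv.mul_apply]
      ring
    rw [h1]
    apply O.valuation.map_add_lt _ (ih x hx)
    apply h
    exact (O.valuation_le_one_iff _).1 (val_le O ih ((O.valuation_le_one_iff _).2 hx))

theorem prod_lt (τ : N ≃ₐ[K] N) (h : ∀ x ∈ O, O.valuation (τ x - x) < 1) (y : N)
    (hy : O.valuation y < 1) (n : ℕ) :
    O.valuation (∏ i ∈ Finset.range (n + 1), (τ ^ i) y) < 1 := by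
  induction n with
  | zero => simpa using hy
  | succ n ih =>
    rw [Finset.prod_range_succ, map_mul]
    exact mul_lt_one_of_lt_of_le ih (val_lt O (inertia_pow O τ h (n + 1)) hy).le

theorem prod_sub (τ : N ≃ₐ[K] N) (h : ∀ x ∈ O, O.valuation (τ x - x) < 1) (z : N)
    (hz : O.valuation z ≤ 1) (n : ℕ) :
    O.valuation (∏ i ∈ Finset.range n, (τ ^ i) z - z ^ n) < 1 := by
  induction n with
  | zero => simp
  | succ n ih =>
    have h1 : ∏ i ∈ Finset.range (n + 1), (τ ^ i) z - z ^ (n + 1) =
        (∏ i ∈ Finset.range n, (τ ^ i) z - z ^ n) * (τ ^ n) z + z ^ n * ((τ ^ n) z - z) := by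
      rw [Finset.prod_range_succ]
      ring
    rw [h1]
    apply O.valuation.map_add_lt
    · rw [map_mul]
      exact mul_lt_one_of_lt_of_le ih (val_le O (inertia_pow O τ h n) hz)
    · rw [map_mul, mul_comm]
      apply mul_lt_one_of_lt_of_le
      · exact inertia_pow O τ h n z ((O.valuation_le_one_iff z).1 hz)
      · rw [map_pow]
        exact pow_le_one' hz n

theorem telescope (τ : N ≃ₐ[K] N) (x : N) (hx : x ≠ 0) (n : ℕ) :
    ∏ i ∈ Finset.range n, (τ ^ i) (τ x / x) = (τ ^ n) x / x := by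
  induction n with
  | zero => simp [hx]
  | succ n ih =>
    rw [Finset.prod_range_succ, ih, map_div₀, pow_succ, AlgEquiv.mul_apply]
    have h1 : (τ ^ n) x ≠ 0 := by
      intro h0
      exact hx ((map_eq_zero _).1 h0)
    field_simp

end Wild

open Wild in
theorem wild : StmWild := by
  intro K N _ _ _ _ _ _ O s q hs σ hσ hin
  have hN : CharP N 2 := charP_of_injective_algebraMap (algebraMap K N).injective 2
  have hN2 : (2 : N) = 0 := by
    have := CharP.cast_eq_zero N 2
    exact_mod_cast this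
  -- the action on `s`
  have hs1 : σ s = s + 1 := by
    have h1 : (σ s) ^ 2 + σ s = s ^ 2 + s := by
      rw [← map_pow, ← map_add, hs, AlgEquiv.commutes]
    have h2 : (σ s - s) * (σ s + s + 1) = 0 := by
      have : (σ s - s) * (σ s + s + 1) = ((σ s) ^ 2 + σ s) - (s ^ 2 + s) := by ring
      rw [this, h1, sub_self]
    rcases mul_eq_zero.1 h2 with h3 | h3
    · exact absurd (sub_eq_zero.1 h3) hσ
    · have : σ s - (s + 1) = (σ s + s + 1) - 2 * (s + 1) := by ring
      rw [h3, hN2, zero_mul, sub_zero] at this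
      exact sub_eq_zero.1 this
  have hsk : ∀ k : ℕ, (σ ^ k) s = s + k := by
    intro k
    induction k with
    | zero => simp
    | succ k ih =>
      rw [pow_succ', AlgEquiv.mul_apply, ih, map_add, hs1, map_natCast]
      push_cast
      ring
  have hfin : orderOf σ ≠ 0 := (orderOf_pos σ).ne'
  obtain ⟨a, m, hm, hord⟩ := Nat.exists_eq_two_pow_mul_odd hfin
  have hτ : ∀ x ∈ O, O.valuation ((σ ^ m) x - x) < 1 := inertia_pow O σ hin m
  refine ⟨σ ^ m, ?_, ?_⟩
  · rw [hsk]
    obtain ⟨j, rfl⟩ := hm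
    intro h
    have h1 : ((2 * j + 1 : ℕ) : N) = 0 := by
      have h2 := add_eq_left.1 h
      exact h2
    push_cast at h1
    rw [hN2, zero_mul, zero_add] at h1
    exact one_ne_zero h1
  · intro x hx
    set τ := σ ^ m with hτdef
    have hτe : τ ^ (2 ^ a) = 1 := by
      rw [hτdef, ← pow_mul, mul_comm, ← hord, pow_orderOf_eq_one]
    obtain ⟨e, he⟩ : ∃ e, 2 ^ a = e + 1 := ⟨2 ^ a - 1, by
      have : 1 ≤ 2 ^ a := Nat.one_le_two_pow
      omega⟩
    have htel : ∏ i ∈ Finset.range (2 ^ a), (τ ^ i) (τ x / x) = 1 := by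
      rw [telescope τ x hx, hτe, AlgEquiv.one_apply, div_self hx]
    have hz0 : τ x / x ≠ 0 := by
      apply div_ne_zero _ hx
      intro h0
      exact hx ((map_eq_zero _).1 h0)
    set z := τ x / x with hz
    have hnlt : ¬ O.valuation z < 1 := by
      intro hlt
      have h1 := prod_lt O τ hτ z hlt e
      rw [← he, htel, map_one] at h1
      exact lt_irrefl _ h1
    have hle : O.valuation z ≤ 1 := by
      by_contra hgt
      rw [not_le] at hgt
      have hlt : O.valuation z⁻¹ < 1 := by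
        rw [map_inv₀]
        exact inv_lt_one_of_one_lt₀ hgt
      have h1 := prod_lt O τ hτ z⁻¹ hlt e
      have h2 : ∏ i ∈ Finset.range (e + 1), (τ ^ i) z⁻¹ = 1 := by
        rw [← he]
        have h3 : ∀ i ∈ Finset.range (2 ^ a), (τ ^ i) z⁻¹ = ((τ ^ i) z)⁻¹ := by
          intro i _
          rw [map_inv₀]
        rw [Finset.prod_congr rfl h3, Finset.prod_inv_distrib, htel, inv_one]
      rw [h2, map_one] at h1
      exact lt_irrefl _ h1
    have h1 := prod_sub O τ hτ z hle (2 ^ a)
    rw [htel, Valuation.map_sub_swap] at h1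
    have h2 : z ^ (2 ^ a) - 1 = (z - 1) ^ (2 ^ a) := by
      rw [sub_pow_char_pow, one_pow]
    rw [h2, map_pow] at h1
    by_contra hcon
    rw [not_lt] at hcon
    exact absurd h1 (not_lt.2 (one_le_pow_of_one_le' hcon _))

end W487T
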