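import Mathlib
import Pool.Agent.W487.T.BC
import Pool.Agent.W487.T.CE
import Pool.Agent.W487.T.In
import Pool.Agent.W487.T.Wild
import Pool.Agent.W487.T.Ram

noncomputable section

namespace W487T

lemma field_step {K L Φ : Type} [Field K] [Field L] [Field Φ] [CharP Φ 2] (i : K →+* L)
    (k : K →+* Φ) (w : ValuationSubring L) (v : ValuationSubring Φ)
    (hwv : w.comap i = v.comap k) (ht : IsTame i w) (hg : Good v) (q x : K) (a b : L) (ω : Φ)
    (hω : ω ^ 2 + ω + 1 = 0) (hb : b ^ 2 + b = i x) (ha : a ^ 2 + a + b ^ 2 = i q) :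
    ∃ f ∈ v, ∃ g : Φ, k q + ω * k x = f + g ^ 2 + g := by
  obtain ⟨Ω, _, α, β, O, hαβ, hα, hβ⟩ := ce _ _ _ i k w v hwv
  let L' : Subfield Ω := α.fieldRange ⊔ β.fieldRange
  have h1 : ∀ z, α z ∈ L' := fun z => (le_sup_left : α.fieldRange ≤ L') ⟨z, rfl⟩
  have h2 : ∀ z, β z ∈ L' := fun z => (le_sup_right : β.fieldRange ≤ L') ⟨z, rfl⟩
  let l : L →+* L' := α.codRestrict L' h1
  let i' : Φ →+* L' := β.codRestrict L' h2
  have hcomm : ∀ z, l (i z) = i' (k z) := fun z => Subtype.ext (hαβ z)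
  have hgen : ∀ G : Subfield L', (∀ z, i' z ∈ G) → (∀ z, l z ∈ G) → G = ⊤ := by
    intro G hG1 hG2
    have h3 : L' ≤ G.map L'.subtype := by
      apply sup_le
      · rintro _ ⟨z, rfl⟩
        exact ⟨l z, hG2 z, rfl⟩
      · rintro _ ⟨z, rfl⟩
        exact ⟨i' z, hG1 z, rfl⟩
    rw [eq_top_iff]
    rintro ⟨z, hz⟩ _
    obtain ⟨y, hy, hyz⟩ := h3 hz
    have : y = ⟨z, hz⟩ := Subtype.ext hyz
    rw [← this]
    exact hy
  let w' : ValuationSubring L' := O.comap L'.subtype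
  have hw1 : w'.comap l = w := by
    rw [← hα]
    rfl
  have hw2 : w'.comap i' = v := by
    rw [← hβ]
    rfl
  have ht' : IsTame i' w' := bc _ _ _ _ i k i' l hcomm hgen w' (by rw [hw1]; exact ht)
  have hchar : CharP L' 2 := charP_of_injective_ringHom i'.injective 2
  have h4 : (2 : L') = 0 := CharTwo.two_eq_zero
  have hω' : i' ω ^ 2 + i' ω + 1 = 0 := by
    rw [← map_pow, ← map_add, ← map_one i', ← map_add, hω, map_zero]
  have hb' : l b ^ 2 + l b = i' (k x) := by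
    rw [← hcomm, ← hb, map_add, map_pow]
  have ha' : l a ^ 2 + l a + l b ^ 2 = i' (k q) := by
    rw [← hcomm, ← ha, map_add, map_add, map_pow, map_pow]
  have hs : (l a + i' ω * l b) ^ 2 + (l a + i' ω * l b) = i' (k q + ω * k x) := by
    rw [map_add, map_mul, ← ha', ← hb']
    linear_combination (l b ^ 2) * hω' + (i' ω * l a * l b - l b ^ 2 - i' ω * l b ^ 2) * h4
  have := ram inx wild Φ L' i' w' ht' (by rw [hw2]; exact hg) (k q + ω * k x) _ hs
  rw [hw2] at this
  exact this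

end W487T
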