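import Mathlib
import Pool.Agent.W487.T.Stm2

/-!
An etale morphism is, near a point of the source, faithfully flat etale affine.
-/

namespace W487T

open CategoryTheory Limits Opposite AlgebraicGeometry

theorem geo : StmGeo := by
  intro U W f _ w
  obtain ⟨U0, hU0, hw0, -⟩ := exists_isAffineOpen_mem_and_subset
    (X := U) (x := f w) (U := ⊤) trivial
  obtain ⟨V0, hV0, hwV0, hV0U0⟩ := exists_isAffineOpen_mem_and_subset
    (X := W) (x := w) (U := f ⁻¹ᵁ U0) hw0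
  have e0 : V0 ≤ f ⁻¹ᵁ U0 := hV0U0
  -- the image of `V0` is open
  let I : U.Opens := ⟨f '' (V0 : Set W), f.isOpenMap _ V0.isOpen⟩
  have hwI : f w ∈ I := ⟨w, hwV0, rfl⟩
  obtain ⟨h, hI, hwh⟩ := hU0.exists_basicOpen_le (V := I) ⟨f w, hwI⟩ hw0
  have hU1 : IsAffineOpen (U.basicOpen h) := hU0.basicOpen h
  have hV1 : IsAffineOpen (W.basicOpen ((f.appLE U0 V0 e0).hom h)) := hV0.basicOpen _
  have hV1eq : W.basicOpen ((f.appLE U0 V0 e0).hom h) = V0 ⊓ f ⁻¹ᵁ U.basicOpen h :=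
    Scheme.basicOpen_appLE f V0 U0 e0 h
  have e1 : W.basicOpen ((f.appLE U0 V0 e0).hom h) ≤ f ⁻¹ᵁ U.basicOpen h := by
    rw [hV1eq]; exact inf_le_right
  have := hU1.isOpenImmersion_fromSpec
  have := hV1.isOpenImmersion_fromSpec
  have hcomm := IsAffineOpen.SpecMap_appLE_fromSpec f hU1 hV1 e1
  obtain ⟨a, ha⟩ : f w ∈ Set.range hU1.fromSpec := by
    rw [hU1.range_fromSpec]; exact hwh
  refine ⟨_, _, f.appLE _ _ e1, hU1.fromSpec, hV1.fromSpec, a, inferInstance, inferInstance,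
    hcomm.symm, ?_, f.etale_appLE hU1 hV1 e1, ha⟩
  rw [RingHom.FaithfullyFlat.iff_flat_and_comap_surjective]
  refine ⟨f.flat_appLE hU1 hV1 e1, ?_⟩
  intro p
  have hp : hU1.fromSpec p ∈ U.basicOpen h := by
    have : hU1.fromSpec p ∈ Set.range hU1.fromSpec := ⟨p, rfl⟩
    rw [hU1.range_fromSpec] at this
    exact this
  obtain ⟨v, hv, hvp⟩ := hI hp
  have hv1 : v ∈ W.basicOpen ((f.appLE U0 V0 e0).hom h) := by
    rw [hV1eq]
    refine ⟨hv, ?_⟩
    show f v ∈ U.basicOpen h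
    rw [hvp]; exact hp
  obtain ⟨b, hb⟩ : v ∈ Set.range hV1.fromSpec := by
    rw [hV1.range_fromSpec]; exact hv1
  refine ⟨b, ?_⟩
  have h1 : (Spec.map (f.appLE _ _ e1) ≫ hU1.fromSpec) b = (hV1.fromSpec ≫ f) b := by
    rw [hcomm]
  rw [Scheme.Hom.comp_apply, Scheme.Hom.comp_apply, hb, hvp] at h1
  exact hU1.fromSpec.isOpenEmbedding.injective h1

end W487T
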