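import Mathlib
import Pool.Agent.W487.Basic

open CategoryTheory Limits Opposite Abelian
open Pool.Agent.W487

noncomputable section

namespace W487T

variable {C : Type 1} [Category.{0} C] {J J' : GrothendieckTopology C}

instance grAb (J : GrothendieckTopology C) :
    IsGrothendieckAbelian.{1} (Sheaf J AddCommGrpCat.{1}) := by
  have : EssentiallySmall.{1} C := inferInstance
  exact Sheaf.isGrothendieckAbelian_of_essentiallySmall J AddCommGrpCat.{1}

instance hasExtJ (J : GrothendieckTopology C) : HasExt.{1} (Sheaf J AddCommGrpCat.{1}) :=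
  inferInstance

/-- change of topology: the same presheaf is a sheaf for a coarser topology -/
def chg (h : J' ≤ J) : Sheaf J AddCommGrpCat.{1} ⥤ Sheaf J' AddCommGrpCat.{1} where
  obj F := ⟨F.obj, fun E => Presieve.isSheaf_of_le _ h (F.property E)⟩
  map φ := ⟨φ.hom⟩

instance (h : J' ≤ J) : (chg h).Additive := ⟨by intros; rfl⟩

/-- restriction of cohomology classes -/
def rsc {T T' : C} (f : T' ⟶ T) {A : Sheaf J AddCommGrpCat.{1}} {n : ℕ}
    (x : Ext ((ZF J).obj T) A n) : Ext ((ZF J).obj T') A n :=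
  (Ext.mk₀ ((ZF J).map f)).comp x (zero_add n)

section rsc

variable {T T' T'' : C} {A B : Sheaf J AddCommGrpCat.{1}} {n : ℕ}

lemma res_comp (f : T' ⟶ T) (g : T'' ⟶ T') (x : Ext ((ZF J).obj T) A n) :
    rsc (g ≫ f) x = rsc g (rsc f x) := by
  simp only [rsc, Functor.map_comp]
  rw [← Ext.mk₀_comp_mk₀_assoc]

lemma res_id (x : Ext ((ZF J).obj T) A n) : rsc (𝟙 T) x = x := by
  simp [rsc]

lemma res_add (f : T' ⟶ T) (x y : Ext ((ZF J).obj T) A n) :
    rsc f (x + y) = rsc f x + rsc f y := by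
  simp [rsc]

lemma res_zero (f : T' ⟶ T) : rsc f (0 : Ext ((ZF J).obj T) A n) = 0 := by
  simp [rsc]

lemma res_mk₀ (f : T' ⟶ T) (x : (ZF J).obj T ⟶ A) :
    rsc f (Ext.mk₀ x) = Ext.mk₀ ((ZF J).map f ≫ x) := by
  simp [rsc]

lemma res_postcomp (f : T' ⟶ T) {a b : ℕ} (x : Ext ((ZF J).obj T) A a)
    (y : Ext A B b) (h : a + b = n) : rsc f (x.comp y h) = (rsc f x).comp y h := by
  simp only [rsc]
  rw [Ext.comp_assoc _ _ _ _ _ (by lia)]

end rsc

lemma loc_of_exact {S : ShortComplex (Sheaf J AddCommGrpCat.{1})} (hS : S.Exact)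
    {T : C} (y : S.X₂.obj.obj (op T)) (hy : S.g.hom.app (op T) y = 0) :
    ∃ R ∈ J T, ∀ (T' : C) (f : T' ⟶ T), R f →
      ∃ a : S.X₁.obj.obj (op T'), S.f.hom.app (op T') a = S.X₂.obj.map f.op y := by
  rw [ShortComplex.exact_iff_epi_kernel_lift] at hS
  have h : (ofSec y : (ZF J).obj T ⟶ S.X₂) ≫ S.g = 0 := by
    apply sec_injective
    simpa using hy
  obtain ⟨R, hR, hR'⟩ := epi_loc (kernel.lift S.g S.f S.zero) (sec (kernel.lift S.g _ h))
  refine ⟨R, hR, fun T' f hf => ?_⟩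
  obtain ⟨a, ha⟩ := hR' T' f hf
  refine ⟨a, ?_⟩
  have h1 := congrArg ((kernel.ι S.g).hom.app (op T')) ha
  have h2 := congr(($(kernel.lift_ι S.g S.f S.zero)).hom.app (op T') a)
  refine h2.symm.trans (h1.trans ?_)
  have h3 := congr($((kernel.ι S.g).hom.naturality f.op) (sec (kernel.lift S.g _ h)))
  refine h3.trans ?_
  have h4 : (kernel.ι S.g).hom.app (op T) (sec (kernel.lift S.g _ h)) = y := by
    rw [← sec_comp, kernel.lift_ι, sec_ofSec]
  exact congrArg (S.X₂.obj.map f.op) h4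

lemma mono_desc {A : Type 2} [Category.{1} A] [Abelian A] {X Y Z : A} (f : X ⟶ Y) (g : Y ⟶ Z)
    (w : f ≫ g = 0) (h : (ShortComplex.mk f g w).Exact) : Mono (cokernel.desc f g w) :=
  (ShortComplex.exact_iff_mono_cokernel_desc (ShortComplex.mk f g w)).1 h

/-- if `R² β_* F = 0` then classes of degree two vanish locally for the coarser topology -/

theorem vanish_two (h : J' ≤ J) (F : Sheaf J AddCommGrpCat.{1})
    (hF : IsZero (((chg h).rightDerived 2).obj F)) {T : C} (e : Ext ((ZF J).obj T) F 2) :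
    ∃ R ∈ J' T, ∀ (T' : C) (f : T' ⟶ T), R f → rsc f e = 0 := by
  obtain ⟨I⟩ : Nonempty (InjectiveResolution F) := ⟨InjectiveResolution.of F⟩
  -- exactness of the pushed forward complex in degree two
  have h1 : ((((chg h).mapHomologicalComplex _).obj I.cocomplex).ExactAt 2) := by
    rw [HomologicalComplex.exactAt_iff_isZero_homology]
    exact hF.of_iso (I.isoRightDerivedObj (chg h) 2).symm
  rw [HomologicalComplex.exactAt_iff' _ 1 2 3 (by simp) (by simp)] at h1
  -- first short exact sequence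
  let i0 : F ⟶ I.cocomplex.X 0 := I.ι.f 0
  have hi0 : Mono i0 := inferInstanceAs (Mono (I.ι.f 0))
  have hz0 : i0 ≫ I.cocomplex.d 0 1 = 0 := I.ι_f_zero_comp_complex_d
  have hex0 : (ShortComplex.mk i0 (I.cocomplex.d 0 1) hz0).Exact := I.exact₀
  let S0 := ShortComplex.mk i0 _ (cokernel.condition i0)
  have hS0 : S0.ShortExact := { exact := ShortComplex.exact_cokernel i0 }
  let m1 : cokernel i0 ⟶ I.cocomplex.X 1 := cokernel.desc i0 (I.cocomplex.d 0 1) hz0
  have hm1 : Mono m1 := mono_desc _ _ hz0 hex0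
  have hm1' : cokernel.π i0 ≫ m1 = I.cocomplex.d 0 1 := cokernel.π_desc _ _ _
  let S1 := ShortComplex.mk m1 _ (cokernel.condition m1)
  have hS1 : S1.ShortExact := { exact := ShortComplex.exact_cokernel m1 }
  have hz1 : m1 ≫ I.cocomplex.d 1 2 = 0 := by
    have h3 : I.cocomplex.d 0 1 ≫ I.cocomplex.d 1 2 = 0 := I.cocomplex.d_comp_d 0 1 2
    rw [← hm1', Category.assoc] at h3
    exact (cancel_epi (cokernel.π i0)).1 (h3.trans comp_zero.symm)
  have hex1 : (ShortComplex.mk m1 (I.cocomplex.d 1 2) hz1).Exact := by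
    have h2 := I.exact_succ 0
    let φ : (ShortComplex.mk (I.cocomplex.d 0 1) (I.cocomplex.d 1 2)
        (I.cocomplex.d_comp_d 0 1 2)) ⟶ (ShortComplex.mk m1 (I.cocomplex.d 1 2) hz1) :=
      { τ₁ := cokernel.π i0
        τ₂ := 𝟙 _
        τ₃ := 𝟙 _
        comm₁₂ := by simp [hm1']
        comm₂₃ := by simp }
    have : Epi φ.τ₁ := inferInstanceAs (Epi (cokernel.π i0))
    have : IsIso φ.τ₂ := inferInstanceAs (IsIso (𝟙 _))
    have : Mono φ.τ₃ := inferInstanceAs (Mono (𝟙 _))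
    exact (ShortComplex.exact_iff_of_epi_of_isIso_of_mono φ).1 h2
  let m2 : cokernel m1 ⟶ I.cocomplex.X 2 := cokernel.desc m1 (I.cocomplex.d 1 2) hz1
  have hm2 : Mono m2 := mono_desc _ _ hz1 hex1
  have hm2' : cokernel.π m1 ≫ m2 = I.cocomplex.d 1 2 := cokernel.π_desc _ _ _
  have hm2d : m2 ≫ I.cocomplex.d 2 3 = 0 := by
    have h3 : I.cocomplex.d 1 2 ≫ I.cocomplex.d 2 3 = 0 := I.cocomplex.d_comp_d 1 2 3
    rw [← hm2', Category.assoc] at h3
    exact (cancel_epi (cokernel.π m1)).1 (h3.trans comp_zero.symm)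
  have hinj0 : Injective S0.X₂ := I.injective 0
  have hinj1 : Injective S1.X₂ := I.injective 1
  obtain ⟨e1, rfl⟩ := Ext.covariant_sequence_exact₁ _ hS0 e
    (Ext.eq_zero_of_injective _) (n₀ := 1) rfl
  obtain ⟨z, rfl⟩ := Ext.covariant_sequence_exact₁ _ hS1 e1
    (Ext.eq_zero_of_injective _) (n₀ := 0) rfl
  obtain ⟨k, rfl⟩ := (Ext.mk₀_bijective _ _).2 z
  have hk : k ≫ m2 ≫ I.cocomplex.d 2 3 = 0 := by
    have : k ≫ m2 ≫ I.cocomplex.d 2 3 = k ≫ 0 := congrArg (k ≫ ·) hm2d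
    rw [this, comp_zero]
  let y : (I.cocomplex.X 2).obj.obj (op T) := sec (k ≫ m2)
  have hy : (I.cocomplex.d 2 3).hom.app (op T) y = 0 := by
    have := congrArg sec hk
    rw [← Category.assoc, sec_comp] at this
    exact this
  obtain ⟨R, hR, hR'⟩ := loc_of_exact h1 (T := T) y hy
  have hR2 : ∀ (T' : C) (f : T' ⟶ T), R f → ∃ a : (I.cocomplex.X 1).obj.obj (op T'),
    (I.cocomplex.d 1 2).hom.app (op T') a = (I.cocomplex.X 2).obj.map f.op y := hR'
  refine ⟨R, hR, fun T' f hf => ?_⟩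
  obtain ⟨a, ha⟩ := hR2 T' f hf
  have h5 : (ZF J).map f ≫ k = ofSec (A := S1.X₂) a ≫ S1.g := by
    have hm2'' : Mono m2 := hm2
    rw [← cancel_mono m2]
    apply sec_injective
    rw [Category.assoc, sec_map_comp, Category.assoc]
    have h6 : S1.g ≫ m2 = I.cocomplex.d 1 2 := hm2'
    rw [h6, sec_comp (A := I.cocomplex.X 1), sec_ofSec]
    exact ha.symm
  rw [res_postcomp, res_postcomp, res_mk₀, h5, ← Ext.mk₀_comp_mk₀,
    Ext.comp_assoc _ _ _ _ (zero_add 1) (by lia), hS1.comp_extClass, Ext.comp_zero,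
    Ext.zero_comp]

end W487T
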