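import Pool.Agent.W487.T.Stm
import Pool.Agent.W417.TT.Gal

/-! Transitivity of tame extensions. -/

set_option autoImplicit false

open Polynomial Pool.Agent.W417.TT

namespace W487T

namespace Trans

/-- a finite separable extension is contained in a finite Galois extension -/
theorem galois_over {K N Ω : Type} [Field K] [Field N] [Field Ω] [IsAlgClosed Ω] [Algebra K N]
    [FiniteDimensional K N] [Algebra.IsSeparable K N] [Algebra K Ω] (f : N →ₐ[K] Ω) :
    ∃ N' : IntermediateField K Ω, FiniteDimensional K N' ∧ IsGalois K N' ∧ ∀ x, f x ∈ N' := by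
  refine ⟨IntermediateField.normalClosure K N Ω, inferInstance, ?_, fun x =>
    f.fieldRange_le_normalClosure ⟨x, rfl⟩⟩
  have h1 : IsNormalClosure K N (IntermediateField.normalClosure K N Ω) :=
    Algebra.IsAlgebraic.isNormalClosure_normalClosure fun x => IsAlgClosed.splits _
  have h2 : Normal K (IntermediateField.normalClosure K N Ω) := IsNormalClosure.normal (K := N)
  have h3 : Algebra.IsSeparable K (IntermediateField.normalClosure K N Ω) := by
    rw [← le_separableClosure_iff, _root_.normalClosure_le_iff]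
    rintro g _ ⟨x, rfl⟩
    rw [mem_separableClosure_iff]
    have h4 := Algebra.IsSeparable.isSeparable K x
    unfold IsSeparable at h4 ⊢
    change (minpoly K (g x)).Separable
    rwa [minpoly.algHom_eq g g.injective]
  exact ⟨⟩

end Trans



theorem trans : StmTrans := by
  intro K L M _ _ _ i j w hT1 hT2
  obtain ⟨N1, _, _, j1, hfd1, hgal1, hj1, hram1⟩ := hT1
  obtain ⟨N2, _, _, j2, hfd2, hgal2, hj2, hram2⟩ := hT2
  let _ : Algebra K L := i.toAlgebra
  let _ : Algebra K N2 := ((algebraMap L N2).comp i).toAlgebra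
  have st : IsScalarTower K L N2 := IsScalarTower.of_algebraMap_eq fun _ => rfl
  let J1 : L →ₐ[K] N1 := { j1 with commutes' := hj1 }
  have hfdL : FiniteDimensional K L :=
    FiniteDimensional.of_injective J1.toLinearMap J1.injective
  have hsepL : Algebra.IsSeparable K L := Algebra.IsSeparable.of_algHom K N1 J1
  have hfdN2 : FiniteDimensional K N2 := FiniteDimensional.trans K L N2
  have hsepN2 : Algebra.IsSeparable K N2 := Algebra.IsSeparable.trans K L N2
  let Ω := AlgebraicClosure N2
  let f2 : N2 →ₐ[K] Ω := IsScalarTower.toAlgHom K N2 Ω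
  obtain ⟨e1, he1⟩ := exists_embed i j1 hj1 ((algebraMap N2 Ω).comp (algebraMap L N2))
  have he1K : ∀ x, e1 (algebraMap K N1 x) = algebraMap K Ω (RingHom.id K x) := by
    intro x
    rw [← hj1, he1]
    rfl
  obtain ⟨Na, hfda, hgala, hNa⟩ := Trans.galois_over f2
  obtain ⟨Nb, hfdb, hgalb, hNb⟩ := exists_galois (RingHom.id K) e1 he1K
  let N : IntermediateField K Ω := Na ⊔ Nb
  have hfdN : FiniteDimensional K N := IntermediateField.finiteDimensional_sup Na Nb
  have hnorm : Normal K N := IntermediateField.normal_sup K Ω Na Nb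
  have hsep : Algebra.IsSeparable K N := IntermediateField.isSeparable_sup K Ω Na Nb
  have hgal : IsGalois K N := ⟨⟩
  have h1N : ∀ x, e1 x ∈ N := fun x => (le_sup_right : Nb ≤ N) (hNb x)
  have h2N : ∀ x, f2 x ∈ N := fun x => (le_sup_left : Na ≤ N) (hNa x)
  let e1' : N1 →+* N := e1.codRestrict N h1N
  let e2' : N2 →+* N := (f2 : N2 →+* Ω).codRestrict N h2N
  let jN : M →+* N := e2'.comp j2
  have hjN : ∀ x, jN ((j.comp i) x) = algebraMap K N x := by
    intro x
    apply Subtype.ext
    change f2 (j2 (j (i x))) = algebraMap K Ω x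
    rw [hj2]
    rfl
  have h12 : ∀ y : L, e1' (j1 y) = jN (j y) := by
    intro y
    apply Subtype.ext
    change e1 (j1 y) = f2 (j2 (j y))
    rw [he1, hj2]
    rfl
  refine ⟨N, inferInstance, inferInstance, jN, hfdN, hgal, hjN, ?_⟩
  intro v hv σ hσ
  have hfixL : ∀ y : L, σ (jN (j y)) = jN (j y) := by
    obtain ⟨t, ht⟩ := exists_restrict (RingHom.id K) e1' (fun x => Subtype.ext (he1K x)) σ
    have hc : (v.comap e1').comap j1 = w.comap j := by
      rw [← hv, ValuationSubring.comap_comap, ValuationSubring.comap_comap]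
      congr 1
      ext y
      exact congrArg Subtype.val (h12 y)
    have hr := hram1 (v.comap e1') hc t (by
      intro x hx
      rw [val_comap, map_sub, map_div₀, map_one, ht]
      exact hσ (e1' x) ((map_ne_zero e1').2 hx))
    intro y
    rw [← h12, ← ht, hr]
  let _ : Algebra L N := (jN.comp j).toAlgebra
  let σ' : N ≃ₐ[L] N := AlgEquiv.ofRingEquiv (f := σ.toRingEquiv) (fun y => hfixL y)
  obtain ⟨t, ht⟩ := exists_restrict (RingHom.id L) e2' (fun y => by
    change e2' (algebraMap L N2 y) = e2' (j2 (j y))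
    rw [hj2]) σ'
  have hc : (v.comap e2').comap j2 = w := by
    rw [← hv, ValuationSubring.comap_comap]
  have hr := hram2 (v.comap e2') hc t (by
    intro x hx
    rw [val_comap, map_sub, map_div₀, map_one, ht]
    exact hσ (e2' x) ((map_ne_zero e2').2 hx))
  intro y
  change σ' (e2' (j2 y)) = e2' (j2 y)
  rw [← ht, hr]

end W487T
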