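import Mathlib
import Pool.Agent.W487.T.SVal
import Pool.Agent.W487.T.BC
import Pool.Agent.W487.T.Trans
import Pool.Agent.W487.T.CE

open CategoryTheory Limits Opposite AlgebraicGeometry

noncomputable section

namespace W487T

variable {Y : Scheme.{0}}

/-- the scheme of an object of the small etale site -/
abbrev sch (U : Y.Etale) : Scheme.{0} := U.left

/-- the morphism of schemes of a morphism of the small etale site -/
abbrev mor {U V : Y.Etale} (f : U ⟶ V) : sch U ⟶ sch V := f.left

/-- the structure morphism to `S = Spec A` of an object of the small etale site of `Y / S` -/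
abbrev str {A : CommRingCat.{0}} (p : Y ⟶ Spec A) (U : Y.Etale) : sch U ⟶ Spec A := U.hom ≫ p

/-- the valuation `y` of `W` is tamely ramified over its image under `f` -/
def TameAt {W U : Scheme.{0}} (f : W ⟶ U) (y : SVal W) : Prop :=
  IsTame (f.residueFieldMap y.pt).hom y.val

/-- every `S`-valuation of `U` is the image of a valuation of a member of the sieve which is
tamely ramified over it -/
def TameCover {A : CommRingCat.{0}} (p : Y ⟶ Spec A) {U : Y.Etale} (R : Sieve U) : Prop :=
  ∀ x : SVal (sch U), x.IsOver (str p U) →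
    ∃ (W : Y.Etale) (f : W ⟶ U) (y : SVal (sch W)), R f ∧ y.map (mor f) = x ∧ TameAt (mor f) y

/-- the fibre product in the small etale site, as an object -/
def pbObj {U V W : Y.Etale} (g : V ⟶ U) (f : W ⟶ U) : Y.Etale :=
  MorphismProperty.Over.mk ⊤ (pullback.fst g.left f.left ≫ V.hom) (by
    have : Etale V.hom := V.prop
    have : Etale f.left := inferInstance
    infer_instance)

def pbFst {U V W : Y.Etale} (g : V ⟶ U) (f : W ⟶ U) : pbObj g f ⟶ V :=
  MorphismProperty.Over.homMk (pullback.fst g.left f.left) rfl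

def pbSnd {U V W : Y.Etale} (g : V ⟶ U) (f : W ⟶ U) : pbObj g f ⟶ W :=
  MorphismProperty.Over.homMk (pullback.snd g.left f.left) (by
    have h1 : f.left ≫ U.hom = W.hom := MorphismProperty.Over.w f
    have h2 : g.left ≫ U.hom = V.hom := MorphismProperty.Over.w g
    change pullback.snd g.left f.left ≫ W.hom = pullback.fst g.left f.left ≫ V.hom
    rw [← h1, ← h2, pullback.condition_assoc])

lemma pb_w {U V W : Y.Etale} (g : V ⟶ U) (f : W ⟶ U) : pbFst g f ≫ g = pbSnd g f ≫ f := by
  apply MorphismProperty.Over.Hom.ext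
  exact pullback.condition

lemma pb_isPullback {U V W : Y.Etale} (g : V ⟶ U) (f : W ⟶ U) :
    IsPullback (pbSnd g f).left (pbFst g f).left f.left g.left :=
  (IsPullback.of_hasPullback g.left f.left).flip

lemma tame_id {K L : Type} [Field K] [Field L] (i : K →+* L) (hi : Function.Bijective i)
    (w : ValuationSubring L) : IsTame i w := by
  let e : K ≃+* L := RingEquiv.ofBijective i hi
  refine ⟨K, inferInstance, inferInstance, e.symm.toRingHom, inferInstance, inferInstance,
    fun x => e.symm_apply_apply x, fun v hv σ hσ y => σ.commutes _⟩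

lemma tameCover_top {A : CommRingCat.{0}} (p : Y ⟶ Spec A) (U : Y.Etale) :
    TameCover p (⊤ : Sieve U) := fun x _ =>
  ⟨U, 𝟙 U, x, trivial, SVal.map_id x, tame_id _ (by
    have h : (𝟙 U : U ⟶ U).left = 𝟙 U.left := rfl
    have : IsIso ((𝟙 U : U ⟶ U).left.residueFieldMap x.pt) := by
      rw [h]
      infer_instance
    exact ConcreteCategory.bijective_of_isIso _) _⟩

lemma tameCover_pullback {A : CommRingCat.{0}} (p : Y ⟶ Spec A) {U V : Y.Etale} {R : Sieve U}
    (g : V ⟶ U) (hR : TameCover p R) : TameCover p (R.pullback g) := by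
  intro x hx
  have h1 : (x.map g.left).IsOver (U.hom ≫ p) := by
    rw [SVal.isOver_map_iff, ← Category.assoc]
    have h2 : g.left ≫ U.hom = V.hom := MorphismProperty.Over.w g
    rw [h2]
    exact hx
  obtain ⟨W, f, y, hf, hy, ht⟩ := hR _ h1
  obtain ⟨Ω, _, O, a, b, hab, ha, hb⟩ := SVal.exists_common ce f.left g.left y x hy
  let c : Spec (.of Ω) ⟶ (pbObj g f).left := pullback.lift b a hab.symm
  have hc1 : c ≫ (pbFst g f).left = b := pullback.lift_fst _ _ _
  have hc2 : c ≫ (pbSnd g f).left = a := pullback.lift_snd _ _ _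
  let z : SVal (pbObj g f).left := SVal.ofPt c O
  have hz1 : z.map (pbFst g f).left = x := by rw [SVal.map_ofPt, hc1, hb]
  have hz2 : z.map (pbSnd g f).left = y := by rw [SVal.map_ofPt, hc2, ha]
  refine ⟨pbObj g f, pbFst g f, z, ?_, hz1, ?_⟩
  · change R (pbFst g f ≫ g)
    rw [pb_w]
    exact R.downward_closed hf _
  · subst hz2
    have e : f.left ((pbSnd g f).left z.pt) = g.left ((pbFst g f).left z.pt) := by
      change ((pbSnd g f).left ≫ f.left) z.pt = ((pbFst g f).left ≫ g.left) z.pt
      rw [(pb_isPullback g f).w]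
    refine bc _ _ _ _ (f.left.residueFieldMap ((pbSnd g f).left z.pt)).hom
      ((U.left.residueFieldCongr e).hom ≫ g.left.residueFieldMap ((pbFst g f).left z.pt)).hom
      ((pbFst g f).left.residueFieldMap z.pt).hom ((pbSnd g f).left.residueFieldMap z.pt).hom
      ?_ ?_ z.val ht
    · intro t
      have h4 := Scheme.Hom.residueFieldMap_congr (pb_isPullback g f).w z.pt
      rw [Scheme.residueFieldMap_comp, Scheme.residueFieldMap_comp] at h4
      exact congr($(h4).hom t)
    · intro F h5 h6
      exact SVal.residue_gen _ _ _ _ (pb_isPullback g f) z.pt F h5 h6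

lemma tameCover_trans {A : CommRingCat.{0}} (p : Y ⟶ Spec A) {U : Y.Etale} {R R' : Sieve U}
    (hR : TameCover p R) (hR' : ∀ ⦃V : Y.Etale⦄ ⦃f : V ⟶ U⦄, R f → TameCover p (R'.pullback f)) :
    TameCover p R' := by
  intro x hx
  obtain ⟨W, f, y, hf, rfl, ht⟩ := hR x hx
  have h1 : y.IsOver (W.hom ≫ p) := by
    have h2 : f.left ≫ U.hom = W.hom := MorphismProperty.Over.w f
    rw [← h2, Category.assoc, ← SVal.isOver_map_iff]
    exact hx
  obtain ⟨T, g, z, hg, rfl, ht'⟩ := hR' hf y h1
  refine ⟨T, g ≫ f, z, hg, SVal.map_comp _ _ _, ?_⟩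
  have h3 := trans _ _ _ (f.left.residueFieldMap (g.left z.pt)).hom
    (g.left.residueFieldMap z.pt).hom z.val ht ht'
  have h4 : (g ≫ f).left.residueFieldMap z.pt =
    f.left.residueFieldMap (g.left z.pt) ≫ g.left.residueFieldMap z.pt :=
    Scheme.residueFieldMap_comp g.left f.left z.pt
  have h5 : ((g ≫ f).left.residueFieldMap z.pt).hom =
    (g.left.residueFieldMap z.pt).hom.comp (f.left.residueFieldMap (g.left z.pt)).hom :=
    congr($(h4).hom)
  change IsTame ((g ≫ f).left.residueFieldMap z.pt).hom z.val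
  rw [h5]
  exact h3

/-- the tame topology on the small etale site of `Y` over `S = Spec A` -/
def tameTop {A : CommRingCat.{0}} (p : Y ⟶ Spec A) : GrothendieckTopology Y.Etale where
  sieves _ := {R | TameCover p R}
  top_mem' _ := tameCover_top p _
  pullback_stable' _ _ _ g hR := tameCover_pullback p g hR
  transitive' _ _ hR _ hR' := tameCover_trans p hR hR'

end W487T
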