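import Mathlib
import Pool.Agent.W487.T.Site
import Pool.Agent.W487.T.ExtL

open CategoryTheory Limits Opposite AlgebraicGeometry

noncomputable section

namespace W487T

variable {Y : Scheme.{0}}

/-- the map of residue fields of `f` at the point `w` is bijective -/
def SameRes {W U : Scheme.{0}} (f : W ⟶ U) (w : W) : Prop :=
  Function.Bijective (f.residueFieldMap w).hom

/-- every point of `U` is the image of a point of a member of the sieve with the same residue
field -/
def NisCover {U : Y.Etale} (R : Sieve U) : Prop :=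
  ∀ u : sch U, ∃ (W : Y.Etale) (f : W ⟶ U) (w : sch W), R f ∧ (mor f) w = u ∧
    SameRes (mor f) w

lemma nisCover_top (U : Y.Etale) : NisCover (⊤ : Sieve U) := fun x =>
  ⟨U, 𝟙 U, x, trivial, rfl, (by
    have h : (𝟙 U : U ⟶ U).left = 𝟙 U.left := rfl
    have : IsIso ((𝟙 U : U ⟶ U).left.residueFieldMap x) := by
      rw [h]
      infer_instance
    exact ConcreteCategory.bijective_of_isIso _)⟩

lemma nisCover_pullback {U V : Y.Etale} {R : Sieve U} (g : V ⟶ U) (hR : NisCover R) :
    NisCover (R.pullback g) := by
  intro x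
  obtain ⟨W, f, w, hf, hw, hb⟩ := hR (g.left x)
  let e : U.left.residueField (f.left w) ≃+* W.left.residueField w :=
    RingEquiv.ofBijective _ hb
  let k : W.left.residueField w ⟶ V.left.residueField x :=
    CommRingCat.ofHom e.symm.toRingHom ≫ (U.left.residueFieldCongr hw).hom ≫
      g.left.residueFieldMap x
  have hk : f.left.residueFieldMap w ≫ k =
      (U.left.residueFieldCongr hw).hom ≫ g.left.residueFieldMap x := by
    have : f.left.residueFieldMap w ≫ CommRingCat.ofHom e.symm.toRingHom = 𝟙 _ := by
      ext a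
      exact e.symm_apply_apply a
    simp only [k]
    rw [← Category.assoc, this, Category.id_comp]
  let a : Spec (V.left.residueField x) ⟶ W.left :=
    Spec.map k ≫ W.left.fromSpecResidueField w
  have ha : V.left.fromSpecResidueField x ≫ g.left = a ≫ f.left := by
    simp only [a]
    rw [Category.assoc, ← Scheme.Hom.SpecMap_residueFieldMap_fromSpecResidueField,
      ← Scheme.Hom.SpecMap_residueFieldMap_fromSpecResidueField, ← Category.assoc,
      ← Spec.map_comp, hk, Spec.map_comp, Category.assoc,
      Scheme.residueFieldCongr_fromSpecResidueField]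
  let c : Spec (V.left.residueField x) ⟶ (pbObj g f).left := pullback.lift _ a ha
  have hc1 : c ≫ (pbFst g f).left = V.left.fromSpecResidueField x := pullback.lift_fst _ _ _
  have hx : (pbFst g f).left (SVal.ptOf (Ω := V.left.residueField x) c) = x := by
    change (c ≫ (pbFst g f).left) _ = x
    rw [hc1]
    exact Scheme.fromSpecResidueField_apply _ _
  refine ⟨pbObj g f, pbFst g f, SVal.ptOf (Ω := V.left.residueField x) c, ?_, hx, ?_⟩
  · change R (pbFst g f ≫ g)
    rw [pb_w]
    exact R.downward_closed hf _
  · refine ⟨RingHom.injective _, ?_⟩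
    have h1 := Scheme.descResidueField_stalkClosedPointTo_fromSpecResidueField
      (V.left.residueField x) (pbObj g f).left c
    have h2 : (Scheme.SpecToEquivOfField (V.left.residueField x) V.left).symm
        ⟨_, (pbFst g f).left.residueFieldMap (SVal.ptOf (Ω := V.left.residueField x) c) ≫
          CommRingCat.ofHom (SVal.fldOf (Ω := V.left.residueField x) c)⟩ =
        (Scheme.SpecToEquivOfField (V.left.residueField x) V.left).symm ⟨x, 𝟙 _⟩ := by
      change Spec.map (_ ≫ _) ≫ V.left.fromSpecResidueField _ =
        Spec.map (𝟙 _) ≫ V.left.fromSpecResidueField x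
      rw [Spec.map_comp, Category.assoc,
        Scheme.Hom.SpecMap_residueFieldMap_fromSpecResidueField, Spec.map_id, Category.id_comp,
        ← hc1, ← Category.assoc]
      congr 1
    obtain ⟨e', he'⟩ := Scheme.SpecToEquivOfField_eq_iff.1
      ((Scheme.SpecToEquivOfField _ _).symm.injective h2)
    intro b
    obtain ⟨b', hb'⟩ := (ConcreteCategory.bijective_of_isIso
      (V.left.residueFieldCongr hx).hom).2
        (SVal.fldOf (Ω := V.left.residueField x) c b)
    refine ⟨b', ?_⟩
    apply (SVal.fldOf (Ω := V.left.residueField x) c).injective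
    refine Eq.trans ?_ hb'
    exact congr($(he').hom b')

lemma nisCover_trans {U : Y.Etale} {R R' : Sieve U} (hR : NisCover R)
    (hR' : ∀ ⦃V : Y.Etale⦄ ⦃f : V ⟶ U⦄, R f → NisCover (R'.pullback f)) : NisCover R' := by
  intro x
  obtain ⟨W, f, y, hf, rfl, ht⟩ := hR x
  obtain ⟨T, g, z, hg, rfl, ht'⟩ := hR' hf y
  refine ⟨T, g ≫ f, z, hg, rfl, ?_⟩
  have h4 : (g ≫ f).left.residueFieldMap z =
    f.left.residueFieldMap (g.left z) ≫ g.left.residueFieldMap z :=
    Scheme.residueFieldMap_comp g.left f.left z
  have h5 : ((g ≫ f).left.residueFieldMap z).hom =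
    (g.left.residueFieldMap z).hom.comp (f.left.residueFieldMap (g.left z)).hom :=
    congr($(h4).hom)
  change Function.Bijective ((g ≫ f).left.residueFieldMap z).hom
  rw [h5]
  exact ht'.comp ht

/-- the Nisnevich topology on the small etale site -/
def nisTop (Y : Scheme.{0}) : GrothendieckTopology Y.Etale where
  sieves _ := {R | NisCover R}
  top_mem' _ := nisCover_top _
  pullback_stable' _ _ _ g hR := nisCover_pullback g hR
  transitive' _ _ hR _ hR' := nisCover_trans hR hR'

lemma nis_le_tame {A : CommRingCat.{0}} (p : Y ⟶ Spec A) : nisTop Y ≤ tameTop p := by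
  intro U R hR x hx
  obtain ⟨W, f, w, hf, hw, hb⟩ := hR x.pt
  obtain ⟨u, v⟩ := x
  obtain rfl : f.left w = u := hw
  let e : U.left.residueField (f.left w) ≃+* W.left.residueField w :=
    RingEquiv.ofBijective _ hb
  refine ⟨W, f, ⟨w, v.comap e.symm.toRingHom⟩, hf, ?_, tame_id _ hb _⟩
  refine (SVal.eq_iff _ _).2 ⟨rfl, ?_⟩
  change (v.comap e.symm.toRingHom).comap (f.left.residueFieldMap w).hom =
    v.comap (RingHom.id _)
  rw [ValuationSubring.comap_comap]
  congr 1
  ext a
  exact e.symm_apply_apply a

lemma tame_le_et {A : CommRingCat.{0}} (p : Y ⟶ Spec A) :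
    tameTop p ≤ Y.smallEtaleTopology := by
  intro U R hR
  change R ∈ Y.smallGrothendieckTopology @Etale U
  rw [Scheme.smallGrothendieckTopology_eq_toGrothendieck_smallPretopology _ le_rfl]
  refine (Scheme.mem_toGrothendieck_smallPretopology (P := @Etale) (Q := @Etale) U R).2
    fun u => ?_
  have h1 : (⟨u, ⊤⟩ : SVal U.left).IsOver (U.hom ≫ p) := by
    rw [SVal.isOver_iff]
    intro a
    exact ValuationSubring.mem_top _
  obtain ⟨W, f, y, hf, hy, -⟩ := hR _ h1
  refine ⟨W, f, y.pt, hf, inferInstance, ?_⟩
  exact congrArg SVal.pt hy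

/-- abelian sheaves on the tame site of `Y` over `Spec A` -/
abbrev ShT {A : CommRingCat.{0}} (p : Y ⟶ Spec A) := Sheaf (tameTop p) AddCommGrpCat.{1}

/-- abelian sheaves on the Nisnevich site of `Y` -/
abbrev ShN (Y : Scheme.{0}) := Sheaf (nisTop Y) AddCommGrpCat.{1}

/-- the change of topology `β_*`, push forward of tame sheaves to the Nisnevich site: the same
presheaf is a sheaf for the coarser Nisnevich topology -/
def beta {A : CommRingCat.{0}} (p : Y ⟶ Spec A) : ShT p ⥤ ShN Y := chg (nis_le_tame p)

instance betaAdditive {A : CommRingCat.{0}} (p : Y ⟶ Spec A) : (beta p).Additive :=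
  inferInstanceAs (chg (nis_le_tame p)).Additive

/-- the constant sheaf `Z/2` on the tame site of `Y` over `Spec A` -/
def constTwo {A : CommRingCat.{0}} (p : Y ⟶ Spec A) : ShT p :=
  (constantSheaf (tameTop p) AddCommGrpCat.{1}).obj (AddCommGrpCat.of (ULift.{1} (ZMod 2)))

/-- the second higher direct image `R² β_* (Z/2)` on the Nisnevich site of `Y` -/
def RTwo {A : CommRingCat.{0}} (p : Y ⟶ Spec A) : ShN Y :=
  ((beta p).rightDerived 2).obj (constTwo p)

end W487T
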