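import Mathlib
import Pool.Agent.W487.T.SVal

open CategoryTheory Limits Opposite AlgebraicGeometry

noncomputable section

namespace W487T

variable {X Z : Scheme.{0}} {Ω : Type} [Field Ω]

/-- the value of a function at a field valued point -/
def valAt (a : Spec (.of Ω) ⟶ X) (z : Γ(X, ⊤)) : Ω :=
  (Scheme.ΓSpecIso (.of Ω)).hom.hom (a.appTop.hom z)

lemma valAt_comp (a : Spec (.of Ω) ⟶ X) (f : X ⟶ Z) (z : Γ(Z, ⊤)) :
    valAt (a ≫ f) z = valAt a (f.appTop.hom z) := by
  simp only [valAt, Scheme.Hom.comp_appTop]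
  rfl

lemma fromSpecResidueField_appTop (x : X) : (X.fromSpecResidueField x).appTop =
    X.Γevaluation x ≫ (Scheme.ΓSpecIso _).inv := by
  have h1 := Scheme.ΓSpecIso_inv_naturality (X.residue x)
  have h2 : (Spec (X.presheaf.stalk x)).presheaf.map
      (homOfLE (le_top : (X.fromSpecStalk x) ⁻¹ᵁ ⊤ ≤ ⊤)).op = 𝟙 _ :=
    (Spec (X.presheaf.stalk x)).presheaf.map_id _
  rw [Scheme.fromSpecResidueField, Scheme.Hom.comp_appTop, Scheme.fromSpecStalk_appTop]
  simp only [Category.assoc]
  refine Eq.trans ?_ (Category.assoc (X.presheaf.germ ⊤ x trivial) (X.residue x) _).symm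
  rw [h1]
  congr 2

lemma valAt_residue (x : X) (χ : X.residueField x →+* Ω) (z : Γ(X, ⊤)) :
    valAt (Spec.map (CommRingCat.ofHom χ) ≫ X.fromSpecResidueField x) z =
      χ (X.Γevaluation x z) := by
  rw [valAt_comp, fromSpecResidueField_appTop]
  have h := Scheme.ΓSpecIso_inv_naturality (CommRingCat.ofHom χ)
  have h2 := congr($(h).hom (X.Γevaluation x z))
  have h3 : (Spec.map (CommRingCat.ofHom χ)).appTop.hom
      ((Scheme.ΓSpecIso (X.residueField x)).inv.hom (X.Γevaluation x z)) =
      (Scheme.ΓSpecIso (.of Ω)).inv.hom (χ (X.Γevaluation x z)) := h2.symm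
  change (Scheme.ΓSpecIso (.of Ω)).hom.hom ((Spec.map (CommRingCat.ofHom χ)).appTop.hom
      ((Scheme.ΓSpecIso (X.residueField x)).inv.hom (X.Γevaluation x z))) = _
  rw [h3]
  exact congr($((Scheme.ΓSpecIso (.of Ω)).inv_hom_id).hom (χ (X.Γevaluation x z)))

lemma congr_eval {x y : X} (e : x = y) (z : Γ(X, ⊤)) :
    (X.residueFieldCongr e).hom.hom (X.Γevaluation x z) = X.Γevaluation y z := by
  subst e
  rfl

lemma valAt_spec {R : CommRingCat.{0}} (ψ : R →+* Ω) (r : R) :
    valAt (Spec.map (CommRingCat.ofHom ψ)) ((Scheme.ΓSpecIso R).inv.hom r) = ψ r := by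
  have h := Scheme.ΓSpecIso_inv_naturality (CommRingCat.ofHom ψ)
  have h2 := congr($(h).hom r)
  change (Scheme.ΓSpecIso (.of Ω)).hom.hom ((Spec.map (CommRingCat.ofHom ψ)).appTop.hom
      ((Scheme.ΓSpecIso R).inv.hom r)) = _
  have h3 : (Spec.map (CommRingCat.ofHom ψ)).appTop.hom ((Scheme.ΓSpecIso R).inv.hom r) =
      (Scheme.ΓSpecIso (.of Ω)).inv.hom (ψ r) := h2.symm
  rw [h3]
  exact congr($((Scheme.ΓSpecIso (.of Ω)).inv_hom_id).hom (ψ r))

/-- points lift along morphisms with bijective residue field extension -/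
lemma lift_point {W : Scheme.{0}} (f : W ⟶ X) (w : W)
    (hb : Function.Bijective (f.residueFieldMap w).hom) (a0 : Spec (.of Ω) ⟶ X)
    (h : SVal.ptOf a0 = f w) :
    ∃ χ : W.residueField w →+* Ω,
      (Spec.map (CommRingCat.ofHom χ) ≫ W.fromSpecResidueField w) ≫ f = a0 := by
  let θ : X.residueField (f w) ≃+* W.residueField w := RingEquiv.ofBijective _ hb
  let χ0 : X.residueField (f w) ⟶ .of Ω := (X.residueFieldCongr h.symm).hom ≫
    CommRingCat.ofHom (SVal.fldOf a0)
  refine ⟨χ0.hom.comp θ.symm.toRingHom, ?_⟩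
  rw [Category.assoc, ← Scheme.Hom.SpecMap_residueFieldMap_fromSpecResidueField,
    ← Category.assoc, ← Spec.map_comp]
  have h1 : f.residueFieldMap w ≫ CommRingCat.ofHom (χ0.hom.comp θ.symm.toRingHom) = χ0 := by
    ext z
    exact congrArg χ0.hom (θ.symm_apply_apply z)
  refine (congrArg (fun t => Spec.map t ≫ X.fromSpecResidueField (f w)) h1).trans ?_
  simp only [χ0]
  rw [Spec.map_comp, Category.assoc, Scheme.residueFieldCongr_fromSpecResidueField]
  exact Scheme.descResidueField_stalkClosedPointTo_fromSpecResidueField _ X a0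

/-- a subfield of a residue field through which the point factors is everything -/
lemma top_of_factor {T : Scheme.{0}} (z : T) (F : Subfield (T.residueField z))
    (c : Spec (.of F) ⟶ T)
    (hc : Spec.map (CommRingCat.ofHom F.subtype : CommRingCat.of F ⟶ T.residueField z) ≫ c =
      T.fromSpecResidueField z) : F = ⊤ := by
  let ι : CommRingCat.of F ⟶ T.residueField z := CommRingCat.ofHom F.subtype
  have h5 : (Scheme.SpecToEquivOfField (T.residueField z) T).symm
      ⟨SVal.ptOf c, CommRingCat.ofHom (SVal.fldOf c) ≫ ι⟩ =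
      (Scheme.SpecToEquivOfField (T.residueField z) T).symm ⟨z, 𝟙 _⟩ := by
    change Spec.map (CommRingCat.ofHom (SVal.fldOf c) ≫ ι) ≫
        T.fromSpecResidueField (SVal.ptOf c) =
      Spec.map (𝟙 _) ≫ T.fromSpecResidueField z
    rw [Spec.map_comp, Category.assoc, Spec.map_id, Category.id_comp, ← hc]
    congr 1
    exact Scheme.descResidueField_stalkClosedPointTo_fromSpecResidueField _ T c
  obtain ⟨e, he⟩ := Scheme.SpecToEquivOfField_eq_iff.1
    ((Scheme.SpecToEquivOfField (T.residueField z) T).symm.injective h5)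
  rw [eq_top_iff]
  intro a _
  obtain ⟨b, rfl⟩ := (ConcreteCategory.bijective_of_isIso (T.residueFieldCongr e).hom).2 a
  have h6 := congr($(he).hom b)
  have h7 : (T.residueFieldCongr e).hom.hom b = (SVal.fldOf c b : F) := h6.symm
  exact h7 ▸ (SVal.fldOf c b).2

/-- the residue fields of an affine scheme are generated by the functions -/
lemma range_residue {R : CommRingCat.{0}} (x : Spec R) (χ : (Spec R).residueField x →+* Ω)
    (G : Subfield Ω) (ψ : R →+* Ω)
    (hψ : Spec.map (CommRingCat.ofHom χ) ≫ (Spec R).fromSpecResidueField x =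
      Spec.map (CommRingCat.ofHom ψ)) (h : ∀ r, ψ r ∈ G) (z : (Spec R).residueField x) :
    χ z ∈ G := by
  let F : Subfield ((Spec R).residueField x) := G.comap χ
  let ρ : R ⟶ (Spec R).residueField x := Spec.preimage ((Spec R).fromSpecResidueField x)
  have hρ : ρ ≫ CommRingCat.ofHom χ = CommRingCat.ofHom ψ := by
    apply Spec.map_injective
    refine (Spec.map_comp _ _).trans ?_
    exact (congrArg (Spec.map (CommRingCat.ofHom χ) ≫ ·) (Spec.map_preimage _)).trans hψ
  have hρ' : ∀ r, ρ.hom r ∈ F := by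
    intro r
    change χ (ρ.hom r) ∈ G
    have := congr($(hρ).hom r)
    have h2 : χ (ρ.hom r) = ψ r := this
    rw [h2]
    exact h r
  have hF : F = ⊤ := by
    apply top_of_factor x F (Spec.map (CommRingCat.ofHom (ρ.hom.codRestrict F hρ')))
    rw [← Spec.map_comp]
    refine Eq.trans (congrArg Spec.map ?_) (Spec.map_preimage _)
    rfl
  have : z ∈ F := by rw [hF]; trivial
  exact this

lemma padic_mem [CharP Ω 2] (v : ValuationSubring Ω) (lam : ℤ_[2] →+* Ω) (a : ℤ_[2]) :
    lam a ∈ v := by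
  have h1 := PadicInt.sub_zmodRepr_mem a
  rw [PadicInt.maximalIdeal_eq_span_p, Ideal.mem_span_singleton] at h1
  obtain ⟨c, hc⟩ := h1
  have h2 : a = (a.zmodRepr : ℤ_[2]) + 2 * c := by
    have : a - (a.zmodRepr : ℤ_[2]) = 2 * c := by exact_mod_cast hc
    linear_combination this
  have h3 := congrArg lam h2
  rw [map_add, map_mul, map_natCast, map_ofNat] at h3
  have h4 : (2 : Ω) = 0 := CharTwo.two_eq_zero
  rw [h4, zero_mul, add_zero] at h3
  rw [h3]
  exact natCast_mem v _

end W487T
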