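import Mathlib
import Pool.Agent.W487.T.ExtL

open CategoryTheory Limits Opposite Abelian
open Pool.Agent.W487

noncomputable section

namespace W487T

section abstract

variable {A : Type 2} [Category.{1} A] [Abelian A] [HasExt.{1} A]

/-- first half of the chase: a class of degree one whose boundary vanishes comes from `P` -/
lemma chase1 {F P F' : A} {a : F ⟶ P} {b : P ⟶ F'} {w : a ≫ b = 0}
    (h3 : (ShortComplex.mk a b w).ShortExact) {Z : A} (d : Ext Z F' 1)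
    (hd : d.comp h3.extClass (show 1 + 1 = 2 from rfl) = 0) :
    ∃ c : Ext Z P 1, c.comp (Ext.mk₀ b) (add_zero 1) = d :=
  Ext.covariant_sequence_exact₃ _ h3 _ _ hd

/-- second half of the chase -/
lemma chase2 {F P M G Q Q' : A} {i : F ⟶ G} {π : G ⟶ Q} {w2 : i ≫ π = 0}
    (h2 : (ShortComplex.mk i π w2).ShortExact) {j : P ⟶ M} {ρ : M ⟶ Q'} {w1 : j ≫ ρ = 0}
    (h1 : (ShortComplex.mk j ρ w1).ShortExact) (b : P ⟶ F) (nM : M ⟶ G) (nQ : Q' ⟶ Q)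
    (e1 : b ≫ i = j ≫ nM) (e2 : nM ≫ π = ρ ≫ nQ) {Z : A} (x : Z ⟶ Q) (c : Ext Z P 1)
    (hc : c.comp (Ext.mk₀ b) (add_zero 1) = (Ext.mk₀ x).comp h2.extClass (zero_add 1))
    (hM : c.comp (Ext.mk₀ j) (add_zero 1) = 0) :
    ∃ (q : Z ⟶ Q') (g : Z ⟶ G), x = q ≫ nQ + g ≫ π := by
  obtain ⟨q, rfl⟩ := Ext.covariant_sequence_exact₁ _ h1 c hM (n₀ := 0) rfl
  obtain ⟨q, rfl⟩ := (Ext.mk₀_bijective _ _).2 q
  let φ : ShortComplex.mk j ρ w1 ⟶ ShortComplex.mk i π w2 :=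
    { τ₁ := b
      τ₂ := nM
      τ₃ := nQ
      comm₁₂ := e1
      comm₂₃ := e2 }
  have hnat := ShortComplex.ShortExact.extClass_naturality h1 h2 φ
  have h5 : (Ext.mk₀ (q ≫ nQ)).comp h2.extClass (zero_add 1) =
      (Ext.mk₀ x).comp h2.extClass (zero_add 1) := by
    rw [← hc, ← Ext.mk₀_comp_mk₀, Ext.comp_assoc _ _ _ (zero_add 0) (zero_add 1) (by lia)]
    have h6 : (Ext.mk₀ nQ).comp h2.extClass (zero_add 1) =
      h1.extClass.comp (Ext.mk₀ b) (add_zero 1) := hnat.symm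
    rw [h6, ← Ext.comp_assoc _ _ _ (zero_add 1) (add_zero 1) (by lia)]
  have h3 : (Ext.mk₀ (x - q ≫ nQ)).comp h2.extClass (zero_add 1) = 0 := by
    rw [sub_eq_add_neg, Ext.mk₀_add, Ext.mk₀_neg, Ext.add_comp, Ext.neg_comp, h5,
      add_neg_cancel]
  obtain ⟨g, hg⟩ := Ext.covariant_sequence_exact₃ _ h2 _ _ h3
  obtain ⟨g, rfl⟩ := (Ext.mk₀_bijective _ _).2 g
  refine ⟨q, g, ?_⟩
  rw [Ext.mk₀_comp_mk₀] at hg
  have := (Ext.mk₀_bijective _ _).1 hg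
  have h5 : g ≫ π = x - q ≫ nQ := this
  rw [h5]
  abel

end abstract

end W487T
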