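import Mathlib
import Pool.Agent.W487.T.Chase
import Pool.Agent.W487.T.Ga

open CategoryTheory Limits Opposite Abelian AlgebraicGeometry
open Pool.Agent.W487

noncomputable section

namespace W487T

lemma eq_zero_of_loc {C : Type 1} [Category.{0} C] {J : GrothendieckTopology C}
    (A : Sheaf J AddCommGrpCat.{1}) {T : C} (a : A.obj.obj (op T))
    (h : ∃ R ∈ J T, ∀ (T' : C) (f : T' ⟶ T), R f → A.obj.map f.op a = 0) : a = 0 := by
  obtain ⟨R, hR, h'⟩ := h
  have h2 := (isSheaf_iff_isSheaf_of_type _ _).1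
    ((Presheaf.isSheaf_iff_isSheaf_forget _ A.obj (forget _)).1 A.property)
  refine (h2.isSeparated _ hR).ext ?_
  intro T' f hf
  exact (h' T' f hf).trans (map_zero (A.obj.map f.op).hom).symm

section

variable {Y : Scheme.{0}} (J : GrothendieckTopology Y.Etale) (hJ : J ≤ Y.smallEtaleTopology)
  (h2 : (2 : Γ(Y, ⊤)) = 0)

lemma dn_wp {U : Y.Etale} (a : (gaEt Y).obj (op U)) :
    dn ((wpS J hJ h2).hom.app (op U) a) = dn a ^ 2 + dn a := rfl

lemma dn_frobS {U : Y.Etale} (a : (gaEt Y).obj (op U)) :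
    dn ((frobS J hJ h2).hom.app (op U) a) = dn a ^ 2 := rfl

variable {J hJ}

/-- the function of a morphism from a free sheaf to the structure sheaf -/
def fn {T : Y.Etale} (s : (ZF J).obj T ⟶ Gs J hJ) : Γ(T.left, ⊤) := dn (sec s)

/-- the morphism of a function -/
def mk {T : Y.Etale} (a : Γ(T.left, ⊤)) : (ZF J).obj T ⟶ Gs J hJ :=
  ofSec (A := Gs J hJ) (up a)

@[simp] lemma fn_mk {T : Y.Etale} (a : Γ(T.left, ⊤)) :
    fn (mk a : (ZF J).obj T ⟶ Gs J hJ) = a := by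
  have : sec (mk a : (ZF J).obj T ⟶ Gs J hJ) = up a := sec_ofSec (A := Gs J hJ) (up a)
  exact congrArg dn this

lemma fn_inj {T : Y.Etale} {s t : (ZF J).obj T ⟶ Gs J hJ} (h : fn s = fn t) : s = t :=
  sec_injective (dn_inj h)

lemma fn_add {T : Y.Etale} (s t : (ZF J).obj T ⟶ Gs J hJ) : fn (s + t) = fn s + fn t := rfl

lemma fn_zero {T : Y.Etale} : fn (0 : (ZF J).obj T ⟶ Gs J hJ) = 0 := rfl

lemma fn_wp {T : Y.Etale} (s : (ZF J).obj T ⟶ Gs J hJ) :
    fn (s ≫ wpS J hJ h2) = fn s ^ 2 + fn s := rfl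

lemma fn_frob {T : Y.Etale} (s : (ZF J).obj T ⟶ Gs J hJ) :
    fn (s ≫ frobS J hJ h2) = fn s ^ 2 := rfl

lemma fn_map {T T' : Y.Etale} (f : T' ⟶ T) (s : (ZF J).obj T ⟶ Gs J hJ) :
    fn ((ZF J).map f ≫ s) = f.left.appTop.hom (fn s) := by
  have h : sec ((ZF J).map f ≫ s) = (Gs J hJ).obj.map f.op (sec s) := sec_map_comp f s
  exact congrArg dn h

variable (J hJ)

/-- the endomorphism `(a, b) ↦ (a ^ 2 + a + b ^ 2, b ^ 2 + b)` -/
def wp2 : Gs J hJ ⊞ Gs J hJ ⟶ Gs J hJ ⊞ Gs J hJ :=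
  biprod.lift (biprod.fst ≫ wpS J hJ h2 + biprod.snd ≫ frobS J hJ h2)
    (biprod.snd ≫ wpS J hJ h2)

lemma wp2_fst : wp2 J hJ h2 ≫ biprod.fst =
    biprod.fst ≫ wpS J hJ h2 + biprod.snd ≫ frobS J hJ h2 := biprod.lift_fst _ _

lemma wp2_snd : wp2 J hJ h2 ≫ biprod.snd = biprod.snd ≫ wpS J hJ h2 := biprod.lift_snd _ _

abbrev FF' := kernel (wpS J hJ h2)
abbrev PP := kernel (wp2 J hJ h2)
abbrev ii : FF' J hJ h2 ⟶ Gs J hJ := kernel.ι _
abbrev jj : PP J hJ h2 ⟶ Gs J hJ ⊞ Gs J hJ := kernel.ι _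
abbrev QQ := Abelian.image (wpS J hJ h2)
abbrev QQ' := Abelian.image (wp2 J hJ h2)

lemma exact_image {A : Type 2} [Category.{1} A] [Abelian A] {X Z : A} (f : X ⟶ Z) :
    (ShortComplex.mk (kernel.ι f) (Abelian.factorThruImage f) (by
      rw [← cancel_mono (Abelian.image.ι f), Category.assoc, Abelian.image.fac,
        kernel.condition, zero_comp])).ShortExact := by
  refine { exact := ?_, mono_f := inferInstance, epi_g := inferInstance }
  let φ : ShortComplex.mk (kernel.ι f) (Abelian.factorThruImage f) (by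
      rw [← cancel_mono (Abelian.image.ι f), Category.assoc, Abelian.image.fac,
        kernel.condition, zero_comp]) ⟶ ShortComplex.mk (kernel.ι f) f (kernel.condition f) :=
    { τ₁ := 𝟙 _
      τ₂ := 𝟙 _
      τ₃ := Abelian.image.ι f
      comm₁₂ := by simp
      comm₂₃ := by simp }
  have : Epi φ.τ₁ := inferInstanceAs (Epi (𝟙 _))
  have : IsIso φ.τ₂ := inferInstanceAs (IsIso (𝟙 _))
  have : Mono φ.τ₃ := inferInstanceAs (Mono (Abelian.image.ι f))
  exact (ShortComplex.exact_iff_of_epi_of_isIso_of_mono φ).2 (ShortComplex.exact_kernel f)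

def bb : PP J hJ h2 ⟶ FF' J hJ h2 := kernel.lift _ (jj J hJ h2 ≫ biprod.snd) (by
  rw [Category.assoc, ← wp2_snd, kernel.condition_assoc, zero_comp])

lemma bb_ii : bb J hJ h2 ≫ ii J hJ h2 = jj J hJ h2 ≫ biprod.snd := kernel.lift_ι _ _ _

def aa : FF' J hJ h2 ⟶ PP J hJ h2 := kernel.lift _ (ii J hJ h2 ≫ biprod.inl) (by
  apply biprod.hom_ext
  · rw [Category.assoc, Category.assoc, wp2_fst]
    simp
  · rw [Category.assoc, Category.assoc, wp2_snd]
    simp)

lemma aa_jj : aa J hJ h2 ≫ jj J hJ h2 = ii J hJ h2 ≫ biprod.inl := kernel.lift_ι _ _ _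

lemma aa_bb : aa J hJ h2 ≫ bb J hJ h2 = 0 := by
  rw [← cancel_mono (ii J hJ h2), Category.assoc, bb_ii, ← Category.assoc, aa_jj]
  simp

instance : Mono (aa J hJ h2) := by
  have : Mono (aa J hJ h2 ≫ jj J hJ h2) := by
    rw [aa_jj]
    infer_instance
  exact mono_of_mono _ (jj J hJ h2)

def nq : QQ' J hJ h2 ⟶ QQ J hJ h2 :=
  kernel.lift _ (Abelian.image.ι (wp2 J hJ h2) ≫ biprod.snd) (by
    rw [← cancel_epi (Abelian.factorThruImage (wp2 J hJ h2)), ← Category.assoc,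
      ← Category.assoc, Abelian.image.fac, wp2_snd, Category.assoc, cokernel.condition,
      comp_zero, comp_zero])

lemma nq_ι : nq J hJ h2 ≫ Abelian.image.ι (wpS J hJ h2) =
    Abelian.image.ι (wp2 J hJ h2) ≫ biprod.snd := kernel.lift_ι _ _ _

lemma snd_fac : biprod.snd ≫ Abelian.factorThruImage (wpS J hJ h2) =
    Abelian.factorThruImage (wp2 J hJ h2) ≫ nq J hJ h2 := by
  rw [← cancel_mono (Abelian.image.ι (wpS J hJ h2)), Category.assoc, Category.assoc, nq_ι,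
    Abelian.image.fac, ← Category.assoc, Abelian.image.fac, wp2_snd]

/-- local solvability of `a ^ 2 + a = β` for `β ^ 2 + β = 0` -/
def LocSolv : Prop := ∀ (U : Y.Etale) (β : Γ(U.left, ⊤)), β ^ 2 + β = 0 →
  ∃ R ∈ J U, ∀ (T : Y.Etale) (f : T ⟶ U), R f →
    ∃ a : Γ(T.left, ⊤), a ^ 2 + a = f.left.appTop.hom β

lemma epi_bb (hs : LocSolv J) : Epi (bb J hJ h2) := by
  apply epi_of_loc
  intro T β
  let β' : (ZF J).obj T ⟶ Gs J hJ := ofSec β ≫ ii J hJ h2
  have h1 : fn β' ^ 2 + fn β' = 0 := by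
    rw [← fn_wp h2]
    simp only [β']
    rw [Category.assoc, kernel.condition, comp_zero, fn_zero]
  obtain ⟨R, hR, hR'⟩ := hs T (fn β') h1
  refine ⟨R, hR, fun T' f hf => ?_⟩
  obtain ⟨a, ha⟩ := hR' T' f hf
  let β1 : (ZF J).obj T' ⟶ FF' J hJ h2 := (ZF J).map f ≫ ofSec β
  let a1 : (ZF J).obj T' ⟶ Gs J hJ := mk a
  have hβ1 : fn (β1 ≫ ii J hJ h2) = f.left.appTop.hom (fn β') := by
    simp only [β1]
    rw [Category.assoc, fn_map]
  have hz : a1 ≫ wpS J hJ h2 + (β1 ≫ ii J hJ h2) ≫ frobS J hJ h2 = 0 := by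
    apply fn_inj
    rw [fn_add, fn_wp, fn_frob, hβ1]
    simp only [a1]
    rw [fn_mk, ha, ← map_pow, ← map_add]
    have h5 : fn β' + fn β' ^ 2 = 0 := by
      rw [add_comm]
      exact h1
    rw [h5, map_zero]
    rfl
  let m : (ZF J).obj T' ⟶ PP J hJ h2 := kernel.lift _ (biprod.lift a1 (β1 ≫ ii J hJ h2)) (by
    apply biprod.hom_ext
    · rw [Category.assoc, wp2_fst, Preadditive.comp_add, biprod.lift_fst_assoc,
        biprod.lift_snd_assoc, hz, zero_comp]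
    · rw [Category.assoc, wp2_snd, biprod.lift_snd_assoc, Category.assoc, kernel.condition,
        comp_zero, zero_comp])
  refine ⟨sec m, ?_⟩
  have hm : m ≫ bb J hJ h2 = β1 := by
    rw [← cancel_mono (ii J hJ h2), Category.assoc, bb_ii, ← Category.assoc, kernel.lift_ι,
      biprod.lift_snd]
  rw [← sec_comp, hm]
  simp only [β1]
  rw [sec_map_comp, sec_ofSec]

lemma exact3 (hs : LocSolv J) :
    (ShortComplex.mk (aa J hJ h2) (bb J hJ h2) (aa_bb J hJ h2)).ShortExact := by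
  have h1 := epi_bb J hJ h2 hs
  refine { exact := ?_, mono_f := inferInstanceAs (Mono (aa J hJ h2)), epi_g := h1 }
  apply ShortComplex.exact_of_f_is_kernel
  refine KernelFork.IsLimit.ofι' _ _ fun {W} k hk => ?_
  change W ⟶ PP J hJ h2 at k
  change k ≫ bb J hJ h2 = 0 at hk
  have h3 : (k ≫ jj J hJ h2) ≫ biprod.snd = 0 := by
    rw [Category.assoc, ← bb_ii, ← Category.assoc, hk, zero_comp]
  have h4 : ((k ≫ jj J hJ h2) ≫ biprod.fst) ≫ wpS J hJ h2 = 0 := by
    have h5 : ((k ≫ jj J hJ h2) ≫ wp2 J hJ h2) ≫ biprod.fst = 0 := by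
      rw [Category.assoc k, kernel.condition, comp_zero, zero_comp]
    rw [Category.assoc, wp2_fst, Preadditive.comp_add, ← Category.assoc, ← Category.assoc, h3,
      zero_comp, add_zero] at h5
    exact h5
  refine ⟨kernel.lift _ _ h4, ?_⟩
  rw [← cancel_mono (jj J hJ h2)]
  change (kernel.lift _ _ h4 ≫ aa J hJ h2) ≫ jj J hJ h2 = _
  rw [Category.assoc, aa_jj, ← Category.assoc, kernel.lift_ι]
  apply biprod.hom_ext
  · rw [Category.assoc, biprod.inl_fst, Category.comp_id]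
  · rw [Category.assoc, biprod.inl_snd, comp_zero, h3]

end

end W487T
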