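import Mathlib
import Pool.Agent.W487.T.Chase2

open CategoryTheory Limits Opposite Abelian AlgebraicGeometry
open Pool.Agent.W487

noncomputable section

namespace W487T

variable {Y : Scheme.{0}} (J : GrothendieckTopology Y.Etale) (hJ : J ≤ Y.smallEtaleTopology)
  (h2 : (2 : Γ(Y, ⊤)) = 0)

/-- local vanishing of the first cohomology of the structure sheaf -/
def LocVan : Prop := ∀ (U : Y.Etale) (c : Ext ((ZF J).obj U) (Gs J hJ) 1) (u : U.left),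
  ∃ (U' : Y.Etale) (f : U' ⟶ U) (u' : U'.left), IsOpenImmersion f.left ∧ f.left u' = u ∧
    rsc f c = 0

lemma lift_to_image (U : Y.Etale) (x : Γ(U.left, ⊤))
    (hx : ∃ R ∈ J U, ∀ (T : Y.Etale) (f : T ⟶ U), R f →
      ∃ s : Γ(T.left, ⊤), s ^ 2 + s = f.left.appTop.hom x) :
    ∃ x' : (ZF J).obj U ⟶ QQ J hJ h2, x' ≫ Abelian.image.ι (wpS J hJ h2) = mk x := by
  have h : (mk x : (ZF J).obj U ⟶ Gs J hJ) ≫ cokernel.π (wpS J hJ h2) = 0 := by
    apply sec_injective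
    rw [sec_zero]
    apply eq_zero_of_loc
    obtain ⟨R, hR, hR'⟩ := hx
    refine ⟨R, hR, fun T f hf => ?_⟩
    obtain ⟨s, hs⟩ := hR' T f hf
    rw [← sec_map_comp, ← Category.assoc]
    have h3 : (ZF J).map f ≫ (mk x : (ZF J).obj U ⟶ Gs J hJ) =
        (mk s : (ZF J).obj T ⟶ Gs J hJ) ≫ wpS J hJ h2 := by
      apply fn_inj
      rw [fn_map, fn_wp, fn_mk, fn_mk, hs]
    rw [h3, Category.assoc, cokernel.condition, comp_zero, sec_zero]
  exact ⟨kernel.lift _ _ h, kernel.lift_ι _ _ _⟩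

lemma ext_biprod_zero {A : Type 2} [Category.{1} A] [Abelian A] [HasExt.{1} A] {Z G : A}
    (c : Ext Z (G ⊞ G) 1) (h1 : c.comp (Ext.mk₀ biprod.fst) (add_zero 1) = 0)
    (h2 : c.comp (Ext.mk₀ biprod.snd) (add_zero 1) = 0) : c = 0 := by
  have h : c.comp (Ext.mk₀ (𝟙 (G ⊞ G))) (add_zero 1) = 0 := by
    rw [← biprod.total, Ext.mk₀_add, Ext.comp_add, ← Ext.mk₀_comp_mk₀, ← Ext.mk₀_comp_mk₀,
      ← Ext.comp_assoc _ _ _ (add_zero 1) (zero_add 0) (by lia), h1,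
      ← Ext.comp_assoc _ _ _ (add_zero 1) (zero_add 0) (by lia), h2]
    simp
  simpa using h

theorem chase (hs : LocSolv J) (hv : LocVan J hJ) {J' : GrothendieckTopology Y.Etale}
    (hJ' : J' ≤ J) (hF : IsZero (((chg hJ').rightDerived 2).obj (kernel (wpS J hJ h2))))
    (U : Y.Etale) (x : Γ(U.left, ⊤))
    (hx : ∃ R ∈ J U, ∀ (T : Y.Etale) (f : T ⟶ U), R f →
      ∃ s : Γ(T.left, ⊤), s ^ 2 + s = f.left.appTop.hom x) :
    ∃ R ∈ J' U, ∀ (T : Y.Etale) (f : T ⟶ U), R f → ∀ t : T.left,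
      ∃ (T' : Y.Etale) (g : T' ⟶ T) (t' : T'.left), IsOpenImmersion g.left ∧ g.left t' = t ∧
        ∃ (q : Γ(T'.left, ⊤)), ∃ R' ∈ J T', ∀ (V : Y.Etale) (h : V ⟶ T'), R' h →
          ∃ a b : Γ(V.left, ⊤), b ^ 2 + b = (h ≫ g ≫ f).left.appTop.hom x ∧
            a ^ 2 + a + b ^ 2 = h.left.appTop.hom q := by
  obtain ⟨x', hx'⟩ := lift_to_image J hJ h2 U x hx
  have e2 := exact_image (wpS J hJ h2)
  have e1 := exact_image (wp2 J hJ h2)
  have e3 := exact3 J hJ h2 hs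
  obtain ⟨R, hR, hR'⟩ := vanish_two hJ' _ hF
    (((Ext.mk₀ x').comp e2.extClass (zero_add 1)).comp e3.extClass (show 1 + 1 = 2 from rfl))
  refine ⟨R, hR, fun T f hf t => ?_⟩
  have h3 := hR' T f hf
  rw [res_postcomp, res_postcomp, res_mk₀] at h3
  obtain ⟨c, hc⟩ := chase1 e3 _ h3
  obtain ⟨T1, g1, t1, hg1, ht1, hr1⟩ := hv T
    ((c.comp (Ext.mk₀ (jj J hJ h2)) (add_zero 1)).comp (Ext.mk₀ biprod.fst) (add_zero 1)) t
  obtain ⟨T', g2, t', hg2, ht', hr2⟩ := hv T1 (rsc g1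
    ((c.comp (Ext.mk₀ (jj J hJ h2)) (add_zero 1)).comp (Ext.mk₀ biprod.snd) (add_zero 1))) t1
  have hg : IsOpenImmersion (g2 ≫ g1).left := by
    have : (g2 ≫ g1).left = g2.left ≫ g1.left := rfl
    rw [this]
    infer_instance
  refine ⟨T', g2 ≫ g1, t', hg, ?_, ?_⟩
  · change g1.left (g2.left t') = t
    rw [ht', ht1]
  have hM : (rsc (g2 ≫ g1) c).comp (Ext.mk₀ (jj J hJ h2)) (add_zero 1) = 0 := by
    apply ext_biprod_zero
    · rw [← res_postcomp, ← res_postcomp, res_comp, hr1, res_zero]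
    · rw [← res_postcomp, ← res_postcomp, res_comp, hr2]
  have hc' : (rsc (g2 ≫ g1) c).comp (Ext.mk₀ (bb J hJ h2)) (add_zero 1) =
      (Ext.mk₀ ((ZF J).map (g2 ≫ g1) ≫ (ZF J).map f ≫ x')).comp e2.extClass (zero_add 1) := by
    rw [← res_postcomp, hc, res_postcomp, res_mk₀]
  obtain ⟨q, g0, hq⟩ := chase2 e2 e1 (bb J hJ h2) biprod.snd (nq J hJ h2) (bb_ii J hJ h2)
    (snd_fac J hJ h2) _ _ hc' hM
  let κ := Abelian.image.ι (wp2 J hJ h2)
  have hq2 : (ZF J).map (g2 ≫ g1) ≫ (ZF J).map f ≫ (mk x : (ZF J).obj U ⟶ Gs J hJ) =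
      (q ≫ κ) ≫ biprod.snd + g0 ≫ wpS J hJ h2 := by
    have h4 := congrArg (· ≫ Abelian.image.ι (wpS J hJ h2)) hq
    simp only [Category.assoc, Preadditive.add_comp, hx', nq_ι, Abelian.image.fac] at h4
    rw [Category.assoc]
    exact h4
  have hx2 : (g2 ≫ g1).left.appTop.hom (f.left.appTop.hom x) =
      fn ((q ≫ κ) ≫ biprod.snd) + (fn g0 ^ 2 + fn g0) := by
    have h4 := congrArg fn hq2
    rw [fn_map, fn_map, fn_mk, fn_add, fn_wp] at h4
    exact h4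
  obtain ⟨R', hRR, hRR'⟩ := epi_loc (Abelian.factorThruImage (wp2 J hJ h2)) (sec q)
  refine ⟨fn ((q ≫ κ) ≫ biprod.fst) + fn g0 ^ 2, R', hRR, fun V h hh => ?_⟩
  obtain ⟨m, hm⟩ := hRR' V h hh
  let m' : (ZF J).obj V ⟶ Gs J hJ ⊞ Gs J hJ := ofSec m
  have hm' : m' ≫ wp2 J hJ h2 = (ZF J).map h ≫ q ≫ κ := by
    have h5 : m' ≫ Abelian.factorThruImage (wp2 J hJ h2) = (ZF J).map h ≫ q := by
      apply sec_injective
      rw [sec_comp, sec_map_comp]
      simp only [m']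
      rw [sec_ofSec, hm]
    have h6 : wp2 J hJ h2 = Abelian.factorThruImage (wp2 J hJ h2) ≫ κ :=
      (Abelian.image.fac (wp2 J hJ h2)).symm
    refine (congrArg (m' ≫ ·) h6).trans ?_
    rw [← Category.assoc, h5, Category.assoc]
  have h7 : fn (m' ≫ biprod.snd) ^ 2 + fn (m' ≫ biprod.snd) =
      h.left.appTop.hom (fn ((q ≫ κ) ≫ biprod.snd)) := by
    rw [← fn_wp h2, ← fn_map, Category.assoc, ← wp2_snd, ← Category.assoc, hm']
    simp only [Category.assoc]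
  have h8 : fn (m' ≫ biprod.fst) ^ 2 + fn (m' ≫ biprod.fst) + fn (m' ≫ biprod.snd) ^ 2 =
      h.left.appTop.hom (fn ((q ≫ κ) ≫ biprod.fst)) := by
    rw [← fn_wp h2, ← fn_frob h2, ← fn_add, ← fn_map, Category.assoc, Category.assoc,
      ← Preadditive.comp_add, ← wp2_fst, ← Category.assoc, hm']
    simp only [Category.assoc]
  refine ⟨fn (m' ≫ biprod.fst), fn (m' ≫ biprod.snd) + h.left.appTop.hom (fn g0), ?_, ?_⟩
  · have h9 : (h ≫ (g2 ≫ g1) ≫ f).left.appTop.hom x =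
        h.left.appTop.hom ((g2 ≫ g1).left.appTop.hom (f.left.appTop.hom x)) := by
      have : (h ≫ (g2 ≫ g1) ≫ f).left = h.left ≫ (g2 ≫ g1).left ≫ f.left := rfl
      rw [this, Scheme.Hom.comp_appTop, Scheme.Hom.comp_appTop]
      rfl
    rw [h9, hx2, sq_add_two (two_zero h2 V), map_add, ← h7, map_add, map_pow]
    ring
  · rw [sq_add_two (two_zero h2 V), map_add, ← h8, map_pow]
    ring

end W487T
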