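import Pool.Agent.W487.T.Stm

/-!
Project TT: the Amitsur complex in degree one.
-/

set_option autoImplicit false

namespace W487T

open TensorProduct

namespace Am

variable (A B : Type) [CommRing A] [CommRing B] [Algebra A B]

/-- the first differential -/
noncomputable def d : B →ₗ[A] B ⊗[A] B :=
  (TensorProduct.mk A B B).flip 1 - TensorProduct.mk A B B 1

/-- the second differential -/
noncomputable def D : B ⊗[A] B →ₗ[A] B ⊗[A] (B ⊗[A] B) :=
  LinearMap.lTensor B ((TensorProduct.mk A B B).flip 1) + TensorProduct.mk A B (B ⊗[A] B) 1 -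
    LinearMap.lTensor B (TensorProduct.mk A B B 1)

/-- multiplication of the first two factors -/
noncomputable def m (M : Type) [AddCommGroup M] [Module A M] : B ⊗[A] (B ⊗[A] M) →ₗ[A] B ⊗[A] M :=
  LinearMap.rTensor M (LinearMap.mul' A B) ∘ₗ (TensorProduct.assoc A B B M).symm.toLinearMap

theorem d_apply (b : B) : d A B b = b ⊗ₜ 1 - 1 ⊗ₜ b := rfl

theorem D_tmul (x y : B) :
    D A B (x ⊗ₜ y) = x ⊗ₜ (y ⊗ₜ 1) + 1 ⊗ₜ (x ⊗ₜ y) - x ⊗ₜ (1 ⊗ₜ y) := rfl

theorem m_tmul (M : Type) [AddCommGroup M] [Module A M] (x y : B) (z : M) :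
    m A B M (x ⊗ₜ (y ⊗ₜ z)) = (x * y) ⊗ₜ z := rfl

theorem homotopy (z : B ⊗[A] (B ⊗[A] B)) :
    m A B (B ⊗[A] B) (LinearMap.lTensor B (D A B) z) =
      LinearMap.lTensor B (d A B) (m A B B z) + z := by
  have key : m A B (B ⊗[A] B) ∘ₗ LinearMap.lTensor B (D A B) =
      LinearMap.lTensor B (d A B) ∘ₗ m A B B + LinearMap.id := by
    apply TensorProduct.ext'
    intro a t
    induction t using TensorProduct.induction_on with
    | zero => simp
    | add u v hu hv => rw [tmul_add, map_add, map_add, hu, hv]
    | tmul x y =>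
      simp only [LinearMap.comp_apply, LinearMap.add_apply, LinearMap.id_apply,
        LinearMap.lTensor_tmul, D_tmul, m_tmul, d_apply, tmul_add, tmul_sub, map_add, map_sub,
        mul_one]
      abel
  exact LinearMap.congr_fun key z

theorem D_d (b : B) : D A B (d A B b) = 0 := by
  rw [d_apply, map_sub, D_tmul, D_tmul]
  abel

theorem exact_dD [Module.FaithfullyFlat A B] : Function.Exact (d A B) (D A B) := by
  apply Module.FaithfullyFlat.lTensor_reflects_exact A B
  intro z
  constructor
  · intro hz
    refine ⟨-(m A B B z), ?_⟩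
    have h := homotopy A B z
    rw [hz, map_zero] at h
    rw [map_neg]
    exact neg_eq_of_add_eq_zero_right h.symm
  · rintro ⟨y, rfl⟩
    have : D A B ∘ₗ d A B = 0 := LinearMap.ext (D_d A B)
    rw [← LinearMap.comp_apply, ← LinearMap.lTensor_comp, this, LinearMap.lTensor_zero,
      LinearMap.zero_apply]

end Am

open Am in
theorem am : StmAm := by
  intro A B _ _ _ _ c hc
  have h1 := hc _ _ _ rfl rfl rfl
  have h2 : D A B c = 0 := by
    have e1 : ∀ c : B ⊗[A] B, Algebra.TensorProduct.lift
        (Algebra.TensorProduct.includeLeft : B →ₐ[A] B ⊗[A] (B ⊗[A] B))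
        ((Algebra.TensorProduct.includeRight : B ⊗[A] B →ₐ[A] B ⊗[A] (B ⊗[A] B)).comp
          (Algebra.TensorProduct.includeLeft : B →ₐ[A] B ⊗[A] B))
        (fun _ _ => Commute.all _ _) c =
        LinearMap.lTensor B ((TensorProduct.mk A B B).flip 1) c := by
      intro c
      induction c using TensorProduct.induction_on with
      | zero => simp
      | add u v hu hv => rw [map_add, map_add, hu, hv]
      | tmul x y => simp
    have e2 : ∀ c : B ⊗[A] B, Algebra.TensorProduct.lift
        ((Algebra.TensorProduct.includeRight : B ⊗[A] B →ₐ[A] B ⊗[A] (B ⊗[A] B)).comp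
          (Algebra.TensorProduct.includeLeft : B →ₐ[A] B ⊗[A] B))
        ((Algebra.TensorProduct.includeRight : B ⊗[A] B →ₐ[A] B ⊗[A] (B ⊗[A] B)).comp
          (Algebra.TensorProduct.includeRight : B →ₐ[A] B ⊗[A] B))
        (fun _ _ => Commute.all _ _) c =
        TensorProduct.mk A B (B ⊗[A] B) 1 c := by
      intro c
      induction c using TensorProduct.induction_on with
      | zero => simp
      | add u v hu hv => rw [map_add, map_add, hu, hv]
      | tmul x y => simp
    have e3 : ∀ c : B ⊗[A] B, Algebra.TensorProduct.lift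
        (Algebra.TensorProduct.includeLeft : B →ₐ[A] B ⊗[A] (B ⊗[A] B))
        ((Algebra.TensorProduct.includeRight : B ⊗[A] B →ₐ[A] B ⊗[A] (B ⊗[A] B)).comp
          (Algebra.TensorProduct.includeRight : B →ₐ[A] B ⊗[A] B))
        (fun _ _ => Commute.all _ _) c =
        LinearMap.lTensor B (TensorProduct.mk A B B 1) c := by
      intro c
      induction c using TensorProduct.induction_on with
      | zero => simp
      | add u v hu hv => rw [map_add, map_add, hu, hv]
      | tmul x y => simp
    rw [e1, e2, e3] at h1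
    unfold D
    rw [LinearMap.sub_apply, LinearMap.add_apply, h1, sub_self]
  obtain ⟨b, hb⟩ := (exact_dD A B c).1 h2
  exact ⟨b, by rw [← hb, d_apply]⟩

end W487T
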