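import Mathlib
import Pool.Agent.W487.T.Chase2
import Pool.Agent.W487.T.Am
import Pool.Agent.W487.T.Stm2

open CategoryTheory Limits Opposite Abelian AlgebraicGeometry TensorProduct
open Pool.Agent.W487

set_option linter.unusedSectionVars false

noncomputable section

namespace W487T

section ob

variable {Y : Scheme.{0}} {A : Type} [CommRing A] (p : Spec (.of A) ⟶ Y) [Etale p]

lemma etale_spec (A T : Type) [CommRing A] [CommRing T] [Algebra A T] [Algebra.Etale A T] :
    Etale (Spec.map (CommRingCat.ofHom (algebraMap A T))) :=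
  (HasRingHomProperty.Spec_iff (P := @Etale)).2 (RingHom.etale_algebraMap.2 inferInstance)

/-- the object of the small etale site given by an etale algebra -/
def ob (T : Type) [CommRing T] [Algebra A T] [Algebra.Etale A T] : Y.Etale :=
  MorphismProperty.Over.mk ⊤ (Spec.map (CommRingCat.ofHom (algebraMap A T)) ≫ p) (by
    have := etale_spec A T
    infer_instance)

variable {T T' T'' : Type} [CommRing T] [Algebra A T] [Algebra.Etale A T] [CommRing T']
  [Algebra A T'] [Algebra.Etale A T'] [CommRing T''] [Algebra A T''] [Algebra.Etale A T'']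

/-- the morphism given by an algebra homomorphism -/
def obm (f : T →ₐ[A] T') : ob p T' ⟶ ob p T :=
  MorphismProperty.Over.homMk (Spec.map (CommRingCat.ofHom f.toRingHom)) (by
    change Spec.map (CommRingCat.ofHom f.toRingHom) ≫
      Spec.map (CommRingCat.ofHom (algebraMap A T)) ≫ p =
      Spec.map (CommRingCat.ofHom (algebraMap A T')) ≫ p
    rw [← Category.assoc, ← Spec.map_comp]
    congr 2
    ext a
    exact f.commutes a)

lemma obm_comp (f : T →ₐ[A] T') (g : T' →ₐ[A] T'') :
    obm p (g.comp f) = obm p g ≫ obm p f := by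
  apply MorphismProperty.Over.Hom.ext
  exact Spec.map_comp (CommRingCat.ofHom f.toRingHom) (CommRingCat.ofHom g.toRingHom)

variable {J : GrothendieckTopology Y.Etale} {hJ : J ≤ Y.smallEtaleTopology}

/-- an element of an algebra as a function on its spectrum -/
def fe (T : Type) [CommRing T] (t : T) : Γ(Spec (.of T), ⊤) := (Scheme.ΓSpecIso (.of T)).inv.hom t

lemma fe_bij (T : Type) [CommRing T] : Function.Bijective (fe T) :=
  ConcreteCategory.bijective_of_isIso (Scheme.ΓSpecIso (.of T)).inv

lemma fe_map {T T' : Type} [CommRing T] [CommRing T'] (f : T →+* T') (t : T) :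
    (Spec.map (CommRingCat.ofHom f)).appTop.hom (fe T t) = fe T' (f t) := by
  have := Scheme.ΓSpecIso_inv_naturality (CommRingCat.ofHom f)
  exact congr($(this).hom t).symm

/-- the morphism to the structure sheaf given by an element -/
def me (t : T) : (ZF J).obj (ob p T) ⟶ Gs J hJ := mk (fe T t : Γ((ob p T).left, ⊤))

lemma me_add (s t : T) : (me p (s + t) : (ZF J).obj (ob p T) ⟶ Gs J hJ) = me p s + me p t := by
  apply fn_inj
  rw [fn_add]
  simp only [me, fn_mk]
  exact map_add _ _ _

lemma me_sub (s t : T) : (me p (s - t) : (ZF J).obj (ob p T) ⟶ Gs J hJ) = me p s - me p t := by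
  rw [eq_sub_iff_add_eq, ← me_add, sub_add_cancel]

lemma me_inj {s t : T} (h : (me p s : (ZF J).obj (ob p T) ⟶ Gs J hJ) = me p t) : s = t := by
  have := congrArg fn h
  simp only [me, fn_mk] at this
  exact (fe_bij T).1 this

lemma me_surj (s : (ZF J).obj (ob p T) ⟶ Gs J hJ) : ∃ t, me p t = s := by
  obtain ⟨t, ht⟩ := (fe_bij T).2 (fn s)
  refine ⟨t, fn_inj ?_⟩
  simp only [me, fn_mk]
  exact ht

lemma me_map (f : T →ₐ[A] T') (t : T) :
    (ZF J).map (obm p f) ≫ (me p t : (ZF J).obj (ob p T) ⟶ Gs J hJ) = me p (f t) := by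
  apply fn_inj
  rw [fn_map]
  simp only [me, fn_mk]
  exact fe_map f.toRingHom t

end ob

section descent

variable {Y : Scheme.{0}} {A B : Type} [CommRing A] (p : Spec (.of A) ⟶ Y) [Etale p]
  [CommRing B] [Algebra A B] [Algebra.Etale A B] [Module.FaithfullyFlat A B]

instance etale_tensor (A B C : Type) [CommRing A] [CommRing B] [Algebra A B] [Algebra.Etale A B]
    [CommRing C] [Algebra A C] [Algebra.Etale A C] : Algebra.Etale A (B ⊗[A] C) :=
  Algebra.Etale.comp A B (B ⊗[A] C)

/-- the covering `Spec B ⟶ Spec A` -/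
def gB (B : Type) [CommRing B] [Algebra A B] [Algebra.Etale A B] : ob p B ⟶ ob p A :=
  obm p (Algebra.ofId A B)

lemma obm_gB {T : Type} [CommRing T] [Algebra A T] [Algebra.Etale A T] (f : B →ₐ[A] T) :
    obm p f ≫ gB p B = gB p T := by
  rw [gB, gB, ← obm_comp]
  congr 1
  exact Subsingleton.elim _ _

lemma mem_small_iff {U : Y.Etale} (R : Sieve U) : R ∈ Y.smallEtaleTopology U ↔
    ∀ u : U.left, ∃ (W : Y.Etale) (f : W ⟶ U) (w : W.left), R f ∧ f.left w = u := by
  change R ∈ Y.smallGrothendieckTopology @Etale U ↔ _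
  rw [Scheme.smallGrothendieckTopology_eq_toGrothendieck_smallPretopology _ le_rfl]
  refine (Scheme.mem_toGrothendieck_smallPretopology (P := @Etale) (Q := @Etale) U R).trans
    (forall_congr' fun u => ?_)
  constructor
  · rintro ⟨W, f, w, hf, -, hw⟩
    exact ⟨W, f, w, hf, hw⟩
  · rintro ⟨W, f, w, hf, hw⟩
    exact ⟨W, f, w, hf, inferInstance, hw⟩

lemma gB_mem : Sieve.generate (Presieve.singleton (gB p B)) ∈ Y.smallEtaleTopology (ob p A) := by
  rw [mem_small_iff]
  intro u
  have h : Function.Surjective (Spec.map (CommRingCat.ofHom (algebraMap A B))) := by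
    exact PrimeSpectrum.comap_surjective_of_faithfullyFlat (A := A) (B := B)
  obtain ⟨w, hw⟩ := h u
  exact ⟨ob p B, gB p B, w, ⟨_, 𝟙 _, gB p B, ⟨⟩, Category.id_comp _⟩, hw⟩

lemma gB_lift {Z : Y.Etale} (f g : Z ⟶ ob p B) (h : f ≫ gB p B = g ≫ gB p B) :
    ∃ l : Z ⟶ ob p (B ⊗[A] B),
      l ≫ obm p Algebra.TensorProduct.includeLeft = f ∧
      l ≫ obm p Algebra.TensorProduct.includeRight = g := by
  have hp := isPullback_SpecMap_of_isPushout _ _ _ _ (CommRingCat.isPushout_tensorProduct A B B)
  have h1 : f.left ≫ Spec.map (CommRingCat.ofHom (algebraMap A B)) =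
      g.left ≫ Spec.map (CommRingCat.ofHom (algebraMap A B)) := congr($(h).left)
  let l := hp.lift f.left g.left h1
  have hl1 : l ≫ Spec.map (CommRingCat.ofHom Algebra.TensorProduct.includeLeftRingHom) =
    f.left := hp.lift_fst _ _ _
  have hl2 : l ≫ Spec.map (CommRingCat.ofHom
      (Algebra.TensorProduct.includeRight (R := A) (A := B) (B := B)).toRingHom) =
    g.left := hp.lift_snd _ _ _
  refine ⟨MorphismProperty.Over.homMk l ?_, ?_, ?_⟩
  · change l ≫ Spec.map (CommRingCat.ofHom (algebraMap A (B ⊗[A] B))) ≫ p = Z.hom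
    have h2 : f.left ≫ (ob p B).hom = Z.hom := MorphismProperty.Over.w f
    have h3 : CommRingCat.ofHom (algebraMap A (B ⊗[A] B)) =
      CommRingCat.ofHom (algebraMap A B) ≫
        CommRingCat.ofHom Algebra.TensorProduct.includeLeftRingHom := rfl
    rw [h3, Spec.map_comp, ← h2, ← hl1]
    simp only [Category.assoc]
    rfl
  · apply MorphismProperty.Over.Hom.ext
    exact hl1
  · apply MorphismProperty.Over.Hom.ext
    exact hl2

/-- sheaf property for the covering `Spec B ⟶ Spec A` -/
lemma glue_one (I : Sheaf Y.smallEtaleTopology AddCommGrpCat.{1})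
    (y : (ZF Y.smallEtaleTopology).obj (ob p B) ⟶ I)
    (hy : (ZF Y.smallEtaleTopology).map (obm p
        (Algebra.TensorProduct.includeLeft : B →ₐ[A] B ⊗[A] B)) ≫ y =
      (ZF Y.smallEtaleTopology).map (obm p Algebra.TensorProduct.includeRight) ≫ y) :
    ∃ x : (ZF Y.smallEtaleTopology).obj (ob p A) ⟶ I,
      (ZF Y.smallEtaleTopology).map (gB p B) ≫ x = y := by
  have h2 := (isSheaf_iff_isSheaf_of_type _ _).1
    ((Presheaf.isSheaf_iff_isSheaf_forget _ I.obj (forget _)).1 I.property)
  have h3 : Presieve.IsSheafFor (I.obj ⋙ forget _) (Presieve.singleton (gB p B)) := by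
    rw [Presieve.isSheafFor_iff_generate]
    exact h2 _ (gB_mem p)
  rw [Presieve.isSheafFor_singleton] at h3
  obtain ⟨x, hx, -⟩ := h3 (sec y) (by
    intro Z f g hfg
    obtain ⟨l, rfl, rfl⟩ := gB_lift p f g hfg
    have h4 := congrArg (fun t => sec ((ZF Y.smallEtaleTopology).map l ≫ t)) hy
    simp only [sec_map_comp] at h4
    change I.obj.map (l ≫ _).op (sec y) = I.obj.map (l ≫ _).op (sec y)
    rw [op_comp, op_comp, Functor.map_comp, Functor.map_comp]
    exact h4)
  refine ⟨ofSec x, sec_injective ?_⟩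
  rw [sec_map_comp, sec_ofSec]
  exact hx

lemma glue_uniq (I : Sheaf Y.smallEtaleTopology AddCommGrpCat.{1})
    {x y : (ZF Y.smallEtaleTopology).obj (ob p A) ⟶ I}
    (hy : (ZF Y.smallEtaleTopology).map (gB p B) ≫ x =
      (ZF Y.smallEtaleTopology).map (gB p B) ≫ y) : x = y := by
  have h2 := (isSheaf_iff_isSheaf_of_type _ _).1
    ((Presheaf.isSheaf_iff_isSheaf_forget _ I.obj (forget _)).1 I.property)
  have h3 : Presieve.IsSheafFor (I.obj ⋙ forget _) (Presieve.singleton (gB p B)) := by
    rw [Presieve.isSheafFor_iff_generate]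
    exact h2 _ (gB_mem p)
  have h4 := h3.isSeparatedFor
  rw [Presieve.isSeparatedFor_singleton] at h4
  apply sec_injective
  apply h4
  have h5 := congrArg sec hy
  rw [sec_map_comp, sec_map_comp] at h5
  exact h5

theorem descent (I : Sheaf Y.smallEtaleTopology AddCommGrpCat.{1})
    (ι : Gs Y.smallEtaleTopology le_rfl ⟶ I) [Mono ι]
    (zA : (ZF Y.smallEtaleTopology).obj (ob p A) ⟶ cokernel ι)
    (yB : (ZF Y.smallEtaleTopology).obj (ob p B) ⟶ I)
    (h : yB ≫ cokernel.π ι = (ZF Y.smallEtaleTopology).map (gB p B) ≫ zA) :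
    ∃ yA : (ZF Y.smallEtaleTopology).obj (ob p A) ⟶ I, yA ≫ cokernel.π ι = zA := by
  have hex : (ShortComplex.mk ι (cokernel.π ι) (cokernel.condition ι)).Exact :=
    ShortComplex.exact_cokernel ι
  have hmono : Mono (ShortComplex.mk ι (cokernel.π ι) (cokernel.condition ι)).f := ‹Mono ι›
  -- differences of pull backs come from the structure sheaf
  have key : ∀ (T : Type) [CommRing T] [Algebra A T] [Algebra.Etale A T] (f g : B →ₐ[A] T),
      ∃ d : T, (me p d : _ ⟶ Gs Y.smallEtaleTopology le_rfl) ≫ ι =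
        (ZF Y.smallEtaleTopology).map (obm p f) ≫ yB -
          (ZF Y.smallEtaleTopology).map (obm p g) ≫ yB := by
    intro T _ _ _ f g
    have h1 : ((ZF Y.smallEtaleTopology).map (obm p f) ≫ yB -
          (ZF Y.smallEtaleTopology).map (obm p g) ≫ yB) ≫ cokernel.π ι = 0 := by
      rw [Preadditive.sub_comp, Category.assoc, Category.assoc, h, ← Category.assoc,
        ← Category.assoc, ← Functor.map_comp, ← Functor.map_comp, obm_gB, obm_gB, sub_self]
    obtain ⟨d, hd⟩ := me_surj p (hex.lift _ h1)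
    exact ⟨d, by rw [hd]; exact hex.lift_f _ _⟩
  obtain ⟨c, hc⟩ := key (B ⊗[A] B) Algebra.TensorProduct.includeLeft
    Algebra.TensorProduct.includeRight
  have key2 : ∀ (T : Type) [CommRing T] [Algebra A T] [Algebra.Etale A T] (f g : B →ₐ[A] T),
      (me p (Algebra.TensorProduct.lift f g (fun _ _ => Commute.all _ _) c) :
        _ ⟶ Gs Y.smallEtaleTopology le_rfl) ≫ ι =
        (ZF Y.smallEtaleTopology).map (obm p f) ≫ yB -
          (ZF Y.smallEtaleTopology).map (obm p g) ≫ yB := by
    intro T _ _ _ f g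
    rw [← me_map, Category.assoc, hc, Preadditive.comp_sub, ← Category.assoc, ← Category.assoc,
      ← Functor.map_comp, ← Functor.map_comp, ← obm_comp, ← obm_comp]
    congr 5
    · ext x
      simp
    · ext x
      simp
  obtain ⟨b, hb⟩ := am A B c (by
    intro f g k _ _ _
    apply me_inj p (J := Y.smallEtaleTopology) (hJ := le_rfl)
    rw [← cancel_mono ι, me_add, Preadditive.add_comp, key2, key2, key2]
    abel)
  obtain ⟨yA, hyA⟩ := glue_one p I (yB - me p b ≫ ι) (by
    rw [Preadditive.comp_sub, Preadditive.comp_sub, ← Category.assoc, ← Category.assoc,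
      me_map, me_map, sub_eq_sub_iff_sub_eq_sub, ← hc, hb, ← Preadditive.sub_comp, ← me_sub]
    rfl)
  refine ⟨yA, glue_uniq (B := B) p _ ?_⟩
  rw [← Category.assoc, hyA, Preadditive.sub_comp, Category.assoc, cokernel.condition,
    comp_zero, sub_zero, h]

end descent

end W487T
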