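import Mathlib
import Pool.Agent.W487.T.V0
import Pool.Agent.W487.T.Chase3

open CategoryTheory Limits Opposite Abelian AlgebraicGeometry TensorProduct
open Pool.Agent.W487

noncomputable section

namespace W487T

section inj

variable {C : Type 1} [Category.{0} C] {J K : GrothendieckTopology C}

/-- change of topology has an exact left adjoint -/
def chgAdj (h : J ≤ K) : (sheafToPresheaf J AddCommGrpCat.{1} ⋙
    presheafToSheaf K AddCommGrpCat.{1}) ⊣ chg h :=
  Adjunction.mkOfHomEquiv
    { homEquiv := fun X I => ((sheafificationAdjunction K AddCommGrpCat.{1}).homEquiv X.obj I).trans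
        { toFun := fun φ => (⟨φ⟩ : X ⟶ (chg h).obj I)
          invFun := fun φ => φ.hom
          left_inv := fun _ => rfl
          right_inv := fun _ => rfl }
      homEquiv_naturality_left_symm := fun {X' X I} f g => by
        exact (sheafificationAdjunction K AddCommGrpCat.{1}).homEquiv_naturality_left_symm
          f.hom g.hom
      homEquiv_naturality_right := fun {X I I'} f g => by
        ext1
        exact (sheafificationAdjunction K AddCommGrpCat.{1}).homEquiv_naturality_right f g }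

lemma chg_injective (h : J ≤ K) (I : Sheaf K AddCommGrpCat.{1}) [Injective I] :
    Injective ((chg h).obj I) := by
  have : (sheafToPresheaf J AddCommGrpCat.{1} ⋙
    presheafToSheaf K AddCommGrpCat.{1}).PreservesMonomorphisms := inferInstance
  exact Injective.injective_of_adjoint (chgAdj h) I

lemma chg_mono (h : J ≤ K) {A B : Sheaf K AddCommGrpCat.{1}} (φ : A ⟶ B) [Mono φ] :
    Mono ((chg h).map φ) := by
  apply mono_of_sec
  intro T a b hab
  exact sec_inj_of_mono φ hab

lemma chg_exact (h : J ≤ K) {A B D : Sheaf K AddCommGrpCat.{1}} (f : A ⟶ B) (g : B ⟶ D)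
    (w : f ≫ g = 0) [Mono f] (hS : (ShortComplex.mk f g w).Exact)
    (w' : (chg h).map f ≫ (chg h).map g = 0) :
    (ShortComplex.mk ((chg h).map f) ((chg h).map g) w').Exact := by
  apply exact_of_loc
  intro T y hy
  have : Mono (ShortComplex.mk f g w).f := ‹Mono f›
  obtain ⟨x, hx⟩ := exact_sec hS (T := T) y hy
  refine ⟨⊤, J.top_mem T, fun T' k _ => ⟨((chg h).obj A).obj.map k.op x, ?_⟩⟩
  have h1 := congr($(((chg h).map f).hom.naturality k.op) x)
  refine h1.trans ?_
  exact congrArg (((chg h).obj B).obj.map k.op) hx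

end inj

variable {Y : Scheme.{0}}

theorem v0 (hgeo : StmGeo) (I : Sheaf Y.smallEtaleTopology AddCommGrpCat.{1})
    (ι : Gs Y.smallEtaleTopology le_rfl ⟶ I) [Mono ι] (U : Y.Etale)
    (z : (ZF Y.smallEtaleTopology).obj U ⟶ cokernel ι) (u : U.left) :
    ∃ (U' : Y.Etale) (f : U' ⟶ U) (u' : U'.left), IsOpenImmersion f.left ∧ f.left u' = u ∧
      ∃ y : (ZF Y.smallEtaleTopology).obj U' ⟶ I,
        y ≫ cokernel.π ι = (ZF Y.smallEtaleTopology).map f ≫ z := by
  obtain ⟨R, hR, hR'⟩ := epi_loc (cokernel.π ι) (sec z)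
  rw [mem_small_iff] at hR
  obtain ⟨W, g, w, hg, rfl⟩ := hR u
  obtain ⟨a0, ha0⟩ := hR' W g hg
  let y0 : (ZF Y.smallEtaleTopology).obj W ⟶ I := ofSec a0
  have hy0 : y0 ≫ cokernel.π ι = (ZF Y.smallEtaleTopology).map g ≫ z := by
    apply sec_injective
    rw [sec_comp, sec_map_comp]
    simp only [y0]
    rw [sec_ofSec, ha0]
  obtain ⟨A, B, φ, s, r, a, hs, hr, hcomm, hff, het, ha⟩ := hgeo U.left W.left g.left w
  let : Algebra A B := φ.hom.toAlgebra
  have hE : Algebra.Etale A B := het
  have hF : Module.FaithfullyFlat A B := hff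
  let p : Spec (.of A) ⟶ Y := s ≫ U.hom
  have hU : Etale U.hom := U.prop
  have hp : Etale p := by
    have : Etale s := inferInstance
    infer_instance
  have hid : Spec.map (CommRingCat.ofHom (algebraMap A A)) = 𝟙 (Spec (.of A)) := Spec.map_id _
  have hid2 : Spec.map (CommRingCat.ofHom (algebraMap A A)) ≫ s = s := by
    rw [hid]
    exact Category.id_comp s
  let fA : ob p A ⟶ U := MorphismProperty.Over.homMk
    (Spec.map (CommRingCat.ofHom (algebraMap A A)) ≫ s) (by
      change (Spec.map (CommRingCat.ofHom (algebraMap A A)) ≫ s) ≫ U.hom =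
        Spec.map (CommRingCat.ofHom (algebraMap A A)) ≫ s ≫ U.hom
      rw [Category.assoc])
  let r' : ob p B ⟶ W := MorphismProperty.Over.homMk r (by
    change r ≫ W.hom = Spec.map φ ≫ s ≫ U.hom
    have h2 : g.left ≫ U.hom = W.hom := MorphismProperty.Over.w g
    rw [← h2, ← Category.assoc, hcomm, Category.assoc])
  have hrg : r' ≫ g = gB p B ≫ fA := by
    apply MorphismProperty.Over.Hom.ext
    change r ≫ g.left = Spec.map φ ≫ Spec.map (CommRingCat.ofHom (algebraMap A A)) ≫ s
    rw [hid2]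
    exact hcomm
  obtain ⟨yA, hyA⟩ := descent (B := B) p I ι ((ZF Y.smallEtaleTopology).map fA ≫ z)
    ((ZF Y.smallEtaleTopology).map r' ≫ y0) (by
      rw [Category.assoc, hy0, ← Category.assoc, ← Category.assoc, ← Functor.map_comp,
        ← Functor.map_comp, hrg])
  refine ⟨ob p A, fA, a, ?_, ?_, yA, hyA⟩
  · change IsOpenImmersion (Spec.map (CommRingCat.ofHom (algebraMap A A)) ≫ s)
    rw [hid]
    infer_instance
  · change (Spec.map (CommRingCat.ofHom (algebraMap A A)) ≫ s) a = g.left w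
    rw [hid2]
    exact ha

theorem locVan (hgeo : StmGeo) (J : GrothendieckTopology Y.Etale)
    (hJ : J ≤ Y.smallEtaleTopology) : LocVan J hJ := by
  intro U c u
  obtain ⟨⟨I, hI, ι, hι⟩⟩ : Nonempty (InjectivePresentation (Gs Y.smallEtaleTopology le_rfl)) :=
    EnoughInjectives.presentation _
  let ιJ : Gs J hJ ⟶ (chg hJ).obj I := (chg hJ).map ι
  have hιJ : Mono ιJ := chg_mono hJ ι
  have hinj : Injective ((chg hJ).obj I) := chg_injective hJ I
  let Sc := ShortComplex.mk ιJ _ (cokernel.condition ιJ)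
  have hSc : Sc.ShortExact := { exact := ShortComplex.exact_cokernel ιJ }
  have : Injective Sc.X₂ := hinj
  obtain ⟨z, rfl⟩ := Ext.covariant_sequence_exact₁ _ hSc c
    (Ext.eq_zero_of_injective _) (n₀ := 0) rfl
  obtain ⟨z, rfl⟩ := (Ext.mk₀_bijective _ _).2 z
  have w' : ιJ ≫ (chg hJ).map (cokernel.π ι) = 0 := by
    refine ((chg hJ).map_comp ι (cokernel.π ι)).symm.trans ?_
    rw [cokernel.condition]
    rfl
  let m : cokernel ιJ ⟶ (chg hJ).obj (cokernel ι) := cokernel.desc ιJ _ w'
  have hm : Mono m := mono_desc _ _ w'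
    (chg_exact hJ ι (cokernel.π ι) (cokernel.condition ι) (ShortComplex.exact_cokernel ι) w')
  have hm' : cokernel.π ιJ ≫ m = (chg hJ).map (cokernel.π ι) := cokernel.π_desc _ _ _
  change (ZF J).obj U ⟶ cokernel ιJ at z
  let s1 : ((chg hJ).obj (cokernel ι)).obj.obj (op U) := sec (z ≫ m)
  let s0 : (cokernel ι).obj.obj (op U) := s1
  obtain ⟨U', f, u', hf, hu, y, hy⟩ := v0 hgeo I ι U (ofSec s0) u
  refine ⟨U', f, u', hf, hu, ?_⟩
  let y0 : I.obj.obj (op U') := sec y
  let yJ : (ZF J).obj U' ⟶ (chg hJ).obj I := ofSec (A := (chg hJ).obj I) y0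
  have h1 : yJ ≫ Sc.g = (ZF J).map f ≫ z := by
    rw [← cancel_mono m]
    apply sec_injective
    change sec ((yJ ≫ cokernel.π ιJ) ≫ m) = _
    rw [Category.assoc, hm', sec_comp, Category.assoc, sec_map_comp]
    simp only [yJ]
    rw [sec_ofSec]
    have h2 := congrArg sec hy
    rw [sec_comp, sec_map_comp, sec_ofSec] at h2
    exact h2
  rw [res_postcomp, res_mk₀, ← h1, ← Ext.mk₀_comp_mk₀,
    Ext.comp_assoc _ _ _ (zero_add 0) (zero_add 1) (by lia), hSc.comp_extClass, Ext.comp_zero]

end W487T
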