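import Mathlib
import Pool.Agent.W487.T.Nis
import Pool.Agent.W487.T.Van
import Pool.Agent.W487.T.Pts
import Pool.Agent.W487.T.Fld
import Pool.Agent.W487.T.Core
import Pool.Agent.W487.T.Geo
import Pool.Agent.W487.T.Data
import Pool.Agent.W487.T.AS
import Pool.Agent.W487.T.ASC
import Pool.Agent.W487.T.Cst

open CategoryTheory Limits Opposite Abelian AlgebraicGeometry
open Pool.Agent.W487

noncomputable section

namespace W487T

section locs

variable {Y : Scheme.{0}} {A : CommRingCat.{0}} (p : Y ⟶ Spec A) (h2 : (2 : Γ(Y, ⊤)) = 0)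

/-- the sieve on which `a ^ 2 + a = f` is solvable -/
def solSieve {U : Y.Etale} (f : Γ(U.left, ⊤)) : Sieve U where
  arrows T g := ∃ a : Γ(T.left, ⊤), a ^ 2 + a = g.left.appTop.hom f
  downward_closed := by
    rintro T T' g ⟨a, ha⟩ k
    refine ⟨k.left.appTop.hom a, ?_⟩
    have : (k ≫ g).left = k.left ≫ g.left := rfl
    rw [this, Scheme.Hom.comp_appTop, ← map_pow, ← map_add, ha]
    rfl

include h2 in
lemma solSieve_mem (hasc : StmASC) {U : Y.Etale} (f : Γ(U.left, ⊤))
    (hf : ∀ x : SVal U.left, x.IsOver (U.hom ≫ p) →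
      ∃ h ∈ x.val, ∃ g, (U.left.Γevaluation x.pt).hom f = h + g ^ 2 + g) :
    solSieve f ∈ tameTop p U := by
  intro x hx
  obtain ⟨W, φ, y, s, hs, hy, ht⟩ := hasc Y h2 U f x (hf x hx)
  exact ⟨W, φ, y, ⟨s, hs⟩, hy, ht⟩

include h2 in
lemma locSolv (hasc : StmASC) : LocSolv (tameTop p) := by
  intro U β hβ
  refine ⟨solSieve β, solSieve_mem p h2 hasc β ?_, fun T f hf => hf⟩
  intro x _
  have h3 : (U.left.Γevaluation x.pt).hom β ^ 2 + (U.left.Γevaluation x.pt).hom β = 0 := by
    rw [← map_pow, ← map_add, hβ, map_zero]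
  have h4 : (U.left.Γevaluation x.pt).hom β * ((U.left.Γevaluation x.pt).hom β + 1) = 0 := by
    rw [← h3]; ring
  refine ⟨(U.left.Γevaluation x.pt).hom β, ?_, 0, by ring⟩
  rcases mul_eq_zero.1 h4 with h5 | h5
  · rw [h5]
    exact zero_mem _
  · rw [eq_neg_of_add_eq_zero_left h5]
    exact neg_mem (one_mem _)

end locs

section data

variable {F : Type} [Field F] [Finite F] [CharP F 2] (B : Type) [CommRing B] [Algebra ℤ_[2] B]

/-- the special fibre -/
abbrev SF (B : Type) [CommRing B] : Scheme.{0} := Spec (.of (B ⧸ Ideal.span {(2 : B)}))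

/-- the structure morphism of the special fibre over the base -/
def sp (B : Type) [CommRing B] [Algebra ℤ_[2] B] : SF B ⟶ Spec (.of ℤ_[2]) :=
  Spec.map (CommRingCat.ofHom (algebraMap ℤ_[2] (B ⧸ Ideal.span {(2 : B)})))

lemma two_SF (B : Type) [CommRing B] : (2 : Γ(SF B, ⊤)) = 0 := by
  have h : (2 : B ⧸ Ideal.span {(2 : B)}) = 0 := by
    have : Ideal.Quotient.mk (Ideal.span {(2 : B)}) 2 = 0 :=
      Ideal.Quotient.eq_zero_iff_mem.2 (Ideal.subset_span rfl)
    rw [map_ofNat] at this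
    exact this
  have h3 := congrArg (Scheme.ΓSpecIso (.of (B ⧸ Ideal.span {(2 : B)}))).inv.hom h
  rw [map_zero, map_ofNat] at h3
  exact h3

/-- the final object of the small etale site -/
def U0 (Y : Scheme.{0}) : Y.Etale := MorphismProperty.Over.mk ⊤ (𝟙 Y) (by
  have : Etale (𝟙 Y) := inferInstance
  exact this)

theorem not_isZero (hasc : StmASC) (ω : F) (hω : ω ^ 2 + ω + 1 = 0) (hF : Nat.card F = 4)
    (x xi t : B) (ψ : B →+* FF F) (hxi : x * xi = 1) (ht : t ^ 2 + t = x + xi)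
    (hψx : ψ x = fx F) (hψ : ∀ b, ψ b ∈ Subfield.closure {fx F, fy F}) :
    ¬ IsZero (((chg (nis_le_tame (sp B))).rightDerived 2).obj
      (kernel (wpS (tameTop (sp B)) (tame_le_et (sp B)) (two_SF B)))) := by
  intro hz
  have hcharF : CharP (CR F) 2 :=
    charP_of_injective_algebraMap (FaithfulSMul.algebraMap_injective (Polynomial F) (CR F)) 2
  have hchar : CharP (FF F) 2 :=
    charP_of_injective_algebraMap (FaithfulSMul.algebraMap_injective (CR F) (FF F)) 2
  let R := B ⧸ Ideal.span {(2 : B)}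
  let Y := SF B
  let e : R →+* Γ(Y, ⊤) := (Scheme.ΓSpecIso (.of R)).inv.hom
  let xb : Γ((U0 Y).left, ⊤) := e (Ideal.Quotient.mk _ x)
  -- the function `x` is locally of the form `s ^ 2 + s`
  have hx : ∃ R' ∈ tameTop (sp B) (U0 Y), ∀ (T : Y.Etale) (f : T ⟶ U0 Y), R' f →
      ∃ s : Γ(T.left, ⊤), s ^ 2 + s = f.left.appTop.hom xb := by
    refine ⟨solSieve xb, solSieve_mem (sp B) (two_SF B) hasc xb ?_, fun T f hf => hf⟩
    intro v _
    let ev : R →+* (U0 Y).left.residueField v.pt :=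
      ((U0 Y).left.Γevaluation v.pt).hom.comp e
    have h1 : ev (Ideal.Quotient.mk _ x) * ev (Ideal.Quotient.mk _ xi) = 1 := by
      rw [← map_mul, ← map_mul, hxi, map_one, map_one]
    have h4 : ev (Ideal.Quotient.mk _ t) ^ 2 + ev (Ideal.Quotient.mk _ t) =
        ev (Ideal.Quotient.mk _ x) + ev (Ideal.Quotient.mk _ xi) := by
      rw [← map_pow, ← map_pow, ← map_add, ← map_add, ht, map_add, map_add]
    have h5 : (2 : (U0 Y).left.residueField v.pt) = 0 := by
      have h6 : ((U0 Y).left.Γevaluation v.pt).hom (2 : Γ((U0 Y).left, ⊤)) = 2 := map_ofNat _ 2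
      have h7 : (2 : Γ((U0 Y).left, ⊤)) = 0 := two_SF B
      rw [← h6, h7, map_zero]
    change ∃ h ∈ v.val, ∃ g, ev (Ideal.Quotient.mk _ x) = h + g ^ 2 + g
    rcases v.val.mem_or_inv_mem (ev (Ideal.Quotient.mk _ x)) with h6 | h6
    · exact ⟨_, h6, 0, by ring⟩
    · refine ⟨ev (Ideal.Quotient.mk _ xi), ?_, ev (Ideal.Quotient.mk _ t), ?_⟩
      · rw [← eq_inv_of_mul_eq_one_right h1] at h6
        exact h6
      · linear_combination -h4 - ev (Ideal.Quotient.mk _ xi) * h5
  obtain ⟨R', hR', h3⟩ := chase (tameTop (sp B)) (tame_le_et (sp B)) (two_SF B)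
    (locSolv (sp B) (two_SF B) hasc) (locVan geo _ _) (nis_le_tame (sp B)) hz (U0 Y) xb hx
  -- the point of the curve
  have hI : ∀ r ∈ Ideal.span {(2 : B)}, ψ r = 0 := by
    intro r hr
    obtain ⟨c, rfl⟩ := Ideal.mem_span_singleton.1 hr
    rw [map_mul, map_ofNat, CharTwo.two_eq_zero, zero_mul]
  let ψb : R →+* FF F := Ideal.Quotient.lift _ ψ hI
  let a0 : Spec (.of (FF F)) ⟶ Y := Spec.map (CommRingCat.ofHom ψb)
  obtain ⟨W, f, w, hf, hw, hbij⟩ := hR' (SVal.ptOf (X := Y) a0)
  obtain ⟨T', g, t', hg, ht', q, R2, hR2, h4⟩ := h3 W f hf w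
  subst ht'
  have hbij2 : Function.Bijective ((g ≫ f).left.residueFieldMap t').hom := by
    have h5 : (g ≫ f).left.residueFieldMap t' =
      f.left.residueFieldMap (g.left t') ≫ g.left.residueFieldMap t' :=
      Scheme.residueFieldMap_comp g.left f.left t'
    have h6 : ((g ≫ f).left.residueFieldMap t').hom =
      (g.left.residueFieldMap t').hom.comp (f.left.residueFieldMap (g.left t')).hom :=
      congr($(h5).hom)
    rw [h6]
    exact (ConcreteCategory.bijective_of_isIso (g.left.residueFieldMap t')).comp hbij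
  obtain ⟨χ, hχ⟩ := lift_point (X := Y) (g ≫ f).left t' hbij2 a0 hw.symm
  -- values of `x` and `q`
  have hxv : χ (T'.left.Γevaluation t' ((g ≫ f).left.appTop.hom xb)) = fx F := by
    rw [← valAt_residue, ← valAt_comp, ← hψx]
    refine Eq.trans (congrArg (fun s => valAt (X := Y) s xb) hχ) ?_
    exact valAt_spec (R := .of R) ψb (Ideal.Quotient.mk _ x)
  have hqv : χ (T'.left.Γevaluation t' q) ∈ Subfield.closure {fx F, fy F} := by
    obtain ⟨z, hz⟩ := hbij2.2 (T'.left.Γevaluation t' q)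
    rw [← hz]
    refine range_residue (R := .of R) ((g ≫ f).left t')
      (χ.comp ((g ≫ f).left.residueFieldMap t').hom) _ ψb ?_ ?_ z
    · refine Eq.trans ?_ hχ
      rw [Category.assoc, ← Scheme.Hom.SpecMap_residueFieldMap_fromSpecResidueField,
        ← Category.assoc, ← Spec.map_comp]
      rfl
    · intro r
      obtain ⟨b, rfl⟩ := Ideal.Quotient.mk_surjective r
      exact hψ b
  refine core F ω hω hF _ hqv fun v hv => ?_
  -- the valuation on the etale neighbourhood
  let x1 : SVal T'.left := ⟨t', v.comap χ⟩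
  have hx1 : x1.IsOver (T'.hom ≫ sp B) := by
    rw [SVal.isOver_iff]
    intro a
    exact padic_mem v (χ.comp (Spec.preimage
      (T'.left.fromSpecResidueField x1.pt ≫ T'.hom ≫ sp B)).hom) a
  obtain ⟨V, h, y, hh, hy, hty⟩ := hR2 x1 hx1
  obtain ⟨a, b, hb, ha⟩ := h4 V h hh
  obtain ⟨e1, e2⟩ := (SVal.eq_iff _ _).1 hy
  have e1' : h.left y.pt = t' := e1
  let k : T'.left.residueField (h.left y.pt) →+* FF F :=
    χ.comp (T'.left.residueFieldCongr e1').hom.hom
  have hk : ∀ z, k (T'.left.Γevaluation (h.left y.pt) z) = χ (T'.left.Γevaluation t' z) :=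
    fun z => congrArg χ (congr_eval e1' z)
  have hh2 : ∀ z, (h.left.residueFieldMap y.pt).hom (T'.left.Γevaluation (h.left y.pt) z) =
      V.left.Γevaluation y.pt (h.left.appTop.hom z) :=
    fun z => Scheme.Γevaluation_naturality_apply h.left y.pt z
  have hω2 : (fc ω : FF F) ^ 2 + fc ω + 1 = 0 := by
    have h7 : (fc ω : FF F) ^ 2 + fc ω + 1 = fc (ω ^ 2 + ω + 1) := by
      simp only [fc, rc, map_add, map_pow, map_one]
    rw [h7, hω]
    simp [fc, rc]
  have key := field_step (h.left.residueFieldMap y.pt).hom k y.val v (by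
      exact e2) hty hv
    (T'.left.Γevaluation (h.left y.pt) q)
    (T'.left.Γevaluation (h.left y.pt) ((g ≫ f).left.appTop.hom xb))
    (V.left.Γevaluation y.pt a) (V.left.Γevaluation y.pt b) (fc ω) hω2 (by
      rw [hh2, ← map_pow, ← map_add, hb]
      have : (h ≫ g ≫ f).left = h.left ≫ (g ≫ f).left := rfl
      rw [this, Scheme.Hom.comp_appTop]
      rfl) (by
      rw [hh2, ← map_pow, ← map_add, ← map_pow, ← map_add, ha])
  rw [hk, hk, hxv] at key
  exact key

end data

end W487T
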