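import Mathlib
import Pool.Agent.W487.T.Neg

open CategoryTheory Limits Opposite Abelian AlgebraicGeometry
open Pool.Agent.W487

noncomputable section

namespace W487T

lemma exists_omega : ∃ ω : GaloisField 2 2, ω ^ 2 + ω + 1 = 0 := by
  have hc : Nat.card (GaloisField 2 2) = 4 := by
    rw [GaloisField.card 2 2 (by norm_num)]
    norm_num
  have : Fintype (GaloisField 2 2) := Fintype.ofFinite _
  classical
  have h1 : ∃ a : GaloisField 2 2, a ∉ ({0, 1} : Finset (GaloisField 2 2)) := by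
    by_contra h
    push Not at h
    have h2 : (Finset.univ : Finset (GaloisField 2 2)) ⊆ {0, 1} := fun a _ => h a
    have h3 := Finset.card_le_card h2
    rw [Finset.card_univ, ← Nat.card_eq_fintype_card, hc] at h3
    have h4 : ({0, 1} : Finset (GaloisField 2 2)).card ≤ 2 := Finset.card_le_two
    omega
  obtain ⟨a, ha⟩ := h1
  simp only [Finset.mem_insert, Finset.mem_singleton, not_or] at ha
  have h5 : a ^ 4 = a := by
    have := FiniteField.pow_card a
    rwa [← Nat.card_eq_fintype_card, hc] at this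
  refine ⟨a, ?_⟩
  have h6 : a * (a - 1) * (a ^ 2 + a + 1) = 0 := by linear_combination h5
  rcases mul_eq_zero.1 h6 with h7 | h7
  · rcases mul_eq_zero.1 h7 with h8 | h8
    · exact (ha.1 h8).elim
    · exact (ha.2 (sub_eq_zero.1 h8)).elim
  · exact h7

lemma zar_mem {Y : Scheme.{0}} {A : CommRingCat.{0}} (p : Y ⟶ Spec A) (U : Y.Etale)
    (R : Sieve U) (h : ∀ u : U.left, ∃ (W : Y.Etale) (f : W ⟶ U) (w : W.left),
      R f ∧ IsOpenImmersion f.left ∧ f.left w = u) : R ∈ tameTop p U := by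
  apply nis_le_tame p
  intro u
  obtain ⟨W, f, w, hf, ho, hw⟩ := h u
  exact ⟨W, f, w, hf, hw, ConcreteCategory.bijective_of_isIso (f.left.residueFieldMap w)⟩

theorem final : ∃ (B : Type) (_ : CommRing B) (_ : Algebra ℤ_[2] B)
    (_ : Algebra.Smooth ℤ_[2] B), ¬ IsZero (RTwo (sp B)) := by
  obtain ⟨ω, hω⟩ := exists_omega
  have hc : Nat.card (GaloisField 2 2) = 4 := by
    rw [GaloisField.card 2 2 (by norm_num)]
    norm_num
  obtain ⟨B, _, _, hB, x, xi, t, ψ, hxi, ht, hx, hψ⟩ := data (GaloisField 2 2)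
  refine ⟨B, inferInstance, inferInstance, hB, fun hz => ?_⟩
  refine not_isZero B (asc asx) ω hω hc x xi t ψ hxi ht hx hψ ?_
  obtain ⟨e⟩ := cst (SF B) (two_SF B) (tameTop (sp B)) (tame_le_et (sp B)) (zar_mem (sp B))
  exact hz.of_iso (((beta (sp B)).rightDerived 2).mapIso e)

end W487T
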